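import Mathlib.MeasureTheory.Integral.Bochner.Basic
import Mathlib.Analysis.InnerProductSpace.Basic

set_option autoImplicit false

open MeasureTheory

namespace Pool.Agent.MP_050e69_pr

/-- The unit vector of the lattice with axis s.1 and sign s.2. -/
def step {d : ℕ} (s : Fin d × Bool) : Fin d → ℤ := Pi.single s.1 (if s.2 then 1 else -1)

/-- The position at time j + 1 of the walk from 0 with steps σ. -/
def pos {d n : ℕ} (σ : Fin n → Fin d × Bool) (j : Fin n) : Fin d → ℤ :=
  ∑ k ∈ Finset.Iic j, step (σ k)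

/-- The normalised partition function of the directed polymer: the average over the (2d)^n
nearest neighbour paths of exp of the sum of β ω(j, X_j) - λ(β). -/
noncomputable def W (d : ℕ) (μ : Measure ℝ) (β : ℝ) (n : ℕ) (ω : ℕ × (Fin d → ℤ) → ℝ) : ℝ :=
  (∑ σ : Fin n → Fin d × Bool, Real.exp (∑ j : Fin n,
    (β * ω ((j : ℕ) + 1, pos σ j) - Real.log (∫ x, Real.exp (β * x) ∂μ)))) / (2 * d : ℝ) ^ n

end Pool.Agent.MP_050e69_pr
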