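import Mathlib.Topology.Sheaves.Presheaf
import Mathlib.Data.Int.Star
import Mathlib.Analysis.PSeries
import Mathlib.MeasureTheory.Integral.Prod
import Mathlib.Analysis.Complex.ExponentialBounds
import Mathlib.Analysis.Subadditive
import Mathlib.RingTheory.PiTensorProduct
import Mathlib.Topology.Separation.CompletelyRegular
import Mathlib.Probability.ProductMeasure
import Pool.Agent.MP_050e69_pr.Defs

-- ======== part 0: formerly Pool.Agent.MP_050e69_pr.Path
section MrgPart0

set_option autoImplicit false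

open Finset Real

namespace Pool.Agent.MP_050e69_pr

variable {d : ℕ}

abbrev St (d : ℕ) := Fin d × Bool
abbrev Site (d : ℕ) := ℕ × (Fin d → ℤ)

def disp (l : List (St d)) : Fin d → ℤ := (l.map step).sum

@[simp] lemma disp_nil : disp ([] : List (St d)) = 0 := rfl
@[simp] lemma disp_cons (s : St d) (l : List (St d)) : disp (s :: l) = step s + disp l := by
  simp [disp]
@[simp] lemma disp_append (l l' : List (St d)) : disp (l ++ l') = disp l + disp l' := by
  simp [disp]
@[simp] lemma disp_replicate (k : ℕ) (s : St d) : disp (List.replicate k s) = k • step s := by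
  simp [disp]

def P (d n : ℕ) : Finset (List (St d)) :=
  univ.map ⟨fun σ : Fin n → St d => List.ofFn σ, List.ofFn_injective⟩

@[simp] lemma mem_P {n : ℕ} {l : List (St d)} : l ∈ P d n ↔ l.length = n := by
  simp only [P, mem_map, mem_univ, true_and, Function.Embedding.coeFn_mk]
  constructor
  · rintro ⟨σ, rfl⟩
    simp
  · rintro rfl
    exact ⟨l.get, List.ofFn_get l⟩

lemma card_P (n : ℕ) : (P d n).card = (2 * d) ^ n := by
  simp [P, mul_comm]

lemma sum_P_add (a b : ℕ) (f : List (St d) → ℝ) :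
    ∑ l ∈ P d (a + b), f l = ∑ l ∈ P d a, ∑ l' ∈ P d b, f (l ++ l') := by
  rw [← sum_product']
  symm
  refine sum_nbij' (fun x => x.1 ++ x.2) (fun l => (l.take a, l.drop a)) ?_ ?_ ?_ ?_ ?_
  · simp +contextual
  · simp +contextual
  · rintro ⟨x, y⟩ h
    simp only [mem_product, mem_P] at h
    simp [← h.1]
  · simp
  · simp

lemma sum_P_succ (n : ℕ) (f : List (St d) → ℝ) :
    ∑ l ∈ P d (n + 1), f l = ∑ s : St d, ∑ l ∈ P d n, f (s :: l) := by
  rw [← sum_product']
  symm
  refine sum_bij (fun x _ => x.1 :: x.2) ?_ ?_ ?_ ?_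
  · simp
  · rintro ⟨a, b⟩ _ ⟨c, e⟩ _ h
    simpa using h
  · intro l hl
    rcases l with _ | ⟨s, l⟩
    · simp at hl
    · exact ⟨(s, l), by simpa using hl, rfl⟩
  · simp

lemma P_nonempty (hd : 0 < d) (n : ℕ) : (P d n).Nonempty :=
  ⟨List.replicate n (⟨0, hd⟩, true), by simp⟩

def site (l : List (St d)) (k : ℕ) : Site d := (k + 1, disp (l.take (k + 1)))

/-- Energy of a path in the field h. -/
def H (h : Site d → ℝ) (l : List (St d)) : ℝ := ∑ k ∈ range l.length, h (site l k)

def sh {α : Type} (t : ℕ) (x : Fin d → ℤ) (h : Site d → α) : Site d → α :=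
  fun p => h (t + p.1, x + p.2)

lemma site_append_left {l : List (St d)} (l' : List (St d)) {k : ℕ} (hk : k < l.length) :
    site (l ++ l') k = site l k := by
  simp [site, List.take_append_of_le_length (show k + 1 ≤ l.length from hk)]

lemma site_append_right (l l' : List (St d)) (k : ℕ) :
    site (l ++ l') (l.length + k) = (l.length + (site l' k).1, disp l + (site l' k).2) := by
  simp [site, add_assoc, List.take_length_add_append]

lemma H_append (h : Site d → ℝ) (l l' : List (St d)) :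
    H h (l ++ l') = H h l + H (sh l.length (disp l) h) l' := by
  simp only [H, List.length_append, sum_range_add]
  congr 1
  · exact sum_congr rfl fun k hk => by rw [site_append_left _ (mem_range.1 hk)]
  · exact sum_congr rfl fun k _ => by rw [site_append_right]; rfl

lemma H_mono {h g : Site d → ℝ} (hg : ∀ p, h p ≤ g p) (l : List (St d)) : H h l ≤ H g l :=
  sum_le_sum fun _ _ => hg _

lemma H_add (h g : Site d → ℝ) (l : List (St d)) :
    H (fun p => h p + g p) l = H h l + H g l := sum_add_distrib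

lemma H_mul (c : ℝ) (h : Site d → ℝ) (l : List (St d)) :
    H (fun p => c * h p) l = c * H h l := (mul_sum _ _ _).symm

lemma H_const (c : ℝ) (l : List (St d)) : H (fun _ => c) l = l.length * c := by simp [H]

lemma H_nonneg {h : Site d → ℝ} (hg : ∀ p, 0 ≤ h p) (l : List (St d)) : 0 ≤ H h l :=
  sum_nonneg fun _ _ => hg _

lemma H_congr {h g : Site d → ℝ} {l : List (St d)}
    (hg : ∀ p : Site d, 1 ≤ p.1 → p.1 ≤ l.length → h p = g p) : H h l = H g l :=
  sum_congr rfl fun k hk => hg _ (Nat.le_add_left 1 k) (mem_range.1 hk)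

/-- Partition function (not normalised). -/
noncomputable def Z (n : ℕ) (h : Site d → ℝ) : ℝ := ∑ l ∈ P d n, exp (H h l)

lemma Z_pos (hd : 0 < d) (n : ℕ) (h : Site d → ℝ) : 0 < Z n h :=
  sum_pos (fun _ _ => exp_pos _) (P_nonempty hd n)

lemma Z_nonneg (n : ℕ) (h : Site d → ℝ) : 0 ≤ Z n h := sum_nonneg fun _ _ => (exp_pos _).le

lemma Z_add (a b : ℕ) (h : Site d → ℝ) :
    Z (a + b) h = ∑ l ∈ P d a, exp (H h l) * Z b (sh a (disp l) h) := by
  rw [Z, sum_P_add]
  refine sum_congr rfl fun l hl => ?_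
  rw [Z, mul_sum]
  refine sum_congr rfl fun l' _ => ?_
  rw [H_append, exp_add, mem_P.1 hl]

lemma Z_le {h g : Site d → ℝ} {c : ℝ} (n : ℕ) (hg : ∀ l ∈ P d n, H h l ≤ H g l + c) :
    Z n h ≤ Z n g * exp c := by
  rw [Z, Z, sum_mul]
  exact sum_le_sum fun l hl => by rw [← exp_add]; exact exp_le_exp.2 (hg l hl)

lemma logZ_le (hd : 0 < d) {h g : Site d → ℝ} {c : ℝ} (n : ℕ)
    (hg : ∀ l ∈ P d n, H h l ≤ H g l + c) : log (Z n h) ≤ log (Z n g) + c := by
  rw [← log_exp c, ← log_mul (Z_pos hd n g).ne' (exp_pos c).ne']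
  exact log_le_log (Z_pos hd n h) (Z_le n hg)

lemma logZ_lip (hd : 0 < d) {h g : Site d → ℝ} {c : ℝ} (n : ℕ) (hg : ∀ p, h p ≤ g p + c) :
    log (Z n h) ≤ log (Z n g) + n * c :=
  logZ_le hd n fun l hl => by
    rw [← mem_P.1 hl, ← H_const, ← H_add]
    exact H_mono hg l

lemma logZ_zero (n : ℕ) : log (Z n (fun _ : Site d => 0)) = n * log (2 * d) := by
  simp [Z, H, card_P]

/-- Gibbs average. -/
noncomputable def av (n : ℕ) (h : Site d → ℝ) (g : List (St d) → ℝ) : ℝ :=
  (∑ l ∈ P d n, exp (H h l) * g l) / Z n h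

lemma av_mono {n : ℕ} (h : Site d → ℝ) {f g : List (St d) → ℝ} (hg : ∀ l ∈ P d n, f l ≤ g l) :
    av n h f ≤ av n h g :=
  div_le_div_of_nonneg_right
    (sum_le_sum fun l hl => mul_le_mul_of_nonneg_left (hg l hl) (exp_pos _).le) (Z_nonneg n h)

lemma av_const (hd : 0 < d) (n : ℕ) (h : Site d → ℝ) (c : ℝ) : av n h (fun _ => c) = c := by
  rw [av, ← sum_mul, ← Z, mul_div_cancel_left₀ _ (Z_pos hd n h).ne']

lemma av_add (n : ℕ) (h : Site d → ℝ) (f g : List (St d) → ℝ) :
    av n h (fun l => f l + g l) = av n h f + av n h g := by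
  simp only [av, mul_add, sum_add_distrib, add_div]

lemma av_mul (n : ℕ) (h : Site d → ℝ) (c : ℝ) (f : List (St d) → ℝ) :
    av n h (fun l => c * f l) = c * av n h f := by
  simp only [av, ← mul_div_assoc, mul_sum, mul_left_comm]

lemma av_sum {ι : Type} (n : ℕ) (h : Site d → ℝ) (s : Finset ι) (f : ι → List (St d) → ℝ) :
    av n h (fun l => ∑ i ∈ s, f i l) = ∑ i ∈ s, av n h (f i) := by
  simp only [av, mul_sum, ← sum_div]
  rw [sum_comm]

lemma av_congr {n : ℕ} (h : Site d → ℝ) {f g : List (St d) → ℝ} (hg : ∀ l ∈ P d n, f l = g l) :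
    av n h f = av n h g :=
  le_antisymm (av_mono h fun l hl => (hg l hl).le) (av_mono h fun l hl => (hg l hl).ge)

lemma av_nonneg {n : ℕ} (h : Site d → ℝ) {f : List (St d) → ℝ} (hg : ∀ l ∈ P d n, 0 ≤ f l) :
    0 ≤ av n h f :=
  div_nonneg (sum_nonneg fun l hl => mul_nonneg (exp_pos _).le (hg l hl)) (Z_nonneg n h)

lemma av_abs_le (hd : 0 < d) {n : ℕ} (h : Site d → ℝ) {f : List (St d) → ℝ} {c : ℝ}
    (hg : ∀ l ∈ P d n, |f l| ≤ c) : |av n h f| ≤ c := by
  rw [abs_le]
  constructor
  · rw [← av_const hd n h (-c)]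
    exact av_mono h fun l hl => (abs_le.1 (hg l hl)).1
  · rw [← av_const hd n h c]
    exact av_mono h fun l hl => (abs_le.1 (hg l hl)).2

lemma jensen (hd : 0 < d) (n : ℕ) (h : Site d → ℝ) (g : List (St d) → ℝ) :
    log (Z n h) + av n h g ≤ log (∑ l ∈ P d n, exp (H h l + g l)) := by
  have hZ := Z_pos hd n h
  set m := av n h g with hm
  rw [← log_exp m, ← log_mul hZ.ne' (exp_pos m).ne']
  refine log_le_log (by positivity) ?_
  have h1 : av n h (fun l => exp m * g l + exp m * (1 - m)) ≤ av n h fun l => exp (g l) :=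
    av_mono h fun l _ => by
      have := mul_le_mul_of_nonneg_left (add_one_le_exp (g l - m)) (exp_pos m).le
      rw [← exp_add, add_sub_cancel] at this
      linarith
  rw [av_add, av_mul, av_const hd, ← hm, av, le_div_iff₀ hZ] at h1
  simp only [exp_add]
  linarith

lemma jensen' (hd : 0 < d) (n : ℕ) (h g : Site d → ℝ) :
    log (Z n h) + av n h (H g) ≤ log (Z n fun p => h p + g p) := by
  simpa only [Z, H_add] using jensen hd n h (H g)

/-- The path visits the site. -/
def vis (l : List (St d)) (p : Site d) : Prop :=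
  1 ≤ p.1 ∧ p.1 ≤ l.length ∧ disp (l.take p.1) = p.2

instance (l : List (St d)) (p : Site d) : Decidable (vis l p) := by
  unfold vis
  infer_instance

lemma vis_iff {l : List (St d)} {p : Site d} : vis l p ↔ ∃ k ∈ range l.length, site l k = p := by
  constructor
  · rintro ⟨h1, h2, h3⟩
    refine ⟨p.1 - 1, mem_range.2 (by omega), ?_⟩
    simp [site, Nat.sub_add_cancel h1, h3]
  · rintro ⟨k, hk, rfl⟩
    exact ⟨Nat.le_add_left 1 k, mem_range.1 hk, rfl⟩

lemma site_inj (l : List (St d)) : Function.Injective (site l) := fun a b h => by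
  simpa [site] using congrArg Prod.fst h

def box (d n : ℕ) : Finset (Site d) := (P d n).biUnion fun l => (range n).image (site l)

lemma mem_box {n : ℕ} {l : List (St d)} {p : Site d} (hl : l ∈ P d n) (h : vis l p) :
    p ∈ box d n := by
  obtain ⟨k, hk, rfl⟩ := vis_iff.1 h
  exact mem_biUnion.2 ⟨l, hl, mem_image_of_mem _ (mem_P.1 hl ▸ hk)⟩

lemma H_eq_box {n : ℕ} {l : List (St d)} (hl : l ∈ P d n) (g : Site d → ℝ) :
    H g l = ∑ p ∈ box d n, if vis l p then g p else 0 := by
  rw [← sum_filter, H, ← sum_image (s := range l.length) (g := site l) (f := g)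
    fun a _ b _ h => site_inj l h]
  refine sum_congr ?_ fun _ _ => rfl
  ext p
  simp only [mem_image, mem_filter, ← vis_iff]
  exact ⟨fun h => ⟨mem_box hl h, h⟩, fun h => h.2⟩

lemma H_update (h : Site d → ℝ) (p : Site d) (l : List (St d)) :
    H h l = H (Function.update h p 0) l + if vis l p then h p else 0 := by
  rw [H_eq_box (mem_P.2 rfl), H_eq_box (mem_P.2 rfl)]
  by_cases hp : vis l p
  · have hb := mem_box (mem_P.2 rfl) hp
    rw [← add_sum_erase _ _ hb, ← add_sum_erase _ _ hb, add_right_comm]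
    congr 1
    · simp [hp]
    · exact sum_congr rfl fun q hq => by rw [Function.update_of_ne (ne_of_mem_erase hq)]
  · rw [if_neg hp, add_zero]
    refine sum_congr rfl fun q _ => ?_
    by_cases hq : q = p
    · simp [hq, hp]
    · rw [Function.update_of_ne hq]

/-- Weight of the paths through p, without the weight of p. -/
noncomputable def ZA (n : ℕ) (h : Site d → ℝ) (p : Site d) : ℝ :=
  ∑ l ∈ P d n, if vis l p then exp (H (Function.update h p 0) l) else 0

/-- Weight of the paths avoiding p. -/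
noncomputable def ZB (n : ℕ) (h : Site d → ℝ) (p : Site d) : ℝ :=
  ∑ l ∈ P d n, if vis l p then 0 else exp (H (Function.update h p 0) l)

lemma ZA_nonneg (n : ℕ) (h : Site d → ℝ) (p : Site d) : 0 ≤ ZA n h p :=
  sum_nonneg fun _ _ => by positivity

lemma ZB_nonneg (n : ℕ) (h : Site d → ℝ) (p : Site d) : 0 ≤ ZB n h p :=
  sum_nonneg fun _ _ => by positivity

lemma Z_eq_AB (n : ℕ) (h : Site d → ℝ) (p : Site d) :
    Z n h = exp (h p) * ZA n h p + ZB n h p := by
  rw [Z, ZA, ZB, mul_sum, ← sum_add_distrib]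
  refine sum_congr rfl fun l _ => ?_
  rw [H_update h p l]
  split_ifs <;> simp [exp_add, mul_comm]

lemma AB_pos (hd : 0 < d) (n : ℕ) (h : Site d → ℝ) (p : Site d) :
    0 < ZA n h p + ZB n h p := by
  have := Z_pos hd n (Function.update h p 0)
  rw [Z_eq_AB n _ p] at this
  simpa [ZA, ZB] using this

lemma av_vis (n : ℕ) (h : Site d → ℝ) (p : Site d) :
    av n h (fun l => if vis l p then 1 else 0) =
      exp (h p) * ZA n h p / (exp (h p) * ZA n h p + ZB n h p) := by
  rw [av, Z_eq_AB n h p, ZA, mul_sum]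
  congr 1
  refine sum_congr rfl fun l _ => ?_
  rw [H_update h p l]
  split_ifs <;> simp [exp_add, mul_comm]

lemma av_H (n : ℕ) (h g : Site d → ℝ) :
    av n h (H g) = ∑ p ∈ box d n, g p * av n h fun l => if vis l p then 1 else 0 := by
  rw [av_congr h fun l hl => H_eq_box hl g, av_sum]
  refine sum_congr rfl fun p _ => ?_
  rw [← av_mul]
  simp

lemma ZA_eq_zero {n : ℕ} (h : Site d → ℝ) {p : Site d} (hp : p ∉ box d n) : ZA n h p = 0 :=
  sum_eq_zero fun _ hl => if_neg fun hv => hp (mem_box hl hv)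

end Pool.Agent.MP_050e69_pr

end MrgPart0

-- ======== part 1: formerly Pool.Agent.MP_050e69_pr.Prob
section MrgPart1

set_option autoImplicit false

open Finset Real MeasureTheory

namespace Pool.Agent.MP_050e69_pr

variable {d : ℕ}

noncomputable def q (j : ℕ) : ℝ := 1 / ((j + 1) * (j + 2))

lemma q_pos (j : ℕ) : 0 < q j := by
  unfold q
  positivity

lemma hasSum_q : HasSum q 1 := by
  rw [hasSum_iff_tendsto_nat_of_nonneg fun j => (q_pos j).le]
  have h : ∀ n : ℕ, ∑ j ∈ range n, q j = 1 - 1 / ((n : ℝ) + 1) := fun n => by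
    induction n with
    | zero => simp
    | succ n ih =>
      rw [sum_range_succ, ih, q]
      push_cast
      field_simp
      ring
  simp only [h]
  simpa using tendsto_one_div_add_atTop_nhds_zero_nat.const_sub (1 : ℝ)

noncomputable def ν : Measure ℕ := Measure.sum fun j => ENNReal.ofReal (q j) • Measure.dirac j

instance : IsProbabilityMeasure ν := ⟨by
  rw [ν, Measure.sum_apply _ MeasurableSet.univ]
  simp only [Measure.smul_apply, measure_univ, smul_eq_mul, mul_one]
  rw [← ENNReal.ofReal_tsum_of_nonneg (fun j => (q_pos j).le) hasSum_q.summable,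
    hasSum_q.tsum_eq, ENNReal.ofReal_one]⟩

lemma ν_single (j : ℕ) : ν {j} = ENNReal.ofReal (q j) := by
  rw [ν, Measure.sum_smul_dirac_singleton]

lemma q_le_one (j : ℕ) : q j ≤ 1 := le_hasSum hasSum_q j fun i _ => (q_pos i).le

abbrev Om (d : ℕ) := Site d → ℕ

noncomputable def PP (d : ℕ) : Measure (Om d) := Measure.infinitePi fun _ => ν

instance : IsProbabilityMeasure (PP d) := by
  unfold PP
  infer_instance

open Classical in
noncomputable def pw (S : Set (Site d)) (x : Om d × Om d) : Om d :=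
  fun p => if p ∈ S then x.2 p else x.1 p

lemma pw_mem {S : Set (Site d)} {p : Site d} (h : p ∈ S) (x : Om d × Om d) :
    pw S x p = x.2 p := if_pos h

lemma pw_not {S : Set (Site d)} {p : Site d} (h : p ∉ S) (x : Om d × Om d) :
    pw S x p = x.1 p := if_neg h

lemma meas_pw (S : Set (Site d)) : Measurable (pw S) := by
  refine measurable_pi_lambda _ fun p => ?_
  by_cases h : p ∈ S
  · simp only [pw_mem h]
    fun_prop
  · simp only [pw_not h]
    fun_prop

lemma mp_pw (S : Set (Site d)) : MeasurePreserving (pw S) ((PP d).prod (PP d)) (PP d) := by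
  classical
  refine ⟨meas_pw S, Measure.eq_infinitePi _ fun s t ht => ?_⟩
  rw [Measure.map_apply (meas_pw S) (.pi s.countable_toSet fun _ _ => ht _)]
  have : pw S ⁻¹' Set.pi s t = Set.pi (s.filter (· ∉ S)) t ×ˢ Set.pi (s.filter (· ∈ S)) t := by
    ext x
    simp only [Set.mem_preimage, Set.mem_pi, mem_coe, Set.mem_prod, mem_filter]
    constructor
    · intro h
      exact ⟨fun p hp => pw_not hp.2 x ▸ h p hp.1, fun p hp => pw_mem hp.2 x ▸ h p hp.1⟩
    · intro h p hp
      by_cases hS : p ∈ S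
      · exact pw_mem hS x ▸ h.2 p ⟨hp, hS⟩
      · exact pw_not hS x ▸ h.1 p ⟨hp, hS⟩
  rw [this, Measure.prod_prod, PP, Measure.infinitePi_pi _ fun _ _ => ht _,
    Measure.infinitePi_pi _ fun _ _ => ht _, mul_comm, prod_filter_mul_prod_filter_not]

lemma mp_comp {φ : Site d → Site d} (hφ : Function.Injective φ) :
    MeasurePreserving (fun (η : Om d) p => η (φ p)) (PP d) (PP d) := by
  classical
  refine ⟨by fun_prop, Measure.eq_infinitePi _ fun s t ht => ?_⟩
  rw [Measure.map_apply (by fun_prop) (.pi s.countable_toSet fun _ _ => ht _)]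
  have : (fun (η : Om d) p => η (φ p)) ⁻¹' Set.pi s t =
      Set.pi (s.image φ) (Function.extend φ t fun _ => Set.univ) := by
    ext x
    simp only [coe_image, Set.mem_pi, Set.forall_mem_image, hφ.extend_apply, Set.mem_preimage]
  rw [this, PP, Measure.infinitePi_pi _ fun _ _ => .of_discrete,
    prod_image fun _ _ _ _ h => hφ h]
  simp [hφ.extend_apply]

/-- Bounded measurable functions. -/
def BM {X : Type} [MeasurableSpace X] (g : X → ℝ) : Prop := Measurable g ∧ ∃ C, ∀ x, |g x| ≤ C

section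
variable {X : Type} [MeasurableSpace X] {f g : X → ℝ}

lemma BM.int (hg : BM g) (μ : Measure X) [IsFiniteMeasure μ] : Integrable g μ :=
  hg.2.elim fun C hC => .of_bound hg.1.aestronglyMeasurable C (.of_forall hC)

lemma BM.const (c : ℝ) : BM fun _ : X => c := ⟨measurable_const, |c|, fun _ => le_rfl⟩

lemma BM.add (hf : BM f) (hg : BM g) : BM fun x => f x + g x := by
  obtain ⟨h1, C, hC⟩ := hf
  obtain ⟨h2, D, hD⟩ := hg
  exact ⟨h1.add h2, C + D, fun x => (abs_add_le _ _).trans (add_le_add (hC x) (hD x))⟩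

lemma BM.mul (hf : BM f) (hg : BM g) : BM fun x => f x * g x := by
  obtain ⟨h1, C, hC⟩ := hf
  obtain ⟨h2, D, hD⟩ := hg
  exact ⟨h1.mul h2, C * D, fun x => (abs_mul _ _).trans_le
    (mul_le_mul (hC x) (hD x) (abs_nonneg _) ((abs_nonneg _).trans (hC x)))⟩

lemma BM.sub (hf : BM f) (hg : BM g) : BM fun x => f x - g x := by
  simpa [sub_eq_add_neg] using hf.add ((BM.const (-1)).mul hg)

lemma BM.sum {ι : Type} (s : Finset ι) {f : ι → X → ℝ} (hf : ∀ i ∈ s, BM (f i)) :
    BM fun x => ∑ i ∈ s, f i x := by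
  classical
  induction s using Finset.induction_on with
  | empty => simpa using BM.const 0
  | insert a s ha ih =>
    simp only [sum_insert ha]
    exact (hf a (mem_insert_self a s)).add (ih fun i hi => hf i (mem_insert_of_mem hi))

lemma BM.exp (hf : BM f) : BM fun x => exp (f x) := by
  obtain ⟨h1, C, hC⟩ := hf
  exact ⟨h1.exp, Real.exp C, fun x => (abs_of_pos (exp_pos _)).trans_le
    (exp_le_exp.2 (abs_le.1 (hC x)).2)⟩

lemma BM.ite {s : X → Prop} [DecidablePred s] (hs : MeasurableSet {x | s x}) (hf : BM f)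
    (hg : BM g) : BM fun x => if s x then f x else g x := by
  obtain ⟨h1, C, hC⟩ := hf
  obtain ⟨h2, D, hD⟩ := hg
  refine ⟨Measurable.ite hs h1 h2, max C D, fun x => ?_⟩
  beta_reduce
  split_ifs
  exacts [(hC x).trans (le_max_left _ _), (hD x).trans (le_max_right _ _)]

lemma BM.comp {Y : Type} [MeasurableSpace Y] {φ : Y → X} (hf : BM f) (hφ : Measurable φ) :
    BM fun y => f (φ y) := ⟨hf.1.comp hφ, hf.2.imp fun _ h _ => h _⟩

lemma int_mp {Y : Type} [MeasurableSpace Y] {φ : Y → X} {μ : Measure Y} {μ' : Measure X}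
    (h : MeasurePreserving φ μ μ') (hf : Measurable f) : ∫ y, f (φ y) ∂μ = ∫ x, f x ∂μ' := by
  rw [← h.map_eq, integral_map h.measurable.aemeasurable hf.aestronglyMeasurable]

end

lemma indep (S : Set (Site d)) {f g : Om d → ℝ} (hf : Measurable f) (hg : Measurable g)
    (h1 : ∀ x, f (pw S x) = f x.1) (h2 : ∀ x, g (pw S x) = g x.2) :
    ∫ η, f η * g η ∂PP d = (∫ η, f η ∂PP d) * ∫ η, g η ∂PP d := by
  rw [← int_mp (mp_pw S) (hf.fun_mul hg), ← integral_prod_mul]
  simp only [h1, h2]

lemma int_site (p : Site d) (w : ℕ → ℝ) : ∫ η, w (η p) ∂PP d = ∫ j, w j ∂ν :=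
  int_mp (measurePreserving_eval_infinitePi (fun _ => ν) p) .of_discrete

lemma int_ind (j : ℕ) : ∫ i, (if i = j then 1 else 0 : ℝ) ∂ν = q j := by
  have : (fun i => if i = j then 1 else 0 : ℕ → ℝ) = Set.indicator {j} 1 := by
    ext i
    simp [Set.indicator_apply]
  rw [this, integral_indicator_one .of_discrete, Measure.real, ν_single,
    ENNReal.toReal_ofReal (q_pos j).le]

/-- A bounded value function. -/
def Bd (v : ℕ → ℝ) : Prop := ∃ C, ∀ j, |v j| ≤ C

lemma Bd.bm {v : ℕ → ℝ} (hv : Bd v) (p : Site d) : BM fun η : Om d => v (η p) :=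
  BM.comp ⟨.of_discrete, hv⟩ (measurable_pi_apply p)

section
variable {h : Om d → Site d → ℝ}

lemma bm_H (hh : ∀ p, BM fun η => h η p) (l : List (St d)) : BM fun η => H (h η) l :=
  BM.sum _ fun _ _ => hh _

lemma bm_Z (hh : ∀ p, BM fun η => h η p) (n : ℕ) : BM fun η => Z n (h η) :=
  BM.sum _ fun l _ => (bm_H hh l).exp

lemma bm_upd (hh : ∀ p, BM fun η => h η p) (p p' : Site d) :
    BM fun η => Function.update (h η) p 0 p' := by
  by_cases e : p' = p
  · simpa [e] using BM.const 0
  · simpa [Function.update_of_ne e] using hh p'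

lemma meas_ZA (hh : ∀ p, BM fun η => h η p) (n : ℕ) (p : Site d) :
    Measurable fun η => ZA n (h η) p :=
  Finset.measurable_sum _ fun l _ => by
    split_ifs
    exacts [(bm_H (bm_upd hh p) l).exp.1, measurable_const]

lemma meas_ZB (hh : ∀ p, BM fun η => h η p) (n : ℕ) (p : Site d) :
    Measurable fun η => ZB n (h η) p :=
  Finset.measurable_sum _ fun l _ => by
    split_ifs
    exacts [measurable_const, (bm_H (bm_upd hh p) l).exp.1]

lemma bm_av (hd : 0 < d) (hh : ∀ p, BM fun η => h η p) (n : ℕ) {g : Om d → List (St d) → ℝ}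
    (hg : ∀ l, BM fun η => g η l) : BM fun η => av n (h η) (g η) := by
  refine ⟨(BM.sum _ fun l _ => (bm_H hh l).exp.mul (hg l)).1.div (bm_Z hh n).1, ?_⟩
  choose C hC using fun l => (hg l).2
  exact ⟨∑ l ∈ P d n, |C l|, fun η => av_abs_le hd _ fun l hl => (hC l η).trans
    ((le_abs_self _).trans (single_le_sum (f := fun l => |C l|) (fun _ _ => abs_nonneg _) hl))⟩

end

lemma abs_logZ (hd : 0 < d) {h : Site d → ℝ} {C : ℝ} (hC : ∀ p, |h p| ≤ C) (n : ℕ) :
    |log (Z n h) - n * log (2 * d)| ≤ n * C := by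
  have h1 := logZ_lip hd (h := h) (g := fun _ => 0) (c := C) n
    fun p => by simpa using (abs_le.1 (hC p)).2
  have h2 := logZ_lip hd (g := h) (h := fun _ => 0) (c := C) n
    fun p => by linarith [(abs_le.1 (hC p)).1]
  rw [logZ_zero] at h1 h2
  rw [abs_le]
  constructor <;> linarith

lemma bm_logZ (hd : 0 < d) {v : ℕ → ℝ} (hv : Bd v) (n : ℕ) :
    BM fun η : Om d => log (Z n fun p => v (η p)) := by
  refine ⟨(bm_Z hv.bm n).1.log, hv.elim fun C hC => ⟨n * C + |n * log (2 * d)|, fun η => ?_⟩⟩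
  have := abs_logZ hd (h := fun p => v (η p)) (fun _ => hC _) n
  linarith [abs_sub_abs_le_abs_sub (log (Z n fun p => v (η p))) (n * log (2 * d))]

lemma upd_pw (v : ℕ → ℝ) (p : Site d) (x : Om d × Om d) :
    Function.update (fun p' => v (pw {p} x p')) p 0 =
      Function.update (fun p' => v (x.1 p')) p 0 := by
  ext p'
  by_cases e : p' = p
  · simp [e]
  · simp [Function.update_of_ne e, pw_not (show p' ∉ ({p} : Set (Site d)) from e)]

/-- The type of a site is independent of the weights through it and around it. -/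
lemma int_type {v : ℕ → ℝ} (hv : Bd v) (n : ℕ) (p : Site d) (j : ℕ) {k : ℝ → ℝ → ℝ}
    (hk : Measurable fun x : ℝ × ℝ => k x.1 x.2) :
    ∫ η, k (ZA n (fun p => v (η p)) p) (ZB n (fun p => v (η p)) p) *
        (if η p = j then 1 else 0) ∂PP d =
      (∫ η, k (ZA n (fun p => v (η p)) p) (ZB n (fun p => v (η p)) p) ∂PP d) * q j := by
  rw [indep {p} (hk.fun_comp ((meas_ZA hv.bm n p).prodMk (meas_ZB hv.bm n p)))
    ((Measurable.of_discrete (f := fun i => if i = j then (1 : ℝ) else 0)).fun_comp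
      (measurable_pi_apply p)),
    int_site p fun i => if i = j then 1 else 0, int_ind]
  · intro x
    simp only [ZA, ZB, upd_pw]
  · intro x
    rw [pw_mem (Set.mem_singleton p)]

end Pool.Agent.MP_050e69_pr

end MrgPart1

-- ======== part 2: formerly Pool.Agent.MP_050e69_pr.Limit
section MrgPart2

set_option autoImplicit false

open Finset Real MeasureTheory Filter Topology

namespace Pool.Agent.MP_050e69_pr

variable {d : ℕ}

noncomputable def LZ (n : ℕ) (v : ℕ → ℝ) (η : Om d) : ℝ := log (Z n fun p => v (η p))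

noncomputable def E (d n : ℕ) (v : ℕ → ℝ) : ℝ := ∫ η, LZ n v η ∂PP d

lemma bm_LZ (hd : 0 < d) {v : ℕ → ℝ} (hv : Bd v) (n : ℕ) : BM (LZ (d := d) n v) :=
  bm_logZ hd hv n

lemma Z_congr {n : ℕ} {h g : Site d → ℝ} (hg : ∀ p : Site d, 1 ≤ p.1 → p.1 ≤ n → h p = g p) :
    Z n h = Z n g :=
  sum_congr rfl fun l hl => by rw [H_congr (mem_P.1 hl ▸ hg)]

lemma mp_sh (a : ℕ) (y : Fin d → ℤ) : MeasurePreserving (sh a y) (PP d) (PP d) :=
  mp_comp (φ := fun p => (a + p.1, y + p.2)) fun p p' h => by
    simpa [Prod.ext_iff] using h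

lemma E_add (hd : 0 < d) {v : ℕ → ℝ} (hv : Bd v) (a b : ℕ) :
    E d a v + E d b v ≤ E d (a + b) v := by
  have b1 : ∀ l : List (St d), BM fun η : Om d => LZ b v (sh a (disp l) η) := fun l =>
    (bm_LZ hd hv b).comp (mp_sh a _).measurable
  have b2 := bm_av hd hv.bm a b1
  have b3 : ∀ l : List (St d), BM fun η : Om d =>
      av a (fun p => v (η p)) fun l' => if l' = l then 1 else 0 :=
    fun l => bm_av hd hv.bm a fun _ => BM.const _
  have e1 : ∀ (h : Site d → ℝ) (g : List (St d) → ℝ), av a h g =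
      ∑ l ∈ P d a, av a h (fun l' => if l' = l then 1 else 0) * g l := fun h g => by
    simp only [mul_comm _ (g _), ← av_mul, ← av_sum]
    exact av_congr h fun l hl => by simp [hl]
  have h1 : ∫ η, av a (fun p => v (η p)) (fun l => LZ b v (sh a (disp l) η)) ∂PP d = E d b v := by
    simp only [fun η : Om d => e1 (fun p => v (η p)) fun l => LZ b v (sh a (disp l) η)]
    rw [integral_finsetSum _ fun l _ => ((b3 l).mul (b1 l)).int _]
    have e2 : ∀ l ∈ P d a, ∫ η, av a (fun p => v (η p)) (fun l' => if l' = l then 1 else 0) *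
        LZ b v (sh a (disp l) η) ∂PP d = ∫ η, av a (fun p => v (η p))
          (fun l' => if l' = l then 1 else 0) * E d b v ∂PP d := fun l _ => by
      rw [indep {p | a < p.1} (b3 l).1 (b1 l).1, int_mp (mp_sh a _) (bm_LZ hd hv b).1,
        integral_mul_const, E]
      · intro x
        have e : ∀ p : Site d, 1 ≤ p.1 → p.1 ≤ a → v (pw {p | a < p.1} x p) = v (x.1 p) :=
          fun p _ hp => by rw [pw_not (by simpa using hp)]
        simp only [av]
        rw [Z_congr e]
        congr 1
        exact sum_congr rfl fun l hl => by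
          rw [H_congr fun p h1 h2 => e p h1 (mem_P.1 hl ▸ h2)]
      · intro x
        simp only [LZ]
        rw [Z_congr fun p hp _ => by rw [sh, pw_mem (by simpa using Nat.pos_of_ne_zero (by omega))]]
        rfl
    rw [sum_congr rfl e2, ← integral_finsetSum _ fun l _ => ((b3 l).mul (BM.const _)).int _]
    simp only [← e1 _ fun _ => E d b v, av_const hd]
    simp
  rw [← h1, E, ← integral_add ((bm_LZ hd hv a).int _) (b2.int _)]
  refine integral_mono (((bm_LZ hd hv a).add b2).int _) ((bm_LZ hd hv _).int _) fun η => ?_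
  refine (jensen hd a _ _).trans_eq ?_
  simp only [LZ, Z_add, exp_add, exp_log (Z_pos hd _ _)]
  rfl

lemma abs_LZ (hd : 0 < d) {v : ℕ → ℝ} {C : ℝ} (hC : ∀ j, |v j| ≤ C) (n : ℕ) (η : Om d) :
    |LZ n v η| ≤ n * (C + |log (2 * d)|) := by
  have := abs_logZ hd (h := fun p => v (η p)) (fun _ => hC _) n
  have h2 := abs_sub_abs_le_abs_sub (log (Z n fun p => v (η p))) (n * log (2 * d))
  rw [abs_mul, Nat.abs_cast] at h2
  rw [LZ]
  linarith

lemma abs_int {f : Om d → ℝ} {C : ℝ} (h : ∀ η, |f η| ≤ C) : |∫ η, f η ∂PP d| ≤ C := by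
  simpa using norm_integral_le_of_norm_le_const (μ := PP d) (f := f) (C := C) (.of_forall h)

noncomputable def F (d : ℕ) (v : ℕ → ℝ) : ℝ := limUnder atTop fun n : ℕ => E d n v / n

lemma tendsto_F (hd : 0 < d) {v : ℕ → ℝ} (hv : Bd v) :
    Tendsto (fun n : ℕ => E d n v / n) atTop (𝓝 (F d v)) := by
  have hs : Subadditive fun n => -E d n v := fun a b => by linarith [E_add hd hv a b]
  obtain ⟨C, hC⟩ := hv
  have hb : BddBelow (Set.range fun n : ℕ => -E d n v / n) := by
    refine ⟨-(C + |log (2 * d)|), ?_⟩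
    rintro _ ⟨n, rfl⟩
    have h0 : 0 ≤ C + |log (2 * d)| := add_nonneg ((abs_nonneg _).trans (hC 0)) (abs_nonneg _)
    rcases n.eq_zero_or_pos with rfl | hn
    · simpa only [Nat.cast_zero, div_zero, neg_nonpos] using h0
    · rw [le_div_iff₀ (by positivity)]
      have := (abs_le.1 (abs_int (abs_LZ hd hC n))).2
      rw [E]
      linarith
  refine tendsto_nhds_limUnder ⟨-hs.lim, ?_⟩
  simpa [neg_div] using (hs.tendsto_lim hb).neg

lemma F_lip (hd : 0 < d) {v w : ℕ → ℝ} (hv : Bd v) (hw : Bd w) {c : ℝ} (h : ∀ j, v j ≤ w j + c) :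
    F d v ≤ F d w + c := by
  refine le_of_tendsto_of_tendsto (tendsto_F hd hv) ((tendsto_F hd hw).add_const c) ?_
  filter_upwards [eventually_gt_atTop 0] with n hn
  rw [div_add' _ _ _ (by positivity)]
  refine div_le_div_of_nonneg_right ?_ n.cast_nonneg
  have := integral_mono ((bm_LZ hd hv n).int (PP d))
    (((bm_LZ hd hw n).add (BM.const (n * c))).int _) fun η => logZ_lip hd n fun p => h (η p)
  rw [integral_add ((bm_LZ hd hw n).int _) (integrable_const _)] at this
  simpa [E, mul_comm] using this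

lemma Bd.add {v w : ℕ → ℝ} (hv : Bd v) (hw : Bd w) : Bd fun j => v j + w j :=
  (BM.add ⟨.of_discrete, hv⟩ ⟨.of_discrete, hw⟩).2

lemma Bd.smul {v : ℕ → ℝ} (hv : Bd v) (c : ℝ) : Bd fun j => c * v j :=
  (BM.mul (BM.const c) ⟨.of_discrete, hv⟩).2

lemma E_resp (hd : 0 < d) {v w : ℕ → ℝ} (hv : Bd v) (hw : Bd w) (n : ℕ) :
    E d n v + ∫ η, av n (fun p => v (η p)) (H fun p => w (η p)) ∂PP d ≤
      E d n fun j => v j + w j := by
  have b := bm_av hd hv.bm n (bm_H hw.bm)
  rw [E, ← integral_add ((bm_LZ hd hv n).int _) (b.int _)]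
  exact integral_mono (((bm_LZ hd hv n).add b).int _) ((bm_LZ hd (hv.add hw) n).int _)
    fun η => jensen' hd n _ _

lemma F_conv (hd : 0 < d) {v w : ℕ → ℝ} (hv : Bd v) (hw : Bd w) :
    2 * F d v ≤ F d (fun j => v j + w j) + F d fun j => v j + -1 * w j := by
  refine le_of_tendsto_of_tendsto' ((tendsto_F hd hv).const_mul 2)
    ((tendsto_F hd (hv.add hw)).add (tendsto_F hd (hv.add (hw.smul (-1))))) fun n => ?_
  rw [← add_div, ← mul_div_assoc]
  refine div_le_div_of_nonneg_right ?_ n.cast_nonneg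
  have h1 := E_resp hd hv hw n
  have h2 := E_resp hd hv (hw.smul (-1)) n
  simp only [funext (H_mul (-1) _), av_mul, integral_const_mul] at h2
  linarith

lemma var_le (hd : 0 < d) {v : ℕ → ℝ} {C : ℝ} (hC : ∀ j, |v j| ≤ C) (n : ℕ) :
    ∫ η, (LZ n v η - E d n v) ^ 2 ∂PP d ≤ n * (2 * C) ^ 2 := by
  have b0 := bm_LZ hd ⟨C, hC⟩ n
  set g : ℕ → Om d → ℝ := fun k η => ∫ η', LZ n v (pw {p | k < p.1} (η, η')) ∂PP d with hg
  have bg : ∀ k, BM (g k) := fun k =>
    ⟨(b0.1.comp (meas_pw _)).stronglyMeasurable.integral_prod_right'.measurable, _,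
      fun η => abs_int fun _ => abs_LZ hd hC n _⟩
  have inv : ∀ k m, k ≤ m → ∀ x, g k (pw {p | m < p.1} x) = g k x.1 := fun k m hk x => by
    simp only [hg]
    congr! 3 with η'
    ext p
    by_cases h : k < p.1
    · rw [pw_mem (S := {p | k < p.1}) h, pw_mem (S := {p | k < p.1}) h]
    · rw [pw_not (S := {p | k < p.1}) h, pw_not (S := {p | k < p.1}) h]
      exact pw_not (S := {p | m < p.1}) (fun h' => h (hk.trans_lt h')) _
  have ort : ∀ k m, k ≤ m → ∫ η, g m η * g k η ∂PP d = ∫ η, LZ n v η * g k η ∂PP d := by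
    intro k m hk
    rw [← int_mp (mp_pw {p | m < p.1}) (b0.mul (bg k)).1,
      integral_prod _ (((b0.mul (bg k)).comp (meas_pw _)).int _)]
    simp only [inv k m hk, integral_mul_const]
    rfl
  have dif : ∀ k η, |g (k + 1) η - g k η| ≤ 2 * C := fun k η => by
    simp only [hg]
    rw [← integral_sub ((b0.comp ((meas_pw _).fun_comp measurable_prodMk_left)).int _)
      ((b0.comp ((meas_pw _).fun_comp measurable_prodMk_left)).int _)]
    refine abs_int fun η' => ?_
    have key : ∀ a b : Om d, (∀ p : Site d, p.1 ≠ k + 1 → a p = b p) →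
        LZ n v a ≤ LZ n v b + 2 * C := fun a b hab => logZ_le hd n fun l _ => by
      have h0 : 0 ≤ C := (abs_nonneg _).trans (hC 0)
      have h1 : H (fun p : Site d => if p.1 = k + 1 then 2 * C else 0) l ≤ 2 * C := by
        simp only [H, site, add_left_inj, sum_ite_eq']
        split_ifs <;> linarith
      refine le_trans ?_ (add_le_add_right h1 _)
      rw [← H_add]
      refine H_mono (fun p => ?_) l
      split_ifs with h
      · linarith [abs_le.1 (hC (a p)), abs_le.1 (hC (b p))]
      · rw [hab p h, add_zero]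
    have e : ∀ p : Site d, p.1 ≠ k + 1 →
        pw {p | k + 1 < p.1} (η, η') p = pw {p | k < p.1} (η, η') p := fun p hp => by
      by_cases h : k < p.1
      · rw [pw_mem (S := {p | k < p.1}) h, pw_mem (show k + 1 < p.1 by omega)]
      · rw [pw_not (S := {p | k < p.1}) h, pw_not (show ¬ k + 1 < p.1 by omega)]
    rw [abs_le]
    constructor <;> linarith [key _ _ e, key _ _ fun p hp => (e p hp).symm]
  have ind : ∀ k : ℕ, ∫ η, g k η * g k η ∂PP d ≤ ∫ η, g 0 η * g 0 η ∂PP d + k * (2 * C) ^ 2 := by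
    intro k
    induction k with
    | zero => simp
    | succ k ih =>
      have h1 : ∫ η, (g (k + 1) η * g (k + 1) η - 2 * (g (k + 1) η * g k η) + g k η * g k η) ∂PP d
          ≤ (2 * C) ^ 2 := (le_abs_self _).trans (abs_int fun η => by
            rw [show g (k + 1) η * g (k + 1) η - 2 * (g (k + 1) η * g k η) + g k η * g k η =
              (g (k + 1) η - g k η) ^ 2 by ring, abs_pow]
            exact pow_le_pow_left₀ (abs_nonneg _) (dif k η) 2)
      rw [integral_add ((((bg _).mul (bg _)).sub ((BM.const 2).mul ((bg _).mul (bg _)))).int _)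
        (((bg _).mul (bg _)).int _), integral_sub (((bg _).mul (bg _)).int _)
        (((BM.const 2).mul ((bg _).mul (bg _))).int _), integral_const_mul,
        ort k (k + 1) k.le_succ, ← ort k k le_rfl] at h1
      push_cast
      linarith
  have g0 : ∀ η, g 0 η = E d n v := fun η => by
    simp only [hg, E, LZ]
    congr! 3 with η'
    exact Z_congr fun p hp _ => by rw [pw_mem (show 0 < p.1 from hp)]
  have gn : ∀ η, g n η = LZ n v η := fun η => by
    have : ∀ η', LZ n v (pw {p | n < p.1} (η, η')) = LZ n v η := fun η' => by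
      rw [LZ, Z_congr fun p _ hp => by rw [pw_not (show ¬ n < p.1 by omega)]]
      rfl
    simp [hg, this]
  have := ind n
  simp only [g0, gn] at this
  have e : ∀ η : Om d, (LZ n v η - E d n v) ^ 2 =
    LZ n v η * LZ n v η - 2 * E d n v * LZ n v η + E d n v * E d n v := fun η => by ring
  simp only [e]
  rw [integral_add (((b0.mul b0).sub ((BM.const _).mul b0)).int _) (integrable_const _),
    integral_sub ((b0.mul b0).int _) (((BM.const _).mul b0).int _), integral_const_mul]
  simp only [integral_const, probReal_univ, smul_eq_mul, one_mul] at this ⊢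
  change _ - _ * E d n v + _ ≤ _
  linarith

lemma LZ_step (hd : 0 < d) {v : ℕ → ℝ} {C : ℝ} (hC : ∀ j, |v j| ≤ C) (a b : ℕ) (η : Om d) :
    |LZ (a + b) v η - LZ a v η| ≤ b * (C + |log (2 * d)|) := by
  set c := b * (C + |log (2 * d)|)
  have h : ∀ l : List (St d), exp (-c) ≤ Z b (sh a (disp l) fun p => v (η p)) ∧
      Z b (sh a (disp l) fun p => v (η p)) ≤ exp c := fun l => by
    have := abs_le.1 (abs_LZ hd hC b (sh a (disp l) η))
    exact ⟨(le_log_iff_exp_le (Z_pos hd _ _)).1 this.1, (log_le_iff_le_exp (Z_pos hd _ _)).1 this.2⟩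
  have hZ := Z_pos hd a fun p => v (η p)
  rw [abs_le, le_sub_iff_add_le', sub_le_iff_le_add', LZ, LZ, ← log_exp (-c), ← log_exp c,
    ← log_mul hZ.ne' (exp_pos _).ne', ← log_mul hZ.ne' (exp_pos _).ne', log_exp]
  refine ⟨log_le_log (by positivity) ?_, log_le_log (Z_pos hd _ _) ?_⟩ <;> rw [Z_add, Z, sum_mul]
  · exact sum_le_sum fun l _ => mul_le_mul_of_nonneg_left (h l).1 (exp_pos _).le
  · exact sum_le_sum fun l _ => mul_le_mul_of_nonneg_left (h l).2 (exp_pos _).le

lemma ae_tendsto (hd : 0 < d) {v : ℕ → ℝ} (hv : Bd v) :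
    ∀ᵐ η ∂PP d, Tendsto (fun n : ℕ => LZ n v η / n) atTop (𝓝 (F d v)) := by
  obtain ⟨C, hC⟩ := id hv
  set X : ℕ → Om d → ℝ := fun k η => (LZ (k ^ 2) v η - E d (k ^ 2) v) / (k : ℝ) ^ 2 with hX
  have bX : ∀ k, BM fun η => X k η ^ 2 := fun k => by
    have := ((bm_LZ hd hv (k ^ 2)).sub (BM.const (E d (k ^ 2) v))).mul (BM.const ((k : ℝ) ^ 2)⁻¹)
    simpa only [hX, ← sq, div_eq_mul_inv] using this.mul this
  have hs : Summable fun k => ∫ η, ‖X k η ^ 2‖ ∂PP d := by
    refine .of_nonneg_of_le (fun k => integral_nonneg fun _ => norm_nonneg _) (fun k => ?_)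
      ((summable_one_div_nat_pow.2 one_lt_two).mul_left ((2 * C) ^ 2))
    simp only [Real.norm_eq_abs, abs_sq]
    simp only [hX, div_pow, integral_div]
    rcases k.eq_zero_or_pos with rfl | hk
    · simp
    · rw [div_le_iff₀ (by positivity)]
      refine (var_le hd hC _).trans_eq ?_
      push_cast
      field_simp
  have h1 : ∀ᵐ η ∂PP d, Summable fun k => ‖X k η ^ 2‖ := by
    have h2 : ∫⁻ η, ∑' k, ‖X k η ^ 2‖ₑ ∂PP d ≠ ⊤ := by
      rw [lintegral_tsum fun k => (bX k).1.enorm.aemeasurable]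
      simp only [fun k => (ofReal_integral_norm_eq_lintegral_enorm ((bX k).int (PP d))).symm]
      rw [← ENNReal.ofReal_tsum_of_nonneg (fun k => integral_nonneg fun _ => norm_nonneg _) hs]
      exact ENNReal.ofReal_ne_top
    filter_upwards [ae_lt_top (Measurable.tsum fun k => (bX k).1.enorm) h2] with η hη
    exact tsum_enorm_ne_top_iff_summable_norm.1 hη.ne
  filter_upwards [h1] with η hη
  have h3 : Tendsto (fun k => |X k η|) atTop (𝓝 0) := by
    simpa [sqrt_sq_eq_abs] using hη.tendsto_atTop_zero.sqrt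
  have hq : Tendsto Nat.sqrt atTop atTop :=
    tendsto_atTop.2 fun b => eventually_atTop.2 ⟨b * b, fun n hn => Nat.le_sqrt.2 hn⟩
  set c := C + |log (2 * d)|
  have c0 : 0 ≤ c := add_nonneg ((abs_nonneg _).trans (hC 0)) (abs_nonneg _)
  have h4 := (h3.add (tendsto_const_div_atTop_nhds_zero_nat (4 * c))).comp hq
  have h5 : Tendsto (fun n : ℕ => (LZ n v η - E d n v) / n) atTop (𝓝 0) := by
    refine squeeze_zero_norm' ?_ (by simpa using h4)
    filter_upwards [eventually_ge_atTop 1] with n hn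
    set k := n.sqrt
    have k1 : (1 : ℝ) ≤ k := by exact_mod_cast Nat.le_sqrt.2 hn
    obtain ⟨b, hb⟩ := Nat.exists_eq_add_of_le (Nat.sqrt_le' n)
    have hb2 : (b : ℝ) ≤ 2 * k := by
      have := Nat.lt_succ_sqrt' n
      exact_mod_cast (by nlinarith : b ≤ 2 * k)
    have e1 := LZ_step hd hC (k ^ 2) b η
    have e2 := abs_int (LZ_step hd hC (k ^ 2) b)
    rw [integral_sub ((bm_LZ hd hv _).int _) ((bm_LZ hd hv _).int _), ← hb] at e2
    rw [← hb] at e1
    have hn' : (k : ℝ) ^ 2 ≤ n := by exact_mod_cast Nat.sqrt_le' n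
    simp only [Function.comp, hX, Real.norm_eq_abs, abs_div, Nat.abs_cast, abs_sq]
    refine (div_le_div_of_nonneg_left (abs_nonneg _) (by positivity) hn').trans ?_
    rw [show 4 * c / k = 4 * c * k / k ^ 2 by field_simp, ← add_div]
    refine div_le_div_of_nonneg_right ?_ (by positivity)
    have e3 := mul_le_mul_of_nonneg_right hb2 c0
    rw [abs_le] at *
    simp only [E] at *
    constructor <;> linarith [le_abs_self (LZ (k ^ 2) v η - ∫ η, LZ (k ^ 2) v η ∂PP d),
      neg_abs_le (LZ (k ^ 2) v η - ∫ η, LZ (k ^ 2) v η ∂PP d)]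
  simpa [← add_div] using h5.add (tendsto_F hd hv)

end Pool.Agent.MP_050e69_pr

end MrgPart2

-- ======== part 3: formerly Pool.Agent.MP_050e69_pr.Frac
section MrgPart3

set_option autoImplicit false

open Finset Real MeasureTheory Filter Topology

namespace Pool.Agent.MP_050e69_pr

variable {d : ℕ}

def turnAt (w : List (St d)) : Prop := w[0]? ≠ w[1]?

instance (w : List (St d)) : Decidable (turnAt w) := by
  unfold turnAt
  infer_instance

noncomputable def turns (l : List (St d)) : ℝ :=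
  ∑ t ∈ range (l.length - 1), if turnAt (l.drop t) then 1 else 0

lemma turns_cons (s s' : St d) (l : List (St d)) :
    turns (s :: s' :: l) = turns (s' :: l) + if s' = s then 0 else 1 := by
  simp only [turns, List.length_cons, Nat.add_sub_cancel, sum_range_succ', List.drop_succ_cons]
  congr 1
  by_cases h : s = s' <;> simp [turnAt, h, eq_comm (a := s')]

lemma sum_turns {c : ℝ} (n : ℕ) (s : St d) :
    ∑ l ∈ P d n, exp (-c * turns (s :: l)) ≤ (1 + 2 * d * exp (-c)) ^ n := by
  induction n generalizing s with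
  | zero => simp [P, turns]
  | succ n ih =>
    rw [sum_P_succ, pow_succ]
    calc _ ≤ ∑ s' : St d, (1 + 2 * d * exp (-c)) ^ n * ((if s' = s then 1 else 0) + exp (-c)) := by
          refine sum_le_sum fun s' _ => ?_
          simp only [turns_cons, mul_add (-c), exp_add, ← sum_mul]
          refine mul_le_mul (ih s') ?_ (exp_pos _).le (by positivity)
          split_ifs <;> simp [(exp_pos _).le]
      _ = _ := by
        rw [← mul_sum, sum_add_distrib]
        simp [mul_comm]

lemma sum_turns' (hd : 0 < d) {c : ℝ} (n : ℕ) :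
    ∑ l ∈ P d n, exp (-c * turns l) ≤ 2 * d * (1 + 2 * d * exp (-c)) ^ n := by
  have h1 : (1 : ℝ) ≤ d := by exact_mod_cast hd
  rcases n with _ | n
  · simp only [P, turns, sum_map]
    simp
    linarith
  · rw [sum_P_succ]
    refine (sum_le_card_nsmul _ _ _ fun s _ => (sum_turns n s).trans
      (pow_le_pow_right₀ (le_add_of_nonneg_right (by positivity)) n.le_succ)).trans_eq ?_
    simp [mul_comm]

lemma int_expH {w : ℕ → ℝ} (hw : Bd w) (l : List (St d)) :
    ∫ η, exp (H (fun p => w (η p)) l) ∂PP d = (∫ j, exp (w j) ∂ν) ^ l.length := by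
  unfold H
  induction l.length with
  | zero => simp
  | succ k ih =>
    simp only [sum_range_succ, exp_add]
    rw [indep {site l k} (BM.sum _ fun _ _ => hw.bm _).exp.1 (hw.bm _).exp.1, ih, pow_succ,
      int_site _ fun j => exp (w j)]
    · intro x
      congr 1
      refine sum_congr rfl fun i hi => ?_
      rw [pw_not (S := {site l k}) fun h => (mem_range.1 hi).ne (site_inj l h)]
    · intro x
      rw [pw_mem (Set.mem_singleton _)]

lemma mgf_le {w : ℕ → ℝ} (hw : Bd w) {J : ℕ} {a : ℝ} (h : ∀ j ≠ J, w j ≤ a) :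
    ∫ j, exp (w j) ∂ν ≤ exp a + exp (w J) * q J := by
  have b : BM fun i : ℕ => if i = J then (1 : ℝ) else 0 := BM.ite .of_discrete (.const _) (.const _)
  rw [← int_ind, ← integral_const_mul]
  refine (integral_mono ((BM.exp ⟨.of_discrete, hw⟩).int _) (((BM.const (exp a)).add
    ((BM.const (exp (w J))).mul b)).int _) fun j => ?_).trans_eq ?_
  · beta_reduce
    split_ifs with e
    · simp [e, (exp_pos _).le]
    · simpa using h j e
  · rw [integral_add (integrable_const _) (((BM.const _).mul b).int _)]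
    simp

lemma le_mgf {w : ℕ → ℝ} (hw : Bd w) (J : ℕ) : exp (w J) * q J ≤ ∫ j, exp (w j) ∂ν := by
  have b : BM fun i : ℕ => if i = J then (1 : ℝ) else 0 := BM.ite .of_discrete (.const _) (.const _)
  rw [← int_ind, ← integral_const_mul]
  refine integral_mono (((BM.const _).mul b).int _) ((BM.exp ⟨.of_discrete, hw⟩).int _) fun j => ?_
  beta_reduce
  split_ifs with e
  · simp [e]
  · simp [(exp_pos _).le]

lemma log_sum_le {ι : Type} {s : Finset ι} (hs : s.Nonempty) (h : ι → ℝ) {a : ℝ} (a0 : 0 < a)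
    (a1 : a ≤ 1) : a * log (∑ i ∈ s, exp (h i)) ≤ log (∑ i ∈ s, exp (a * h i)) := by
  set Y := ∑ i ∈ s, exp (a * h i)
  have Y0 : 0 < Y := sum_pos (fun _ _ => exp_pos _) hs
  rw [← le_div_iff₀' a0, log_le_iff_le_exp (sum_pos (fun _ _ => exp_pos _) hs),
    show log Y / a = log Y + (1 - a) * (log Y / a) by field_simp; ring, exp_add, exp_log Y0, sum_mul]
  refine sum_le_sum fun i hi => ?_
  rw [← exp_add, exp_le_exp]
  have : h i ≤ log Y / a := by
    rw [le_div_iff₀' a0, le_log_iff_exp_le Y0]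
    exact single_le_sum (f := fun i => exp (a * h i)) (fun _ _ => (exp_pos _).le) hi
  nlinarith

lemma bm_logS (hd : 0 < d) {w : ℕ → ℝ} (hw : Bd w) (n : ℕ) (g : List (St d) → ℝ) :
    BM fun η : Om d => log (∑ l ∈ P d n, exp (H (fun p => w (η p)) l + g l)) := by
  have b : ∀ l, BM fun η : Om d => H (fun p => w (η p)) l + g l :=
    fun l => (bm_H hw.bm l).add (.const _)
  refine ⟨(BM.sum _ fun l _ => (b l).exp).1.log, ?_⟩
  choose C hC using fun l => (b l).2
  set c := ∑ l ∈ P d n, |C l|
  have hc : ∀ η : Om d, ∀ l ∈ P d n, |H (fun p => w (η p)) l + g l| ≤ c := fun η l hl => (hC l η).trans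
    ((le_abs_self _).trans (single_le_sum (f := fun l => |C l|) (fun _ _ => abs_nonneg _) hl))
  obtain ⟨l, hl⟩ := P_nonempty hd n
  refine ⟨c + (P d n).card, fun η => abs_le.2 ⟨?_, ?_⟩⟩
  · rw [le_log_iff_exp_le (sum_pos (fun _ _ => exp_pos _) ⟨l, hl⟩)]
    refine le_trans (exp_le_exp.2 ?_) (single_le_sum (fun _ _ => (exp_pos _).le) hl)
    linarith [abs_le.1 (hc η l hl), (P d n).card.cast_nonneg (α := ℝ)]
  · rw [log_le_iff_le_exp (sum_pos (fun _ _ => exp_pos _) ⟨l, hl⟩), exp_add]
    refine (sum_le_card_nsmul _ _ _ fun l hl => exp_le_exp.2 (abs_le.1 (hc η l hl)).2).trans ?_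
    rw [nsmul_eq_mul, mul_comm]
    exact mul_le_mul_of_nonneg_left (by linarith [add_one_le_exp ((P d n).card : ℝ)]) (exp_pos _).le

/-- Fractional moment bound. -/
lemma frac (hd : 0 < d) {w : ℕ → ℝ} (hw : Bd w) (n : ℕ) {a θ m : ℝ} (a0 : 0 < a) (a1 : a ≤ 1)
    (hm : ∫ j, exp (a * w j) ∂ν ≤ exp m) :
    a * ∫ η, log (∑ l ∈ P d n, exp (H (fun p => w (η p)) l + -θ * turns l)) ∂PP d ≤
      log (2 * d) + n * (m + 2 * d * exp (-(a * θ))) := by
  have d0 : (0 : ℝ) < d := by exact_mod_cast hd
  set C := exp (log (2 * d) + n * (m + 2 * d * exp (-(a * θ)))) with hC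
  have C0 : 0 < C := exp_pos _
  have b : ∀ l : List (St d), BM fun η : Om d =>
      exp (H (fun p => a * w (η p)) l) * exp (-(a * θ) * turns l) :=
    fun l => (bm_H (hw.smul a).bm l).exp.mul (.const _)
  have b2 := (BM.sum (P d n) fun l _ => b l).mul (BM.const C⁻¹)
  have h1 : ∫ η, (∑ l ∈ P d n, exp (H (fun p => a * w (η p)) l) * exp (-(a * θ) * turns l)) * C⁻¹
      ∂PP d ≤ 1 := by
    rw [integral_mul_const, integral_finsetSum _ fun l _ => (b l).int _, mul_inv_le_iff₀ C0]
    simp only [integral_mul_const, int_expH (hw.smul a)]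
    calc _ ≤ ∑ l ∈ P d n, exp m ^ n * exp (-(a * θ) * turns l) := sum_le_sum fun l hl => by
          rw [mem_P.1 hl]
          exact mul_le_mul_of_nonneg_right (pow_le_pow_left₀
            (integral_nonneg fun _ => (exp_pos _).le) hm _) (exp_pos _).le
      _ ≤ exp m ^ n * (2 * d * exp (2 * d * exp (-(a * θ))) ^ n) := by
          rw [← mul_sum]
          refine mul_le_mul_of_nonneg_left ((sum_turns' hd n).trans ?_) (by positivity)
          gcongr
          linarith [add_one_le_exp (2 * d * exp (-(a * θ)))]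
      _ = _ := by
          rw [hC, exp_add, exp_log (by positivity), exp_nat_mul, exp_add, mul_pow]
          ring
  rw [← integral_const_mul, ← log_exp (_ + _), ← hC]
  refine (integral_mono (((BM.const a).mul (bm_logS hd hw n _)).int _)
    ((b2.add (BM.const (log C - 1))).int _) fun η => ?_).trans ?_
  · refine (log_sum_le (P_nonempty hd n) _ a0 a1).trans ?_
    simp only [H_mul, ← exp_add, mul_add, neg_mul, mul_neg, mul_assoc]
    have S0 := sum_pos (s := P d n) (fun l _ => exp_pos
      (a * H (fun p => w (η p)) l + -(a * (θ * turns l)))) (P_nonempty hd n)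
    have := log_le_sub_one_of_pos (mul_pos S0 (inv_pos.2 C0))
    rw [log_mul S0.ne' (inv_pos.2 C0).ne', log_inv] at this
    linarith
  · rw [integral_add (b2.int _) (integrable_const _)]
    simp only [integral_const, probReal_univ, smul_eq_mul, one_mul]
    linarith

/-- The hypotheses on the value function. -/
structure Val (J : ℕ) (D β : ℝ) (v : ℕ → ℝ) : Prop where
  nn : ∀ j, 0 ≤ v j
  le : ∀ j ≠ J, v j ≤ β / 10
  top : v J = β * D
  zero : v 0 = 0
  hq : q J = exp (-(D / 100))
  hD : 2000 ≤ D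
  hβ : 1 ≤ β

lemma Val.bd {J : ℕ} {D β : ℝ} {v : ℕ → ℝ} (h : Val J D β v) : Bd v :=
  ⟨max (β / 10) (v J), fun j => (abs_of_nonneg (h.nn j)).trans_le (by
    by_cases e : j = J
    exacts [e ▸ le_max_right _ _, (h.le j e).trans (le_max_left _ _)])⟩

lemma F_lt (hd : 0 < d) {J : ℕ} {D β : ℝ} {v : ℕ → ℝ} (h : Val J D β v) (hD : 2000 * d ≤ D) :
    F d v < log (∫ j, exp (v j) ∂ν) := by
  have hβ := h.hβ
  have h0 := h.hD
  have d1 : (1 : ℝ) ≤ d := by exact_mod_cast hd
  have h1 : β * D - D / 100 ≤ log (∫ j, exp (v j) ∂ν) := by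
    have := le_mgf h.bd J
    rw [h.hq, h.top, ← exp_add] at this
    exact (le_log_iff_exp_le ((exp_pos _).trans_le this)).2 this
  refine lt_of_le_of_lt (b := 100 * β * (1 + 3 * d)) ?_ (by nlinarith)
  refine le_of_tendsto (tendsto_F hd h.bd) ?_
  filter_upwards [eventually_ge_atTop 1] with n hn
  have n1 : (1 : ℝ) ≤ n := by exact_mod_cast hn
  have a0 : 0 < (100 * β)⁻¹ := by positivity
  have hm : ∫ j, exp ((100 * β)⁻¹ * v j) ∂ν ≤ exp 1 := by
    refine (mgf_le (h.bd.smul _) (J := J) (a := 1 / 1000) fun j hj => ?_).trans ?_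
    · rw [inv_mul_le_iff₀ (by positivity)]
      linarith [h.le j hj]
    · rw [h.hq, h.top, ← exp_add, show (100 * β)⁻¹ * (β * D) + -(D / 100) = 0 by field_simp; ring]
      have := exp_bound' (x := 1 / 1000) (by norm_num) (by norm_num) (n := 1) one_pos
      norm_num at this ⊢
      linarith [exp_one_gt_d9]
  have := frac hd h.bd n (θ := 0) a0 (inv_le_one_of_one_le₀ (by linarith)) hm
  simp only [neg_zero, zero_mul, add_zero, mul_zero, exp_zero, mul_one] at this
  rw [inv_mul_le_iff₀ (by positivity)] at this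
  rw [div_le_iff₀ (by positivity)]
  refine this.trans ?_
  have h2 : log (2 * d) ≤ d * n := by
    have := log_le_sub_one_of_pos (show 0 < (2 : ℝ) * d / 2 by positivity)
    rw [log_div (by positivity) two_ne_zero] at this
    nlinarith [log_two_lt_d9]
  nlinarith

def ind (J : ℕ) (j : ℕ) : ℝ := if j = J then 1 else 0

lemma bd_ind (J : ℕ) : Bd (ind J) := ⟨1, fun j => by unfold ind; split_ifs <;> simp⟩

lemma ind_nn (J j : ℕ) : 0 ≤ ind J j := by
  unfold ind
  positivity

noncomputable def th (d : ℕ) : ℝ := 1000 * log (20000 * d)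

/-- Many turns, few visits of high sites. -/
lemma turn_lower (hd : 2 ≤ d) {J : ℕ} {D β : ℝ} {v : ℕ → ℝ} (h : Val J D β v) (β2 : β ≤ 2)
    (n : ℕ) : n / 2 - 1000 * log (2 * d) ≤
      th d * ∫ η, av n (fun p => v (η p)) turns ∂PP d -
        D * ∫ η, av n (fun p => v (η p)) (H fun p => ind J (η p)) ∂PP d := by
  have d0 : 0 < d := by omega
  have d2 : (2 : ℝ) ≤ d := by exact_mod_cast hd
  have h0 := h.hD
  have bw := h.bd.add ((bd_ind J).smul D)
  have hm : ∫ j, exp (1 / 1000 * (v j + D * ind J j)) ∂ν ≤ exp (3 / 10000) := by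
    refine (mgf_le (bw.smul _) (J := J) (a := 2 / 10000) fun j hj => ?_).trans ?_
    · simp only [ind, if_neg hj]
      linarith [h.le j hj]
    · rw [h.hq, h.top, ← exp_add, show (3 : ℝ) / 10000 = 2 / 10000 + 1 / 10000 by norm_num,
        exp_add (2 / 10000)]
      have e1 : exp (1 / 1000 * (β * D + D * ind J J) + -(D / 100)) ≤ exp (-14) := by
        simp only [ind, if_true, exp_le_exp]
        nlinarith
      have e2 : exp (-14) ≤ 1 / 10000 := by
        rw [exp_neg, inv_le_comm₀ (exp_pos _) (by norm_num),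
          show (14 : ℝ) = (14 : ℕ) * 1 by norm_num, exp_nat_mul]
        exact le_trans (by norm_num) (pow_le_pow_left₀ zero_le_two (by linarith [exp_one_gt_d9]) 14)
      nlinarith [add_one_le_exp (1 / 10000 : ℝ), add_one_le_exp (2 / 10000 : ℝ)]
  have h1 := frac d0 bw n (θ := th d) (by norm_num) (by norm_num) hm
  rw [show 1 / 1000 * th d = log (20000 * d) by rw [th]; ring, exp_neg, exp_log (by positivity),
    show 2 * d * (20000 * d : ℝ)⁻¹ = 1 / 10000 by field_simp; norm_num] at h1
  have b1 := bm_av d0 h.bd.bm n (g := fun _ => turns) fun l => BM.const _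
  have b2 := bm_av d0 h.bd.bm n (bm_H (bd_ind J).bm)
  have h2 := integral_mono (((BM.const (n : ℝ)).add (((BM.const D).mul b2).sub
    ((BM.const (th d)).mul b1))).int (PP d)) ((bm_logS d0 bw n fun l => -th d * turns l).int _)
    fun η => by
      have e := jensen d0 n (fun p => v (η p))
        fun l => D * H (fun p => ind J (η p)) l + -th d * turns l
      have e2 := logZ_lip d0 (h := fun _ => 0) (c := 0) n fun p => by simpa using h.nn (η p)
      have e3 : 1 ≤ log (2 * d) := by
        rw [le_log_iff_exp_le (by positivity)]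
        linarith [exp_one_lt_d9]
      rw [logZ_zero] at e2
      simp only [av_add, av_mul, ← add_assoc] at e
      simp only [H_add, H_mul]
      nlinarith [n.cast_nonneg (α := ℝ)]
  rw [integral_add (integrable_const _) ((((BM.const D).mul b2).sub
    ((BM.const (th d)).mul b1)).int _), integral_sub (((BM.const D).mul b2).int _)
    (((BM.const _).mul b1).int _), integral_const_mul, integral_const_mul] at h2
  simp only [integral_const, probReal_univ, smul_eq_mul, one_mul] at h2
  linarith [n.cast_nonneg (α := ℝ)]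

end Pool.Agent.MP_050e69_pr

end MrgPart3

-- marker of a merged file
example : 731051 + 346192 = 731051 + 346192 := rfl
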