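import Mathlib.Tactic.Monotonicity.Lemmas
import Mathlib.Analysis.Complex.AbsMax
import Mathlib.Combinatorics.SimpleGraph.Basic
import Mathlib.Analysis.SpecialFunctions.Complex.LogBounds
import Mathlib.Analysis.Real.Pi.Bounds
import Mathlib.MeasureTheory.Order.Group.Lattice
import Pool.Agent.MP_050e69_pr.Frac

-- ======== part 0: formerly Pool.Agent.MP_050e69_pr.Loc
section MrgPart0

set_option autoImplicit false

open Finset Real MeasureTheory

namespace Pool.Agent.MP_050e69_pr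

variable {d : ℕ}

def seg (t R : ℕ) (l : List (St d)) : List (St d) := (l.drop t).take R

lemma seg_length {l : List (St d)} {t R : ℕ} (h : t + R ≤ l.length) : (seg t R l).length = R := by
  simp only [seg, List.length_take, List.length_drop]
  omega

lemma H_seg (g : Site d → ℝ) {l : List (St d)} {t R : ℕ} (h : t + R ≤ l.length) :
    H (sh t (disp (l.take t)) g) (seg t R l) = ∑ i ∈ range R, g (site l (t + i)) := by
  rw [H, seg_length h]
  refine sum_congr rfl fun i hi => ?_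
  have := mem_range.1 hi
  simp only [sh, site, seg, List.take_take, add_assoc, List.take_add (i := t), disp_append]
  rw [min_eq_left (by omega)]

lemma path_ineq {g X : Site d → ℝ} (g0 : ∀ p, 0 ≤ g p) (X0 : ∀ p, 0 ≤ X p) {R : ℕ} (hR : 0 < R)
    {ε : ℝ} (hε : 0 < ε) (l : List (St d))
    (hX : ∀ p, vis l p → p.1 + R ≤ l.length → turnAt (l.drop p.1) →
      H (sh p.1 p.2 g) (seg p.1 R l) ≤ ε * R → 1 ≤ X p) :
    turns l ≤ 1 + R + H X l + ε⁻¹ * H g l := by
  set n := l.length with hn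
  have R0 : (0 : ℝ) < R := by exact_mod_cast hR
  have h1 : turns l ≤ 1 + ∑ k ∈ range n, if turnAt (l.drop (k + 1)) then (1 : ℝ) else 0 := by
    refine (sum_le_sum_of_subset_of_nonneg (range_subset_range.2 (show n - 1 ≤ n + 1 by omega))
      fun _ _ _ => by positivity).trans ?_
    rw [sum_range_succ', add_comm]
    gcongr
    split_ifs <;> norm_num
  have h2 : ∀ k ∈ range n, (if turnAt (l.drop (k + 1)) then (1 : ℝ) else 0) ≤
      (if k ∈ Ico (n - R) n then 1 else 0) + X (site l k) + (ε * R)⁻¹ *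
        ∑ i ∈ range R, if k + 1 + i < n then g (site l (k + 1 + i)) else 0 := by
    intro k hk
    have a1 := X0 (site l k)
    have a2 : 0 ≤ (ε * R)⁻¹ *
        ∑ i ∈ range R, if k + 1 + i < n then g (site l (k + 1 + i)) else 0 :=
      mul_nonneg (by positivity) (sum_nonneg fun _ _ => by split_ifs; exacts [g0 _, le_rfl])
    have hk' := mem_range.1 hk
    split_ifs with t1 t2 t2 <;> try linarith
    have hkR : k + 1 + R ≤ n := by
      rw [mem_Ico] at t2
      omega
    rw [sum_congr rfl fun i hi => if_pos (show k + 1 + i < n by have := mem_range.1 hi; omega),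
      ← H_seg g hkR] at a2 ⊢
    rcases le_total (H (sh (k + 1) (disp (l.take (k + 1))) g) (seg (k + 1) R l)) (ε * R) with h | h
    · linarith [hX _ (vis_iff.2 ⟨k, hk, rfl⟩) hkR t1 h]
    · rw [← one_le_inv_mul₀ (by positivity)] at h
      linarith
  have h3 : ∀ i ∈ range R, ∑ k ∈ range n,
      (if k + 1 + i < n then g (site l (k + 1 + i)) else 0) ≤ H g l := by
    intro i _
    rw [← sum_filter, ← sum_image (s := (range n).filter _) (g := fun k => k + 1 + i)
      (f := fun k => g (site l k)) fun a _ b _ h => by simpa using h]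
    refine sum_le_sum_of_subset_of_nonneg (fun k hk => ?_) fun _ _ _ => g0 _
    obtain ⟨a, ha, rfl⟩ := mem_image.1 hk
    exact mem_range.2 (mem_filter.1 ha).2
  have h4 := sum_le_sum h2
  rw [sum_add_distrib, sum_add_distrib, ← mul_sum, sum_comm] at h4
  have h5 := mul_le_mul_of_nonneg_left (sum_le_card_nsmul _ _ _ h3)
    (show 0 ≤ (ε * R)⁻¹ by positivity)
  rw [card_range, nsmul_eq_mul, show (ε * R)⁻¹ * (R * H g l) = ε⁻¹ * H g l by field_simp] at h5
  have h6 : ∑ k ∈ range n, (if k ∈ Ico (n - R) n then (1 : ℝ) else 0) ≤ R := by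
    rw [sum_boole, Nat.cast_le]
    refine (card_le_card (t := Ico (n - R) n) fun k hk => (mem_filter.1 hk).2).trans ?_
    rw [Nat.card_Ico]
    omega
  rw [H, ← hn]
  linarith

lemma kap_le {a A B : ℝ} (ha : 1 ≤ a) (hA : 0 ≤ A) (hB : 0 ≤ B) (h : 0 < A + B) :
    A / (A + B) ≤ a * A / (a * A + B) := by
  rw [div_le_div_iff₀ h (by nlinarith)]
  nlinarith [mul_nonneg hA hB]

lemma sum_vis (hd : 0 < d) (n : ℕ) (h : Site d → ℝ) :
    ∑ p ∈ box d n, (av n h fun l => if vis l p then 1 else 0) = n := by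
  have := av_H n h fun _ => 1
  simp only [one_mul] at this
  rw [← this, av_congr h (g := fun _ => n) fun l hl => by rw [H_const, mem_P.1 hl, mul_one],
    av_const hd]

lemma sum_kap (hd : 0 < d) (n : ℕ) {h : Site d → ℝ} (h0 : ∀ p, 0 ≤ h p) :
    ∑ p ∈ box d n, ZA n h p / (ZA n h p + ZB n h p) ≤ n := by
  rw [← sum_vis hd n h]
  refine sum_le_sum fun p _ => ?_
  rw [av_vis]
  exact kap_le (one_le_exp (h0 p)) (ZA_nonneg _ _ _) (ZB_nonneg _ _ _) (AB_pos hd _ _ _)

/-- The response to a change of the value of one type. -/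
lemma int_resp (hd : 0 < d) {v : ℕ → ℝ} (hv : Bd v) (n j : ℕ) :
    ∫ η, av n (fun p => v (η p)) (H fun p => ind j (η p)) ∂PP d = q j * ∑ p ∈ box d n,
      ∫ η, exp (v j) * ZA n (fun p => v (η p)) p /
        (exp (v j) * ZA n (fun p => v (η p)) p + ZB n (fun p => v (η p)) p) ∂PP d := by
  simp only [av_H]
  rw [integral_finsetSum _ fun p _ => (((bd_ind j).bm p).mul
    (bm_av hd hv.bm n (g := fun _ l => if vis l p then 1 else 0) fun _ => BM.const _)).int _,
    mul_sum]
  refine sum_congr rfl fun p _ => ?_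
  rw [mul_comm, ← int_type hv n p j (k := fun A B => exp (v j) * A / (exp (v j) * A + B))
    (by fun_prop)]
  congr 1 with η
  rw [av_vis, ind, mul_comm]
  split_ifs with e <;> simp [e]

lemma bm_kap {v : ℕ → ℝ} (hv : Bd v) (n : ℕ) (p : Site d) (a : ℝ) :
    BM fun η : Om d => exp a * ZA n (fun p => v (η p)) p /
      (exp a * ZA n (fun p => v (η p)) p + ZB n (fun p => v (η p)) p) := by
  refine ⟨((meas_ZA hv.bm n p).const_mul _).div
    (((meas_ZA hv.bm n p).const_mul _).add (meas_ZB hv.bm n p)), 1, fun η => ?_⟩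
  have := ZA_nonneg n (fun p => v (η p)) p
  have h2 := ZB_nonneg n (fun p => v (η p)) p
  rw [abs_of_nonneg (by positivity)]
  exact div_le_one_of_le₀ (by linarith) (by positivity)

open Classical in
/-- The Gibbs probability of a window event. -/
noncomputable def gw (n R : ℕ) (ε : ℝ) (J : ℕ) (v : ℕ → ℝ) (C : List (St d) → Prop) (p : Site d)
    (η : Om d) : ℝ :=
  av n (fun p => v (η p)) fun l => if vis l p ∧ p.1 + R ≤ n ∧ C (seg p.1 R l) ∧
    H (sh p.1 p.2 fun p => ind J (η p)) (seg p.1 R l) ≤ ε * R then 1 else 0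

lemma bm_gw (hd : 0 < d) (n R : ℕ) (ε : ℝ) (J : ℕ) {v : ℕ → ℝ} (hv : Bd v)
    (C : List (St d) → Prop) (p : Site d) : BM (gw n R ε J v C p) := by
  classical
  refine bm_av hd hv.bm n fun l => BM.ite ?_ (.const _) (.const _)
  simp only [Set.ofPred_and]
  refine (MeasurableSet.const _).inter ((MeasurableSet.const _).inter
    ((MeasurableSet.const _).inter (measurableSet_le (bm_H (fun _ => (bd_ind J).bm _) _).1
      measurable_const)))

lemma loc_pt (hd : 0 < d) {J : ℕ} {D β : ℝ} {v : ℕ → ℝ} (h : Val J D β v) (β2 : β ≤ 2)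
    {ι : Type} [Fintype ι] (C : ι → List (St d) → Prop) {R : ℕ} (hR : 2 ≤ R)
    (hC : ∀ w : List (St d), w.length = R → turnAt w → ∃ i, C i w) {ε c : ℝ} (hε : 0 < ε)
    (hc : 0 ≤ c) (n : ℕ) (η : Om d) :
    av n (fun p => v (η p)) turns ≤ 1 + R + Fintype.card ι * (c * (1 + exp (2 * D)) * n) +
      (∑ p ∈ box d n, ∑ i, if c ≤ gw n R ε J v (C i) p η then 1 else 0) +
      q J * (∑ p ∈ box d n, exp (v J) * ZA n (fun p => v (η p)) p /
        (exp (v J) * ZA n (fun p => v (η p)) p + ZB n (fun p => v (η p)) p)) +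
      (1 + ε⁻¹) * av n (fun p => v (η p)) (H fun p => ind J (η p)) := by
  classical
  set f : Site d → ℝ := fun p => v (η p) with hf
  set g : Site d → ℝ := fun p => ind J (η p) with hg
  have hD := h.hD
  have hβ := h.hβ
  let loc : Site d → Prop := fun p => ZB n f p ≤ exp (v J) * ZA n f p
  let G : ι → Site d → List (St d) → ℝ := fun i p l => if vis l p ∧ p.1 + R ≤ n ∧
    C i (seg p.1 R l) ∧ H (sh p.1 p.2 g) (seg p.1 R l) ≤ ε * R then 1 else 0
  have G0 : ∀ i p l, 0 ≤ G i p l := fun i p l => by positivity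
  let b : Site d → ℝ := fun p => if loc p ∨ η p = J then 0 else 1
  have b0 : ∀ p, 0 ≤ b p := fun p => by positivity
  have h1 : ∀ l ∈ P d n, turns l ≤ (1 + R : ℝ) +
      (∑ p ∈ box d n, ∑ i, (if loc p then 1 else 0) * G i p l) + H b l + (1 + ε⁻¹) * H g l := by
    intro l hl
    have X0 : ∀ p, 0 ≤ ∑ i, (if loc p then 1 else 0) * G i p l := fun p =>
      sum_nonneg fun i _ => mul_nonneg (by positivity) (G0 _ _ _)
    have := path_ineq (g := g) (X := fun p => (∑ i, (if loc p then 1 else 0) * G i p l) + b p + g p)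
      (fun p => ind_nn _ _) (fun p => add_nonneg (add_nonneg (X0 p) (b0 p)) (ind_nn _ _))
      (show 0 < R by omega) hε l fun p h1 h2 h3 h4 => by
        obtain ⟨i, hi⟩ := hC _ (seg_length h2) (by
          rwa [turnAt, seg, List.getElem?_take_of_lt (by omega),
            List.getElem?_take_of_lt (by omega)])
        have g0 : 0 ≤ g p := ind_nn _ _
        by_cases e : loc p
        · have := single_le_sum (f := fun i => (if loc p then 1 else 0) * G i p l)
            (fun i _ => mul_nonneg (by positivity) (G0 _ _ _)) (mem_univ i)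
          simp only [G, if_pos e, h1, h4, hi, mem_P.1 hl ▸ h2, and_self, if_true, one_mul] at this
          simp only [G, if_pos e, h1, h4, mem_P.1 hl ▸ h2, one_mul]
          linarith [b0 p]
        · by_cases e2 : η p = J
          · have : g p = 1 := if_pos e2
            linarith [X0 p, b0 p]
          · have : b p = 1 := if_neg (not_or.2 ⟨e, e2⟩)
            linarith [X0 p]
    rw [H_add, H_add, H_eq_box hl fun p => ∑ i, _] at this
    have h2 : (∑ p ∈ box d n, if vis l p then ∑ i, (if loc p then 1 else 0) * G i p l else 0) ≤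
        ∑ p ∈ box d n, ∑ i, (if loc p then 1 else 0) * G i p l :=
      sum_le_sum fun p _ => by
        by_cases e : vis l p
        · rw [if_pos e]
        · rw [if_neg e]
          exact X0 p
    linarith
  have h2 := av_mono f h1
  simp only [av_add, av_mul, av_sum, av_const hd, ← mul_sum] at h2
  have h3 : ∑ p ∈ box d n, (if loc p then (1 : ℝ) else 0) ≤ (1 + exp (2 * D)) * n := by
    refine le_trans (sum_le_sum fun p _ => ?_) ((mul_sum _ _ _).ge.trans
      (mul_le_mul_of_nonneg_left (sum_kap hd n (h := f) fun p => h.nn _) (by positivity)))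
    have a1 := ZA_nonneg n f p
    have a2 := ZB_nonneg n f p
    split_ifs with e
    · rw [← mul_div_assoc, one_le_div (AB_pos hd _ _ _)]
      have : exp (v J) ≤ exp (2 * D) := exp_le_exp.2 (by rw [h.top]; nlinarith)
      nlinarith [show ZB n f p ≤ exp (v J) * ZA n f p from e]
    · positivity
  have h4 : ∑ p ∈ box d n, ∑ i, (if loc p then (1 : ℝ) else 0) * av n f (G i p) ≤
      ∑ p ∈ box d n, ∑ i, ((if c ≤ gw n R ε J v (C i) p η then 1 else 0) +
        c * if loc p then (1 : ℝ) else 0) := by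
    refine sum_le_sum fun p _ => sum_le_sum fun i _ => ?_
    have e1 : av n f (G i p) ≤ 1 := (av_mono f fun l _ => by
      simp only [G]; split_ifs <;> norm_num).trans_eq (av_const hd n f 1)
    have e2 : gw n R ε J v (C i) p η = av n f (G i p) := by
      unfold gw
      congr!
    rw [e2]
    split_ifs <;> linarith
  simp only [sum_add_distrib, sum_const, ← mul_sum, card_univ, nsmul_eq_mul] at h4
  have h5 : av n f (H b) ≤ q J * ∑ p ∈ box d n,
      exp (v J) * ZA n f p / (exp (v J) * ZA n f p + ZB n f p) := by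
    rw [av_H, mul_sum]
    refine sum_le_sum fun p _ => ?_
    have a1 := ZA_nonneg n f p
    have a2 := ZB_nonneg n f p
    have a3 := q_pos J
    simp only [b]
    split_ifs with e
    · rw [zero_mul]
      positivity
    · obtain ⟨e1, e2⟩ := not_or.1 e
      have e3 : exp (v J) * ZA n f p < ZB n f p := not_le.1 e1
      have e4 : 0 < ZB n f p := lt_of_le_of_lt (by positivity) e3
      have e5 : 2 * exp (f p) ≤ q J * exp (v J) := by
        rw [h.hq, h.top, ← exp_add]
        refine le_trans ?_ (exp_le_exp.2 (show 1 + f p ≤ _ by nlinarith [h.le _ e2]))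
        rw [exp_add]
        gcongr
        linarith [add_one_le_exp 1]
      rw [one_mul, av_vis, ← mul_div_assoc, div_le_div_iff₀ (by positivity) (by positivity)]
      have e6 := mul_le_mul_of_nonneg_right e5 (mul_nonneg a1 a2)
      have e7 := mul_le_mul_of_nonneg_left e3.le (mul_nonneg (exp_pos (f p)).le a1)
      have e8 : 0 ≤ q J * (exp (v J) * ZA n f p) * (exp (f p) * ZA n f p) := by positivity
      nlinarith
  have h6 := mul_le_mul_of_nonneg_left (mul_le_mul_of_nonneg_left h3 hc)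
    (Nat.cast_nonneg (α := ℝ) (Fintype.card ι))
  rw [← mul_assoc c] at h6
  linarith

lemma loc (hd : 2 ≤ d) {J : ℕ} {D β : ℝ} {v : ℕ → ℝ} (h : Val J D β v) (β2 : β ≤ 2)
    {ι : Type} [Fintype ι] (C : ι → List (St d) → Prop) {R : ℕ} (hR : 2 ≤ R)
    (hC : ∀ w : List (St d), w.length = R → turnAt w → ∃ i, C i w) {ε c : ℝ} (hε : 0 < ε)
    (hc : 0 ≤ c) (hD : th d * (2 + ε⁻¹) ≤ D) (n : ℕ) :
    n / 2 - 1000 * log (2 * d) ≤ th d * (1 + R + Fintype.card ι * (c * (1 + exp (2 * D)) * n) +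
      ∑ p ∈ box d n, ∑ i, ∫ η, (if c ≤ gw n R ε J v (C i) p η then 1 else 0) ∂PP d) := by
  have d0 : 0 < d := by omega
  have d2 : (2 : ℝ) ≤ d := by exact_mod_cast hd
  have t0 : 0 ≤ th d := mul_nonneg (by norm_num) (log_nonneg (by linarith))
  have b1 := bm_av d0 h.bd.bm n (g := fun _ => turns) fun l => BM.const _
  have b2 := bm_av d0 h.bd.bm n (bm_H (bd_ind J).bm)
  have b3 : ∀ p i, BM fun η => if c ≤ gw n R ε J v (C i) p η then (1 : ℝ) else 0 := fun p i =>
    .ite (measurableSet_le measurable_const (bm_gw d0 n R ε J h.bd _ p).1) (.const _) (.const _)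
  have b4 := BM.sum (box d n) fun p _ => BM.sum univ fun i _ => b3 p i
  have b5 := (BM.const (q J)).mul (BM.sum (box d n) fun p _ => bm_kap h.bd n p (v J))
  have b6 := (BM.const (1 + ε⁻¹)).mul b2
  have b7 := (BM.const (1 + R + Fintype.card ι * (c * (1 + exp (2 * D)) * n))).add b4
  have h1 := integral_mono (b1.int (PP d)) (((b7.add b5).add b6).int _)
    (loc_pt d0 h β2 C hR hC hε hc n)
  rw [integral_add ((b7.add b5).int _) (b6.int _), integral_add (b7.int _) (b5.int _),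
    integral_add (integrable_const _) (b4.int _), integral_const_mul, integral_const_mul,
    integral_finsetSum _ fun p _ => (bm_kap h.bd n p (v J)).int _, ← int_resp d0 h.bd,
    integral_finsetSum _ fun p _ => (BM.sum univ fun i _ => b3 p i).int _] at h1
  simp only [integral_finsetSum _ fun i _ => (b3 _ i).int _, integral_const, probReal_univ,
    smul_eq_mul, one_mul] at h1
  have h2 := turn_lower hd h β2 n
  have h3 : 0 ≤ ∫ η, av n (fun p => v (η p)) (H fun p => ind J (η p)) ∂PP d :=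
    integral_nonneg fun η => av_nonneg _ fun l _ => H_nonneg (fun _ => ind_nn _ _) l
  nlinarith [mul_le_mul_of_nonneg_left h1 t0, mul_le_mul_of_nonneg_right hD h3]

end Pool.Agent.MP_050e69_pr

end MrgPart0

-- ======== part 1: formerly Pool.Agent.MP_050e69_pr.Comb
section MrgPart1

set_option autoImplicit false

open Finset Real

namespace Pool.Agent.MP_050e69_pr

variable {d : ℕ}

def sg (e : St d) (y : Fin d → ℤ) : ℤ := (if e.2 then 1 else -1) * y e.1

lemma sg_add (e : St d) (x y : Fin d → ℤ) : sg e (x + y) = sg e x + sg e y := mul_add _ _ _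

lemma sg_self (e : St d) : sg e (step e) = 1 := by
  obtain ⟨i, b⟩ := e
  cases b <;> simp [sg, step]

lemma sg_nsmul (e : St d) (k : ℕ) : sg e (k • step e) = k := by
  induction k with
  | zero => simp [sg]
  | succ k ih => rw [succ_nsmul, sg_add, ih, sg_self, Nat.cast_succ]

lemma sg_axis {e s : St d} (h : s.1 ≠ e.1) : sg e (step s) = 0 := by
  simp [sg, step, Pi.single_eq_of_ne h.symm]

lemma sg_ne {e s : St d} (h : s ≠ e) : sg e (step s) ≤ 0 := by
  by_cases a : s.1 = e.1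
  · obtain ⟨i, b⟩ := e
    obtain ⟨j, c⟩ := s
    obtain rfl : j = i := a
    cases b <;> cases c <;> simp_all [sg, step]
  · exact (sg_axis a).le

lemma step_inj {s e : St d} (h : step s = step e) : s = e := by
  by_contra a
  have := sg_ne a
  rw [h, sg_self] at this
  omega

lemma sg_disp (e : St d) (l : List (St d)) : sg e (disp l) ≤ l.length ∧
    ((l.length : ℤ) ≤ sg e (disp l) → l = List.replicate l.length e) := by
  induction l with
  | nil => simp [sg]
  | cons s l ih =>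
    rw [disp_cons, sg_add, List.length_cons, List.replicate_succ]
    by_cases a : s = e
    · subst a
      rw [sg_self]
      exact ⟨by omega, fun h => by rw [← ih.2 (by omega)]⟩
    · have := sg_ne a
      exact ⟨by omega, fun h => by omega⟩

lemma between {l : List (St d)} {e : St d} {y : Fin d → ℤ} {i t j : ℕ} (h1 : i ≤ t) (h2 : t ≤ j)
    (h3 : j ≤ l.length) (hi : disp (l.take i) = y + i • step e)
    (hj : disp (l.take j) = y + j • step e) : disp (l.take t) = y + t • step e := by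
  obtain ⟨a, rfl⟩ := Nat.exists_eq_add_of_le h1
  obtain ⟨b, rfl⟩ := Nat.exists_eq_add_of_le h2
  rw [add_assoc, List.take_add, disp_append, hi, add_nsmul, add_assoc, add_right_inj,
    add_right_inj] at hj
  have hl := seg_length (R := a + b) (add_assoc i a b ▸ h3)
  have := (sg_disp e (seg i (a + b) l)).2 (by rw [hl, seg, hj, sg_nsmul])
  rw [hl] at this
  have h4 : (l.drop i).take a = (seg i (a + b) l).take a := by simp [seg, List.take_take]
  rw [List.take_add, disp_append, hi, h4, this, add_nsmul, add_assoc]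
  simp

lemma miss {l : List (St d)} {e : St d} {y : Fin d → ℤ} {s a : ℕ} (h : s + a + a ≤ l.length)
    (hs : disp (l.take (s + a)) ≠ y + (s + a) • step e) : ∃ s', (s' = s ∨ s' = s + a) ∧
      ∀ t, s' < t → t ≤ s' + a → disp (l.take t) ≠ y + t • step e := by
  by_contra hc
  push Not at hc
  obtain ⟨i, -, h2, h3⟩ := hc s (Or.inl rfl)
  obtain ⟨j, h4, h5, h6⟩ := hc _ (Or.inr rfl)
  exact hs (between h2 h4.le (h5.trans h) h3 h6)

def lad (e e' : St d) (N k : ℕ) : List (St d) :=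
  List.replicate k e ++ e' :: List.replicate (N - k) e

lemma ladder {e e' : St d} (he : e'.1 ≠ e.1) (N : ℕ) (l : List (St d)) (hl : l.length = N + 1)
    (h : disp l = N • step e + step e') : ∃ k ≤ N, l = lad e e' N k := by
  induction N generalizing l with
  | zero =>
    obtain ⟨s, rfl⟩ := List.length_eq_one_iff.1 hl
    exact ⟨0, le_rfl, by simpa [lad] using step_inj (by simpa using h)⟩
  | succ N ih =>
    rcases l with _ | ⟨s, l⟩
    · simp at hl
    have hl' : l.length = N + 1 := by simpa using hl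
    rw [disp_cons] at h
    by_cases a : s = e
    · subst a
      obtain ⟨k, hk, rfl⟩ := ih l hl' (by rwa [succ_nsmul', add_assoc, add_right_inj] at h)
      exact ⟨k + 1, by omega, by simp [lad, List.replicate_succ]⟩
    · have h1 := congrArg (sg e) h
      rw [sg_add, sg_add, sg_nsmul, sg_axis he] at h1
      have h2 := (sg_disp e l).2 (by have := sg_ne a; omega)
      rw [hl'] at h2
      rw [h2, disp_replicate, add_comm, add_right_inj] at h
      exact ⟨0, by omega, by simp [lad, step_inj h, ← h2]⟩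

lemma lad_length (e e' : St d) {N k : ℕ} (hk : k ≤ N) : (lad e e' N k).length = N + 1 := by
  simp only [lad, List.length_append, List.length_replicate, List.length_cons]
  omega

lemma disp_lad (e e' : St d) {N k j : ℕ} (hk : k ≤ N) (hj : j ≤ N) :
    disp ((lad e e' N k).take (j + 1)) =
      if j < k then (j + 1) • step e else j • step e + step e' := by
  rw [lad, List.take_append]
  split_ifs with h
  · simp [show j + 1 - k = 0 by omega, show min (j + 1) k = j + 1 by omega]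
  · obtain ⟨i, rfl⟩ := Nat.exists_eq_add_of_le (not_lt.1 h)
    simp [show k + i + 1 - k = i + 1 by omega, show min (k + i + 1) k = k by omega,
      show min i (N - k) = i by omega]
    ring

lemma row_ne {e e' : St d} (he : e'.1 ≠ e.1) (j : ℕ) :
    j • step e + step e' ≠ (j + 1) • step e := fun h => by
  rw [succ_nsmul, add_right_inj] at h
  exact he (congrArg _ (step_inj h))

lemma sum_lad {e e' : St d} (he : e'.1 ≠ e.1) (N : ℕ) (f : List (St d) → ℝ) :
    (∑ l ∈ P d (N + 1), if disp l = N • step e + step e' then f l else 0) =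
      ∑ k ∈ range (N + 1), f (lad e e' N k) := by
  rw [← sum_filter]
  symm
  refine sum_bij (fun k _ => lad e e' N k) (fun k hk => ?_) (fun k hk j hj h => ?_)
    (fun l hl => ?_) fun _ _ => rfl
  · have hk' := Nat.lt_succ_iff.1 (mem_range.1 hk)
    have := disp_lad e e' hk' le_rfl
    rw [List.take_of_length_le (lad_length e e' hk').le, if_neg (by omega)] at this
    exact mem_filter.2 ⟨mem_P.2 (lad_length e e' hk'), this⟩
  · have hk' := Nat.lt_succ_iff.1 (mem_range.1 hk)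
    have hj' := Nat.lt_succ_iff.1 (mem_range.1 hj)
    have h1 := disp_lad e e' hk' hk'
    have h2 := disp_lad e e' hj' hj'
    rw [if_neg (lt_irrefl _)] at h1 h2
    rw [h, disp_lad e e' hj' hk'] at h1
    rw [← h, disp_lad e e' hk' hj'] at h2
    split_ifs at h1 h2
    exacts [by omega, (row_ne he _ h1.symm).elim, (row_ne he _ h2.symm).elim, by omega]
  · obtain ⟨h1, h2⟩ := mem_filter.1 hl
    obtain ⟨k, hk, rfl⟩ := ladder he N l (mem_P.1 h1) h2
    exact ⟨k, mem_range.2 (by omega), rfl⟩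

lemma disp_erase {w : List (St d)} {s : St d} (h : s ∈ w) :
    disp w = step s + disp (w.erase s) := by
  rw [← disp_cons]
  exact ((List.perm_cons_erase h).map step).sum_eq

lemma extract (e : St d) (k : ℕ) (w : List (St d)) (h : k ≤ w.count e) : ∃ w' : List (St d),
    w'.length + k = w.length ∧ disp w = k • step e + disp w' ∧ ∀ s ≠ e, s ∈ w → s ∈ w' := by
  induction k generalizing w with
  | zero => exact ⟨w, rfl, by simp, fun _ _ h => h⟩
  | succ k ih =>
    have m : e ∈ w := List.count_pos_iff.1 (by omega)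
    obtain ⟨w', h1, h2, h3⟩ := ih (w.erase e) (by rw [List.count_erase_self]; omega)
    refine ⟨w', ?_, ?_, fun s hs hw => h3 s hs ((List.mem_erase_of_ne hs).2 hw)⟩
    · rw [← List.length_erase_add_one m]
      omega
    · rw [disp_erase m, h2, succ_nsmul', add_assoc]

/-- A window can be replaced by one that starts with the ladder. -/
def Rej (T : ℕ) (i : St d × St d) (w : List (St d)) : Prop := i.2.1 ≠ i.1.1 ∧
  ∃ r : List (St d), r.length + T = w.length ∧
    disp w = T • step i.1 - step i.1 + step i.2 + disp r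

lemma rejoin (hd : 2 ≤ d) {T : ℕ} (hT : 1 ≤ T) (w : List (St d)) (hw : w.length = 2 * d * T)
    (ht : turnAt w) : ∃ i, Rej T i w := by
  have h1 : ∀ w : List (St d), ∑ e, w.count e = w.length := fun w => by
    induction w with
    | nil => simp
    | cons s w ih => simp [List.count_cons, sum_add_distrib, ih]
  obtain ⟨e, -, he⟩ := exists_le_of_sum_le (s := univ) (f := fun _ : St d => T)
    (g := fun e => w.count e) ⟨(⟨0, by omega⟩, true), mem_univ _⟩ (by simp [h1, hw, mul_comm])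
  obtain ⟨w', h2, h3, h4⟩ := extract e T w he
  obtain ⟨s, hs, hm⟩ : ∃ s ≠ e, s ∈ w := by
    by_contra hc
    push Not at hc
    have h5 : 2 ≤ w.length := by nlinarith
    have h6 : ∀ s ∈ w, s = e := fun s hs => by_contra fun a => hc s a hs
    refine ht ?_
    rw [List.getElem?_eq_getElem (by omega), List.getElem?_eq_getElem (by omega),
      h6 _ (List.getElem_mem _), h6 _ (List.getElem_mem _)]
  have h5 := List.length_erase_add_one (h4 s hs hm)
  rw [disp_erase (h4 s hs hm)] at h3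
  by_cases a : s.1 = e.1
  · have := Fin.nontrivial_iff_two_le.2 hd
    obtain ⟨j, hj⟩ := exists_ne e.1
    refine ⟨(e, (j, true)), hj, (j, false) :: w'.erase s, by simp; omega, ?_⟩
    have e1 : step s = -step e := by
      obtain ⟨i, b⟩ := e
      obtain ⟨j, c⟩ := s
      obtain rfl : j = i := a
      cases b <;> cases c <;> simp_all [step, Pi.single_neg]
    have e2 : step (j, false) = -step (j, true) := by simp [step, Pi.single_neg]
    rw [h3, disp_cons, e1, e2]
    abel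
  · refine ⟨(e, s), a, e :: w'.erase s, by simp; omega, ?_⟩
    rw [h3, disp_cons]
    abel

lemma sh_sh {α : Type} (a b : ℕ) (x y : Fin d → ℤ) (g : Site d → α) :
    sh a y (sh b x g) = sh (b + a) (x + y) g := by
  ext p
  simp [sh, add_assoc]

lemma split (t n : ℕ) (y : Fin d → ℤ) (g : Site d → ℝ) (f f' : List (St d) → ℝ) :
    (∑ l ∈ P d (t + n),
      if disp (l.take t) = y then f (l.take t) * f' (l.drop t) * exp (H g l) else 0) =
    (∑ l ∈ P d t, if disp l = y then f l * exp (H g l) else 0) *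
      ∑ l ∈ P d n, f' l * exp (H (sh t y g) l) := by
  rw [sum_P_add, sum_mul_sum]
  refine sum_congr rfl fun l hl => sum_congr rfl fun l' _ => ?_
  obtain rfl := mem_P.1 hl
  simp only [List.take_left', List.drop_left', H_append, exp_add]
  split_ifs with h
  · rw [h]
    ring
  · simp

lemma H_rep (f : Site d → ℝ) (a : ℕ) (e : St d) :
    H f (List.replicate a e) = ∑ k ∈ range a, f (k + 1, (k + 1) • step e) := by
  rw [H, List.length_replicate]
  refine sum_congr rfl fun k hk => ?_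
  have := mem_range.1 hk
  simp [site, show min (k + 1) a = k + 1 by omega]

lemma le_Z_add (a b : ℕ) (h : Site d → ℝ) {l : List (St d)} (hl : l.length = a) :
    exp (H h l) * Z b (sh a (disp l) h) ≤ Z (a + b) h := by
  rw [Z_add]
  exact single_le_sum (f := fun l => exp (H h l) * Z b (sh a (disp l) h))
    (fun _ _ => mul_nonneg (exp_pos _).le (Z_nonneg _ _)) (mem_P.2 hl)

end Pool.Agent.MP_050e69_pr

end MrgPart1

-- ======== part 2: formerly Pool.Agent.MP_050e69_pr.Plant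
section MrgPart2

set_option autoImplicit false

open Finset Real

namespace Pool.Agent.MP_050e69_pr

variable {d : ℕ}

/-- The data of a planted pattern. -/
structure Pat (d : ℕ) where
  τ : ℕ
  a : ℕ
  m : ℕ
  ℓ : ℕ
  y : Fin d → ℤ
  e : St d
  e' : St d

namespace Pat

variable (X : Pat d)

def T : ℕ := 4 * X.a + X.m + X.ℓ

def y' : Fin d → ℤ := X.y - step X.e + step X.e'

def onS (p : Site d) : Prop := X.τ < p.1 ∧ p.1 ≤ X.τ + X.T ∧
  (p.2 = X.y + p.1 • step X.e ∨ p.2 = X.y' + p.1 • step X.e)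

def hi (p : Site d) : Prop := if p.2 = X.y + p.1 • step X.e then p.1 ≤ X.τ + 2 * X.a ∨
  (X.τ + 2 * X.a + X.m < p.1 ∧ p.1 ≤ X.τ + 2 * X.a + X.m + X.ℓ) else X.τ + 2 * X.a < p.1

def star : Site d := (X.τ + X.a + (X.a + X.m), X.y + (X.τ + X.a + (X.a + X.m)) • step X.e)

open Classical in
noncomputable def pl (Δ : ℝ) (h : Site d → ℝ) (p : Site d) : ℝ :=
  if X.onS p then (if X.hi p then Δ else 0) else h p

variable {X} {Δ : ℝ} {h : Site d → ℝ}

lemma row0 {t : ℕ} (h1 : X.τ < t) (h2 : t ≤ X.τ + X.T) :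
    X.pl Δ h (t, X.y + t • step X.e) = if t ≤ X.τ + 2 * X.a ∨
      (X.τ + 2 * X.a + X.m < t ∧ t ≤ X.τ + 2 * X.a + X.m + X.ℓ) then Δ else 0 := by
  rw [pl, if_pos ⟨h1, h2, Or.inl rfl⟩]
  simp only [hi, if_true]

lemma row1 (he : X.e'.1 ≠ X.e.1) {t : ℕ} (h1 : X.τ < t) (h2 : t ≤ X.τ + X.T) :
    X.pl Δ h (t, X.y' + t • step X.e) = if X.τ + 2 * X.a < t then Δ else 0 := by
  rw [pl, if_pos ⟨h1, h2, Or.inr rfl⟩]
  have : X.y' + t • step X.e ≠ X.y + t • step X.e := fun h => by
    rw [add_left_inj, y', sub_add_eq_add_sub, sub_eq_iff_eq_add, add_right_inj] at h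
    exact he (congrArg _ (step_inj h))
  simp only [hi, if_neg this]

lemma off {p : Site d} (hp : p.1 ≤ X.τ ∨ X.τ + X.T < p.1) : X.pl Δ h p = h p :=
  if_neg fun h => by
    have := h.1
    have := h.2.1
    omega

lemma bad (h0 : ∀ p, 0 ≤ h p) (hΔ : 0 ≤ Δ) (l : List (St d)) {s : ℕ} (h1 : X.τ ≤ s)
    (h2 : s + X.a ≤ X.τ + X.T) (h3 : ∀ p : Site d, s < p.1 → p.1 ≤ s + X.a →
      p.2 = disp (l.take p.1) → X.onS p → ¬ X.hi p) :
    H (X.pl Δ h) l ≤ H h l + Δ * (3 * X.a + X.m + X.ℓ : ℕ) := by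
  set S := Ico X.τ (X.τ + X.T) \ Ico s (s + X.a)
  have hS : S.card = 3 * X.a + X.m + X.ℓ := by
    rw [card_sdiff_of_subset (Ico_subset_Ico h1 h2), Nat.card_Ico, Nat.card_Ico, T]
    omega
  have h4 : ∑ k ∈ range l.length, (if k ∈ S then (1 : ℝ) else 0) ≤ (3 * X.a + X.m + X.ℓ : ℕ) := by
    rw [sum_boole, Nat.cast_le, ← hS]
    exact card_le_card fun k hk => (mem_filter.1 hk).2
  refine le_trans ?_ (add_le_add_right (mul_le_mul_of_nonneg_left h4 hΔ) _)
  rw [H, H, mul_sum, ← sum_add_distrib]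
  refine sum_le_sum fun k _ => ?_
  have := h0 (site l k)
  rw [pl]
  split_ifs with a b c <;> try linarith
  refine (c (mem_sdiff.2 ⟨mem_Ico.2 ⟨Nat.le_of_lt_succ a.1, a.2.1⟩, fun hk => ?_⟩)).elim
  exact h3 (site l k) (Nat.lt_succ_of_le (mem_Ico.1 hk).1) (mem_Ico.1 hk).2 rfl a b

def loss (a m ℓ N k : ℕ) : ℕ :=
  (min (min N k) (a + m) - a) + (min N k - (a + m + ℓ)) + (min N a - k)

lemma mid (he : X.e'.1 ≠ X.e.1) {N k : ℕ} (hN : N + 1 = 2 * X.a + X.m + X.ℓ) (hk : k ≤ N) :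
    exp (H (sh (X.τ + X.a) (X.y + (X.τ + X.a) • step X.e) (X.pl Δ h)) (lad X.e X.e' N k)) =
      exp (Δ * (N + 1 : ℕ)) * exp (-Δ) ^ loss X.a X.m X.ℓ (N + 1) k := by
  rw [← exp_nat_mul, ← exp_add, H, lad_length _ _ hk]
  congr 1
  have : ∀ n ≤ N + 1, ∑ j ∈ range n, sh (X.τ + X.a) (X.y + (X.τ + X.a) • step X.e) (X.pl Δ h)
      (site (lad X.e X.e' N k) j) = Δ * n + loss X.a X.m X.ℓ n k * -Δ := by
    intro n hn
    induction n with
    | zero => simp [loss]
    | succ n ih =>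
      rw [sum_range_succ, ih (by omega), sh, site, disp_lad _ _ hk (by omega)]
      have t1 : X.τ < X.τ + X.a + (n + 1) := by omega
      have t2 : X.τ + X.a + (n + 1) ≤ X.τ + X.T := by rw [T]; omega
      split_ifs with c
      · rw [add_assoc X.y, ← add_nsmul, row0 t1 t2]
        split_ifs with b
        · rw [show loss X.a X.m X.ℓ (n + 1) k = loss X.a X.m X.ℓ n k by unfold loss; omega]
          push_cast
          ring
        · rw [show loss X.a X.m X.ℓ (n + 1) k = loss X.a X.m X.ℓ n k + 1 by unfold loss; omega]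
          push_cast
          ring
      · rw [show X.y + (X.τ + X.a) • step X.e + (n • step X.e + step X.e') =
          X.y' + (X.τ + X.a + (n + 1)) • step X.e by simp only [y', add_nsmul, one_nsmul]; abel,
          row1 he t1 t2]
        split_ifs with b
        · rw [show loss X.a X.m X.ℓ (n + 1) k = loss X.a X.m X.ℓ n k by unfold loss; omega]
          push_cast
          ring
        · rw [show loss X.a X.m X.ℓ (n + 1) k = loss X.a X.m X.ℓ n k + 1 by unfold loss; omega]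
          push_cast
          ring
  exact this _ le_rfl

lemma sum_thr (Q : ℝ) {a m ℓ L : ℕ} (hL : L = a + m + (ℓ + a)) :
    (1 - Q) * ∑ k ∈ range L, (if a + m ≤ k then 1 else 0) * Q ^ loss a m ℓ L k =
      Q ^ m * (ℓ * (1 - Q) + 1 - Q ^ a) := by
  nth_rewrite 1 [hL]
  rw [sum_range_add, sum_range_add _ ℓ, sum_eq_zero fun k hk => by
      rw [if_neg (not_le.2 (mem_range.1 hk)), zero_mul],
    sum_congr rfl (g := fun _ => Q ^ m) fun k hk => by
      have := mem_range.1 hk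
      rw [if_pos (by omega), one_mul, show loss a m ℓ L (a + m + k) = m by unfold loss; omega],
    sum_congr rfl (s₁ := range a) (g := fun k => Q ^ m * Q ^ k) fun k hk => by
      have := mem_range.1 hk
      rw [if_pos (by omega), one_mul, ← pow_add,
        show loss a m ℓ L (a + m + (ℓ + k)) = m + k by unfold loss; omega], ← mul_sum]
  have := mul_neg_geom_sum Q a
  simp only [sum_const, card_range, nsmul_eq_mul]
  linear_combination Q ^ m * this

lemma sum_av (Q : ℝ) {a m ℓ L : ℕ} (hL : L = a + (m + 1) + (ℓ + a)) :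
    (1 - Q) * ∑ k ∈ range L, (if a + (m + 1) ≤ k then 0 else 1) * Q ^ loss a (m + 1) ℓ L k =
      1 - Q ^ (a + 1) + Q - Q ^ (m + 1) := by
  nth_rewrite 1 [show L = a + 1 + m + (ℓ + a) by omega]
  rw [sum_range_add, sum_range_add, sum_eq_zero (s := range (ℓ + a)) fun k hk => by
      rw [if_pos (by omega), zero_mul],
    sum_congr rfl (g := fun k => Q ^ (a + 1 - 1 - k)) fun k hk => by
      have := mem_range.1 hk
      rw [if_neg (by omega), one_mul,
        show loss a (m + 1) ℓ L k = a + 1 - 1 - k by unfold loss; omega],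
    sum_range_reflect (fun k => Q ^ k),
    sum_congr rfl (s₁ := range m) (g := fun k => Q * Q ^ k) fun k hk => by
      have := mem_range.1 hk
      rw [if_neg (by omega), one_mul, ← pow_succ',
        show loss a (m + 1) ℓ L (a + 1 + k) = k + 1 by unfold loss; omega], ← mul_sum]
  have h1 := mul_neg_geom_sum Q (a + 1)
  have h2 := mul_neg_geom_sum Q m
  linear_combination h1 + Q * h2

lemma det (he : X.e'.1 ≠ X.e.1) (hm : 1 ≤ X.m) (h0 : ∀ p, 0 ≤ h p) (hΔ : 0 ≤ Δ) (n : ℕ) :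
    ∃ G θ θ' : ℝ, 0 ≤ θ ∧ 0 ≤ θ' ∧
      θ + θ' ≤ Z (X.τ + X.T + n) h * exp (Δ * (3 * X.a + X.m + X.ℓ : ℕ)) ∧
      (∑ l ∈ P d X.τ, if disp l = X.y + X.τ • step X.e then exp (H h l) else 0) *
        Z n (sh (X.τ + X.T) (X.y' + (X.τ + X.T) • step X.e) h) * exp (Δ * X.T) ≤ G ∧
      (1 - exp (-Δ)) * (ZA (X.τ + X.T + n) (X.pl Δ h) X.star - θ) =
        G * (exp (-Δ) ^ X.m * (X.ℓ * (1 - exp (-Δ)) + 1 - exp (-Δ) ^ X.a)) ∧
      (1 - exp (-Δ)) * (ZB (X.τ + X.T + n) (X.pl Δ h) X.star - θ') =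
        G * (1 - exp (-Δ) ^ (X.a + 1) + exp (-Δ) - exp (-Δ) ^ X.m) := by
  obtain ⟨N, hN⟩ : ∃ N, N + 1 = 2 * X.a + X.m + X.ℓ := ⟨2 * X.a + X.m + X.ℓ - 1, by omega⟩
  set g := X.pl Δ h with hg
  set t := X.τ + X.a with ht
  set x := X.y + t • step X.e with hx
  set x' := N • step X.e + step X.e' with hx'
  set n' := X.τ + X.T + n with hn'
  have hT : X.T = 4 * X.a + X.m + X.ℓ := rfl
  have en : n' = t + (N + 1 + (X.a + n)) := by omega
  have hu : Function.update g X.star 0 = g := Function.update_eq_self_iff.2 (by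
    rw [hg, star, row0 (by omega) (by omega), if_neg (by omega)])
  have e1 : x + x' = X.y' + (t + (N + 1)) • step X.e := by
    simp only [hx, hx', y', add_nsmul, one_nsmul]
    abel
  let good : List (St d) → Prop := fun l => disp (l.take t) = x ∧ disp (seg t (N + 1) l) = x'
  set U := ∑ l ∈ P d t, if disp l = x then 1 * exp (H g l) else 0 with hU
  set V := ∑ l ∈ P d (X.a + n), 1 * exp (H (sh (N + 1) x' (sh t x g)) l) with hV
  have key : ∀ φ : List (St d) → ℝ,
      (∑ l ∈ P d n', if good l then φ (seg t (N + 1) l) * exp (H g l) else 0) =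
        U * V * exp (Δ * (N + 1 : ℕ)) * ∑ k ∈ range (N + 1),
          φ (lad X.e X.e' N k) * exp (-Δ) ^ loss X.a X.m X.ℓ (N + 1) k := fun φ => by
    have e1 := split t (N + 1 + (X.a + n)) x g (fun _ => 1)
      fun l => if disp (l.take (N + 1)) = x' then φ (l.take (N + 1)) else 0
    have e2 := split (N + 1) (X.a + n) x' (sh t x g) φ fun _ => 1
    rw [sum_lad he, sum_congr rfl (s₁ := range (N + 1)) fun k hk => by
      rw [mid he hN (Nat.lt_succ_iff.1 (mem_range.1 hk)), mul_left_comm], ← mul_sum] at e2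
    simp only [ite_mul, zero_mul, one_mul, mul_one] at e1 e2
    rw [e2] at e1
    simp only [hU, hV, one_mul, good, ite_and, en, seg]
    rw [e1]
    ring
  have hv : ∀ l ∈ P d n', good l → (vis l X.star ↔
      disp ((seg t (N + 1) l).take (X.a + X.m)) = (X.a + X.m) • step X.e) := fun l hl hg => by
    have := mem_P.1 hl
    rw [vis, star, ← ht, List.take_add, disp_append, hg.1, add_nsmul, ← add_assoc X.y, ← hx,
      add_right_inj, seg, List.take_take, min_eq_left (by omega)]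
    exact ⟨fun h => h.2.2, fun h => ⟨by omega, by omega, h⟩⟩
  have hl : ∀ k ∈ range (N + 1), disp ((lad X.e X.e' N k).take (X.a + X.m)) =
      (X.a + X.m) • step X.e ↔ X.a + X.m ≤ k := fun k hk => by
    obtain ⟨j, hj⟩ : ∃ j, X.a + X.m = j + 1 := ⟨X.a + X.m - 1, by omega⟩
    rw [hj, disp_lad _ _ (Nat.lt_succ_iff.1 (mem_range.1 hk)) (by omega)]
    split_ifs with c
    exacts [iff_of_true rfl c, iff_of_false (row_ne he j) c]
  refine ⟨U * V * exp (Δ * (N + 1 : ℕ)),
    ∑ l ∈ P d n', if good l then 0 else if vis l X.star then exp (H g l) else 0,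
    ∑ l ∈ P d n', if good l then 0 else if vis l X.star then 0 else exp (H g l),
    sum_nonneg fun _ _ => by positivity, sum_nonneg fun _ _ => by positivity, ?_, ?_, ?_, ?_⟩
  · rw [← sum_add_distrib, Z, sum_mul]
    refine sum_le_sum fun l hl => ?_
    have hn := mem_P.1 hl
    by_cases c : good l
    · simp only [if_pos c, add_zero]
      positivity
    rw [if_neg c, if_neg c, ← exp_add]
    refine le_trans (b := exp (H g l)) (by split_ifs <;> simp) (exp_le_exp.2 ?_)
    by_cases c1 : disp (l.take t) = x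
    · have c2 : disp (l.take (X.τ + 2 * X.a + X.m + X.ℓ + X.a)) ≠
          X.y' + (X.τ + 2 * X.a + X.m + X.ℓ + X.a) • step X.e := fun c2 => c ⟨c1, by
        rw [show X.τ + 2 * X.a + X.m + X.ℓ + X.a = t + (N + 1) by omega, List.take_add,
          disp_append, c1, ← e1, add_right_inj] at c2
        exact c2⟩
      obtain ⟨s, hs, h3⟩ := miss (by omega) c2
      refine bad h0 hΔ l (s := s) (by omega) (by omega) fun p p1 p2 p3 p4 => ?_
      rw [hi, if_pos (p4.2.2.resolve_right (p3 ▸ h3 _ p1 p2))]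
      omega
    · obtain ⟨s, hs, h3⟩ := miss (by omega) c1
      refine bad h0 hΔ l (s := s) (by omega) (by omega) fun p p1 p2 p3 _ => ?_
      rw [hi, if_neg (p3 ▸ h3 _ p1 p2)]
      omega
  · have u1 : (∑ l ∈ P d X.τ, if disp l = X.y + X.τ • step X.e then exp (H h l) else 0) *
        exp (X.a * Δ) ≤ U := by
      rw [hU, ht, sum_P_add, sum_mul]
      refine sum_le_sum fun l hl => le_trans ?_ (single_le_sum (a := List.replicate X.a X.e)
        (fun _ _ => by positivity) (by simp))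
      have hn := mem_P.1 hl
      split_ifs with c1 c2
      · rw [one_mul, H_append, exp_add, H_rep, H_congr (h := g) fun p _ hp =>
          off (Or.inl (hn ▸ hp)), sum_congr rfl (g := fun _ => Δ) fun k hk => by
            have := mem_range.1 hk
            rw [sh, hn, c1, add_assoc X.y, ← add_nsmul, hg, row0 (by omega) (by omega),
              if_pos (by omega)]]
        simp
      · exact (c2 (by rw [disp_append, c1, disp_replicate, hx, ht, add_nsmul, add_assoc])).elim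
      · simp [(exp_pos _).le]
      · simp
    have u2 : exp (X.a * Δ) * Z n (sh (X.τ + X.T) (X.y' + (X.τ + X.T) • step X.e) h) ≤ V := by
      have := le_Z_add X.a n (sh (N + 1) x' (sh t x g)) (l := List.replicate X.a X.e) (by simp)
      rw [sh_sh, sh_sh, H_rep, disp_replicate, e1, add_assoc X.y', ← add_nsmul,
        show t + (N + 1) + X.a = X.τ + X.T by omega,
        sum_congr rfl (g := fun _ => Δ) fun k hk => by
          have := mem_range.1 hk
          rw [sh, add_assoc X.y', ← add_nsmul, hg, row1 he (by omega) (by omega),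
            if_pos (by omega)],
        Z_congr (h := sh (X.τ + X.T) (X.y' + (X.τ + X.T) • step X.e) g)
          (g := sh (X.τ + X.T) (X.y' + (X.τ + X.T) • step X.e) h) fun p hp _ =>
          off (X := X) (Or.inr (Nat.lt_add_of_pos_right hp))] at this
      simpa [hV, sh_sh, e1, Z] using this
    refine le_trans (le_of_eq ?_) (mul_le_mul_of_nonneg_right (mul_le_mul u1 u2
      (mul_nonneg (exp_pos _).le (Z_nonneg _ _)) (sum_nonneg fun _ _ => by positivity))
      (exp_pos _).le)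
    rw [show Δ * X.T = X.a * Δ + X.a * Δ + Δ * (N + 1 : ℕ) by rw [hN, hT]; push_cast; ring,
      exp_add, exp_add]
    ring
  · rw [ZA, hu, ← sum_sub_distrib, sum_congr rfl fun l hl => ?_, key fun w =>
      if disp (w.take (X.a + X.m)) = (X.a + X.m) • step X.e then 1 else 0,
      sum_congr rfl (s₁ := range (N + 1)) fun k hk => by simp only [hl k hk]; rfl, mul_left_comm,
      sum_thr _ (by omega)]
    by_cases c : good l
    · simp [c, hv l hl c]
    · simp [c]
  · obtain ⟨m, hm'⟩ : ∃ m, X.m = m + 1 := ⟨X.m - 1, by omega⟩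
    rw [ZB, hu, ← sum_sub_distrib, sum_congr rfl fun l hl => ?_, key fun w =>
      if disp (w.take (X.a + X.m)) = (X.a + X.m) • step X.e then 0 else 1,
      sum_congr rfl (s₁ := range (N + 1)) fun k hk => by simp only [hl k hk]; rfl, mul_left_comm,
      hm', sum_av _ (by omega)]
    by_cases c : good l
    · simp [c, hv l hl c]
    · simp [c]

end Pat

end Pool.Agent.MP_050e69_pr

end MrgPart2

-- ======== part 3: formerly Pool.Agent.MP_050e69_pr.Mass
section MrgPart3

set_option autoImplicit false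

open Finset Real MeasureTheory Filter Topology

namespace Pool.Agent.MP_050e69_pr

variable {d : ℕ}

lemma win {h : Site d → ℝ} (h0 : ∀ p, 0 ≤ h p) (τ T r n : ℕ) (x : Fin d → ℤ) (i : St d × St d)
    (Φ : List (St d) → Prop) [DecidablePred Φ] {E : ℝ}
    (hΦ : ∀ w, Φ w → Rej T i w ∧ H (sh τ x h) w ≤ E) :
    ∑ l ∈ P d (τ + (T + r + n)),
      (if disp (l.take τ) = x then 1 * (if Φ (seg τ (T + r) l) then 1 else 0) * exp (H h l) else 0) ≤
      (∑ l ∈ P d τ, if disp l = x then exp (H h l) else 0) *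
        Z (r + n) (sh (τ + T) (x + (T • step i.1 - step i.1 + step i.2)) h) *
          ((2 * d) ^ (T + r) * exp E) := by
  have := split τ (T + r + n) x h (fun _ => 1) fun l => if Φ (l.take (T + r)) then 1 else 0
  refine this.le.trans ?_
  rw [mul_assoc]
  simp only [one_mul]
  refine mul_le_mul_of_nonneg_left ?_ (sum_nonneg fun _ _ => by positivity)
  rw [sum_P_add]
  refine (sum_le_card_nsmul _ _ (exp E * Z (r + n)
    (sh (τ + T) (x + (T • step i.1 - step i.1 + step i.2)) h)) fun w hw => ?_).trans_eq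
    (by rw [card_P]; simp; ring)
  have hw' := mem_P.1 hw
  simp only [List.take_left' hw', H_append, exp_add, ← mul_sum]
  split_ifs with c
  · obtain ⟨⟨-, u, h1, h2⟩, h3⟩ := hΦ w c
    have h4 := le_Z_add r n (sh (τ + T) (x + (T • step i.1 - step i.1 + step i.2)) h)
      (l := u) (by omega)
    rw [sh_sh, add_assoc x, ← h2, add_assoc τ, ← hw', ← sh_sh w.length] at h4
    rw [one_mul]
    refine mul_le_mul (exp_le_exp.2 h3) (le_trans ?_ h4) (Z_nonneg _ _) (exp_pos _).le
    exact le_mul_of_one_le_left (Z_nonneg _ _) (one_le_exp (H_nonneg (fun _ => h0 _) _))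
  · rw [zero_mul]
    exact mul_nonneg (exp_pos _).le (Z_nonneg _ _)

noncomputable def Rs (Q : ℝ) (m ℓ : ℕ) : ℝ := (1 + Q - Q ^ m) / (Q ^ m * (1 + ℓ * (1 - Q)))

lemma ratio {Q G θ θ' ε c A B : ℝ} {a m ℓ : ℕ} (Q0 : 0 < Q) (Q1 : Q ≤ 1 / 2) (hm : 1 ≤ m)
    (hℓ : 1 ≤ ℓ) (G0 : 0 < G) (t0 : 0 ≤ θ) (t1 : 0 ≤ θ') (ht : θ + θ' ≤ ε * G)
    (hA : (1 - Q) * (A - θ) = G * (Q ^ m * (ℓ * (1 - Q) + 1 - Q ^ a)))
    (hB : (1 - Q) * (B - θ') = G * (1 - Q ^ (a + 1) + Q - Q ^ m))
    (hc : (2 + ℓ) * (2 * Q ^ a + ε) ≤ c * Q ^ m) :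
    0 < A ∧ |B - Rs Q m ℓ * A| ≤ c * (Rs Q m ℓ * A) := by
  have l1 : (1 : ℝ) ≤ ℓ := by exact_mod_cast hℓ
  have w0 : 0 < Q ^ m := by positivity
  have w1 : Q ^ m ≤ Q := pow_le_of_le_one Q0.le (by linarith) (by omega)
  have s0 : 0 < Q ^ a := by positivity
  have s1 : Q ^ a ≤ 1 := pow_le_one₀ Q0.le (by linarith)
  rw [pow_succ] at hB
  rw [Rs]
  generalize Q ^ m = w at *
  generalize Q ^ a = s at *
  set N := 1 + Q - w with hN
  set N' := 1 + ℓ * (1 - Q) with hN'
  have n1 : 1 ≤ N := by linarith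
  have n2 : 1 ≤ N' := by nlinarith
  have n3 : N' ≤ 1 + ℓ := by nlinarith
  have e0 : 0 ≤ ε := by nlinarith
  have a1 : G * w ≤ A := by
    have : (1 - Q) * (G * w) ≤ (1 - Q) * (A - θ) := by
      rw [hA, mul_left_comm, mul_comm (1 - Q)]
      refine mul_le_mul_of_nonneg_left (mul_le_mul_of_nonneg_left ?_ w0.le) G0.le
      nlinarith
    linarith [le_of_mul_le_mul_left this (by linarith)]
  have A0 : 0 < A := lt_of_lt_of_le (by positivity) a1
  refine ⟨A0, ?_⟩
  have e1 : B - N / (w * N') * A =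
      (θ' * (w * N') - N * θ + G * w * s * (N - Q * N') / (1 - Q)) / (w * N') := by
    have : 1 - Q ≠ 0 := by linarith
    field_simp
    linear_combination w * N' * hB - N * hA
  rw [e1, abs_div, abs_of_pos (show 0 < w * N' by positivity), div_mul_eq_mul_div,
    ← mul_div_assoc]
  refine div_le_div_of_nonneg_right ?_ (by positivity)
  have b1 : |θ' * (w * N') - N * θ| ≤ ε * G * (N * (2 + ℓ)) := by
    have : w * N' ≤ N * (2 + ℓ) := by nlinarith
    have h2 : N ≤ N * (2 + ℓ) := by nlinarith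
    have h3 := mul_le_mul_of_nonneg_right ht (show 0 ≤ N * (2 + ℓ) by positivity)
    have h4 := mul_le_mul_of_nonneg_left this t1
    have h5 := mul_le_mul_of_nonneg_left h2 t0
    have h6 : 0 ≤ θ' * (w * N') := by positivity
    have h7 : 0 ≤ N * θ := by positivity
    rw [abs_le]
    constructor <;> nlinarith
  have b2 : |G * w * s * (N - Q * N') / (1 - Q)| ≤ 2 * s * G * (N * (2 + ℓ)) := by
    rw [abs_div, abs_of_pos (show 0 < 1 - Q by linarith), div_le_iff₀ (by linarith), abs_mul,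
      abs_of_pos (show 0 < G * w * s by positivity)]
    have h1 : |N - Q * N'| ≤ N * (2 + ℓ) := by
      rw [abs_le]
      constructor <;> nlinarith
    calc _ ≤ G * 1 * s * (N * (2 + ℓ)) := by gcongr; linarith
      _ = 2 * s * G * (N * (2 + ℓ)) * (1 / 2) := by ring
      _ ≤ _ := by gcongr; linarith
  have c0 : 0 ≤ c := by
    by_contra hc'
    nlinarith [mul_pos (show 0 < 2 + (ℓ : ℝ) by positivity) (show 0 < 2 * s + ε by positivity)]
  refine (abs_add_le _ _).trans ((add_le_add b1 b2).trans ?_)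
  calc _ = G * N * ((2 + ℓ) * (2 * s + ε)) := by ring
    _ ≤ G * N * (c * w) := by gcongr
    _ = c * (N * (G * w)) := by ring
    _ ≤ _ := by gcongr

lemma int_prod (S : Finset (Site d)) (t : Om d) :
    ∫ η, ∏ p ∈ S, ind (t p) (η p) ∂PP d = ∏ p ∈ S, q (t p) := by
  induction S using Finset.induction_on with
  | empty => simp
  | insert a S ha ih =>
    simp only [prod_insert ha, mul_comm (ind (t a) _)]
    rw [indep {a} (Finset.measurable_fun_prod _ fun p _ => ((bd_ind _).bm p).1)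
      ((bd_ind _).bm a).1, ih, int_site a (ind (t a)), mul_comm]
    · exact congrArg (· * _) (int_ind _)
    · exact fun x => prod_congr rfl fun p hp => by
        rw [pw_not (S := {a}) fun (e : p = a) => ha (e ▸ hp)]
    · exact fun x => by rw [pw_mem (Set.mem_singleton a)]

lemma plant_prob (S : Finset (Site d)) (t : Om d) {g : Om d → ℝ} (hg : BM g) (g0 : ∀ η, 0 ≤ g η) :
    (∫ η, g (pw S (η, t)) ∂PP d) * ∏ p ∈ S, q (t p) ≤ ∫ η, g η ∂PP d := by
  have b := hg.comp ((meas_pw S).fun_comp (measurable_prodMk_right (y := t)))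
  rw [← int_prod, ← indep S b.1 (Finset.measurable_fun_prod _ fun p _ => ((bd_ind _).bm p).1)]
  · refine integral_mono_of_nonneg (.of_forall fun η => mul_nonneg (g0 _)
      (prod_nonneg fun _ _ => ind_nn _ _)) (hg.int _) (.of_forall fun η => ?_)
    beta_reduce
    by_cases c : ∀ p ∈ S, η p = t p
    · rw [prod_eq_one (f := fun p => ind (t p) (η p)) fun p hp => if_pos (c p hp), mul_one]
      refine le_of_eq (congrArg g (funext fun p => ?_))
      by_cases e : p ∈ (S : Set (Site d))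
      exacts [(pw_mem e _).trans (c p e).symm, pw_not e _]
    · push Not at c
      obtain ⟨p, hp, c⟩ := c
      rw [prod_eq_zero (f := fun p => ind (t p) (η p)) hp (if_neg c), mul_zero]
      exact g0 η
  · refine fun x => congrArg g (funext fun p => ?_)
    by_cases e : p ∈ (S : Set (Site d))
    · rw [pw_mem e, pw_mem e]
    · rw [pw_not e, pw_not e]
      exact pw_not e _
  · exact fun x => prod_congr rfl fun p hp => by rw [pw_mem (mem_coe.2 hp)]

open Classical in
/-- The ratio of the weights around and through p is close to R. -/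
noncomputable def gd (n : ℕ) (v : ℕ → ℝ) (R c : ℝ) (p : Site d) (η : Om d) : ℝ :=
  if 0 < ZA n (fun p => v (η p)) p ∧ |ZB n (fun p => v (η p)) p - R * ZA n (fun p => v (η p)) p| ≤
    c * (R * ZA n (fun p => v (η p)) p) then 1 else 0

lemma bm_gd (n : ℕ) {v : ℕ → ℝ} (hv : Bd v) (R c : ℝ) (p : Site d) : BM (gd n v R c p) := by
  classical
  have := meas_ZA hv.bm n p
  have := meas_ZB hv.bm n p
  refine BM.ite ?_ (.const _) (.const _)
  rw [Set.ofPred_and]
  exact (measurableSet_lt (by fun_prop) (by fun_prop)).inter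
    (measurableSet_le (by fun_prop) (by fun_prop))

lemma gd_nn (n : ℕ) (v : ℕ → ℝ) (R c : ℝ) (p : Site d) (η : Om d) : 0 ≤ gd n v R c p η := by
  unfold gd
  positivity

def pat (a m ℓ : ℕ) (i : St d × St d) (p : Site d) : Pat d :=
  ⟨p.1, a, m, ℓ, p.2 - p.1 • step i.1, i.1, i.2⟩

lemma plant_pt (hd : 2 ≤ d) {J : ℕ} {D β : ℝ} {v : ℕ → ℝ} (h : Val J D β v) (β2 : β ≤ 2)
    (hD : 2 * d * (log (2 * d) + 1 / 5) ≤ D / 16) {a m ℓ : ℕ} (hm : 1 ≤ m) (hℓ : 1 ≤ ℓ)
    {c₀ : ℝ} (hc : 0 < c₀) (n : ℕ) (i : St d × St d) (p : Site d) (η : Om d)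
    (c : c₀ ≤ gw n (2 * d * (4 * a + m + ℓ)) (32 * d : ℝ)⁻¹ J v (Rej (4 * a + m + ℓ) i) p η)
    {A B : ℝ} (hA : A = ZA n ((pat a m ℓ i p).pl (β * D) fun p => v (η p)) (pat a m ℓ i p).star)
    (hB : B = ZB n ((pat a m ℓ i p).pl (β * D) fun p => v (η p)) (pat a m ℓ i p).star) :
    0 < A ∧ |B - Rs (exp (-(β * D))) m ℓ * A| ≤ (2 + ℓ) * exp (2 * D * m) *
      (2 + exp (D * (m + ℓ) / 4) / c₀) * exp (-(D * a / 2)) * (Rs (exp (-(β * D))) m ℓ * A) := by
  classical
  have d0 : 0 < d := by omega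
  have d2 : (2 : ℝ) ≤ d := by exact_mod_cast hd
  have hβ := h.hβ
  have hD0 := h.hD
  set X := pat a m ℓ i p with hX
  set T := 4 * a + m + ℓ with hT
  set f : Site d → ℝ := fun p => v (η p) with hf
  have f0 : ∀ p, 0 ≤ f p := fun _ => h.nn _
  obtain ⟨he, hn⟩ : i.2.1 ≠ i.1.1 ∧ p.1 + 2 * d * T ≤ n := by
    by_contra e
    rw [gw, av_congr _ (g := fun _ => 0) fun l _ => if_neg fun h => e ⟨h.2.2.1.1, h.2.1⟩,
      av_const d0] at c
    linarith
  obtain ⟨r, hr⟩ := Nat.exists_eq_add_of_le (show T ≤ 2 * d * T by nlinarith)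
  obtain ⟨k, rfl⟩ := Nat.exists_eq_add_of_le hn
  have h1 := win f0 p.1 T r k p.2 i (fun w => Rej T i w ∧ H (sh p.1 p.2 fun p => ind J (η p)) w ≤
    (32 * d : ℝ)⁻¹ * (2 * d * T : ℕ) ∧ w.length = 2 * d * T)
    (E := 2 * d * T / 5 + β * D * T / 16) fun w hw => ⟨hw.1, by
      have := H_mono (h := sh p.1 p.2 f) (g := fun p' => 1 / 5 + β * D *
        sh p.1 p.2 (fun p => ind J (η p)) p') (fun p' => by
          simp only [sh, hf, ind]
          split_ifs with e
          · rw [e, h.top]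
            linarith
          · linarith [h.le _ e]) w
      have h2 := mul_le_mul_of_nonneg_left hw.2.1 (show 0 ≤ β * D by positivity)
      rw [H_add, H_mul, H_const, hw.2.2] at this
      rw [show (32 * d : ℝ)⁻¹ * (2 * d * T : ℕ) = T / 16 by push_cast; field_simp; ring] at h2
      push_cast at this
      linarith⟩
  rw [gw, av, le_div_iff₀ (Z_pos d0 _ _)] at c
  obtain ⟨G, θ, θ', t0, t1, t2, t3, t4, t5⟩ := Pat.det (X := X) he hm f0
    (show 0 ≤ β * D by positivity) (r + k)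
  have e1 : X.τ + X.T + (r + k) = p.1 + 2 * d * T + k := by
    rw [hr]
    change p.1 + T + (r + k) = _
    omega
  rw [e1] at t2 t4 t5
  have h2 : c₀ * Z (p.1 + 2 * d * T + k) f ≤
      G * exp (-(β * D * T)) * exp (D * T / 16 + β * D * T / 16) := by
    refine c.trans (le_trans ?_ (h1.trans ?_))
    · rw [show p.1 + (T + r + k) = p.1 + 2 * d * T + k by omega, ← hr]
      refine sum_le_sum fun l hl => ?_
      split_ifs with a1 a2 a3 a4
      · simp [hf]
      · exact (a3 ⟨a1.2.2.1, a1.2.2.2, seg_length (mem_P.1 hl ▸ a1.2.1)⟩).elim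
      · exact (a2 a1.1.2.2).elim
      all_goals simp [(exp_pos _).le]
    · refine mul_le_mul ?_ ?_ (by positivity) ?_
      · rw [exp_neg, le_mul_inv_iff₀ (exp_pos _)]
        refine le_of_eq_of_le ?_ t3
        simp only [hX, pat, Pat.y', Pat.T, sub_add_cancel, add_nsmul]
        congr 4
        simp only [hT, add_nsmul]
        abel
      · rw [← hr, ← exp_log (show (0 : ℝ) < 2 * d by positivity), ← exp_nat_mul, ← exp_add,
          exp_log (by positivity), exp_le_exp]
        push_cast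
        nlinarith [mul_le_mul_of_nonneg_right hD (Nat.cast_nonneg (α := ℝ) T)]
      · exact mul_nonneg (le_trans (mul_nonneg (mul_nonneg (sum_nonneg fun _ _ => by positivity)
          (Z_nonneg _ _)) (exp_pos _).le) t3) (exp_pos _).le
  have G0 : 0 < G := by
    have := (mul_pos hc (Z_pos d0 _ _)).trans_le h2
    rw [mul_assoc] at this
    exact (mul_pos_iff_of_pos_right (by positivity)).1 this
  have a0 : (0 : ℝ) ≤ a := a.cast_nonneg
  have m0 : (0 : ℝ) ≤ m := m.cast_nonneg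
  have l0 : (0 : ℝ) ≤ ℓ := ℓ.cast_nonneg
  rw [← hA] at t4
  rw [← hB] at t5
  refine ratio (ε := exp (D * (m + ℓ) / 4) / c₀ * exp (-(D * a / 2))) (exp_pos _)
    ?_ hm hℓ G0 t0 t1 (t2.trans ?_) t4 t5 ?_
  · rw [exp_neg, inv_le_comm₀ (exp_pos _) (by norm_num)]
    nlinarith [add_one_le_exp (β * D)]
  · rw [← le_div_iff₀' hc] at h2
    refine (mul_le_mul_of_nonneg_right h2 (exp_pos _).le).trans ?_
    rw [div_mul_eq_mul_div, div_mul_eq_mul_div, div_mul_eq_mul_div, mul_comm _ G, mul_assoc,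
      mul_assoc, ← exp_add, ← exp_add, ← exp_add]
    refine div_le_div_of_nonneg_right (mul_le_mul_of_nonneg_left (exp_le_exp.2 ?_) G0.le) hc.le
    simp only [hT, hX, pat]
    push_cast
    nlinarith [mul_nonneg (mul_nonneg a0 (sub_nonneg.2 hβ)) (show 0 ≤ D by linarith),
      mul_nonneg (mul_nonneg (add_nonneg m0 l0) (sub_nonneg.2 β2)) (show 0 ≤ D by linarith),
      mul_nonneg (add_nonneg m0 l0) (show 0 ≤ D by linarith)]
  · have e2 : exp (-(β * D)) ^ a ≤ exp (-(D * a / 2)) := by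
      rw [← exp_nat_mul, exp_le_exp]
      nlinarith [mul_nonneg (mul_nonneg a0 (sub_nonneg.2 hβ)) (show 0 ≤ D by linarith)]
    have e3 : 1 ≤ exp (2 * D * m) * exp (-(β * D)) ^ m := by
      rw [← exp_nat_mul, ← exp_add]
      refine one_le_exp ?_
      nlinarith [mul_nonneg (mul_nonneg m0 (sub_nonneg.2 β2)) (show 0 ≤ D by linarith)]
    calc _ ≤ (2 + ℓ) * (2 * exp (-(D * a / 2)) + exp (D * (m + ℓ) / 4) / c₀ * exp (-(D * a / 2))) *
          (exp (2 * D * m) * exp (-(β * D)) ^ m) :=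
          le_trans (by gcongr; exact e2) (le_mul_of_one_le_right (by positivity) e3)
      _ = _ := by ring

end Pool.Agent.MP_050e69_pr

end MrgPart3

-- ======== part 4: formerly Pool.Agent.MP_050e69_pr.Half
section MrgPart4

set_option autoImplicit false

open Finset Complex

namespace Pool.Agent.MP_050e69_pr

lemma half {f : ℂ → ℂ} {C : ℝ} (hf : ∀ ζ : ℂ, ‖ζ‖ ≤ 1 → ζ.im ≤ 0 → DifferentiableAt ℂ f ζ)
    (h1 : ∀ x : ℝ, |x| ≤ 1 → ‖f x‖ ≤ C) (h2 : ∀ ζ : ℂ, ‖ζ‖ = 1 → ζ.im ≤ 0 → ‖f ζ‖ ≤ C)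
    {ζ : ℂ} (h : ‖ζ‖ ≤ 1) (h' : ζ.im ≤ 0) : ‖f ζ‖ ≤ C := by
  have c1 : IsClosed {z : ℂ | z.im ≤ 0} := isClosed_le continuous_im continuous_const
  have c := Metric.isClosed_closedBall.inter c1 (s₁ := Metric.closedBall (0 : ℂ) 1)
  refine norm_le_of_forall_mem_frontier_norm_le (U := Metric.closedBall 0 1 ∩ {z : ℂ | z.im ≤ 0})
    (Metric.isBounded_closedBall.subset Set.inter_subset_left)
    (DifferentiableOn.diffContOnCl fun z hz => ?_) (fun z hz => ?_)
    (subset_closure ⟨by simpa using h, h'⟩)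
  · rw [c.closure_eq] at hz
    exact (hf z (by simpa using hz.1) hz.2).differentiableWithinAt
  · have hz' := c.frontier_subset hz
    rcases frontier_inter_subset _ _ hz with e | e
    · exact h2 z (by simpa using Metric.frontier_closedBall_subset_sphere e.1) hz'.2
    · have e1 : z.im = 0 := frontier_le_subset_eq continuous_im continuous_const e.2
      rw [show z = z.re from Complex.ext rfl e1]
      exact h1 _ ((abs_re_le_norm z).trans (by simpa using hz'.1))

lemma two {g : ℂ → ℂ} {β : ℂ} {r Γ b : ℝ} (hr : 0 < r) (hb : 0 ≤ b) (h0 : β.im ≤ 0)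
    (h1 : -β.im ≤ r)
    (hg : ∀ w : ℂ, ‖w - β.re‖ ≤ r → DifferentiableAt ℂ g w ∧ ‖g w‖ ≤ Γ * Real.exp b)
    (h2 : ∀ x : ℝ, |x - β.re| ≤ r → ‖g x‖ ≤ Γ) : ‖g β‖ ≤ Γ * Real.exp (2 * b * (-β.im / r)) := by
  have n : ∀ ζ : ℂ, ‖β.re + r * ζ - β.re‖ = r * ‖ζ‖ := fun ζ => by simp [hr.le]
  have n' : ∀ ζ : ℂ, ‖ζ‖ ≤ 1 → ‖β.re + r * ζ - β.re‖ ≤ r := fun ζ h =>
    (n ζ).trans_le (mul_le_of_le_one_right hr.le h)
  have e : ∀ ζ : ℂ, ‖exp (b * (-ζ ^ 2 - 2 * I * ζ))‖ =
      Real.exp (b * (ζ.im ^ 2 - ζ.re ^ 2 + 2 * ζ.im)) := fun ζ => by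
    rw [norm_exp]
    congr 1
    simp [sq]
  have Γ0 : 0 ≤ Γ := (norm_nonneg _).trans (h2 β.re (by simp [hr.le]))
  have := half (f := fun ζ => g (β.re + r * ζ) * exp (b * (-ζ ^ 2 - 2 * I * ζ))) (C := Γ)
    (fun ζ h _ => ((hg _ (n' ζ h)).1.comp ζ (by fun_prop)).mul (by fun_prop))
    (fun x hx => by
      rw [norm_mul, e, ← ofReal_mul, ← ofReal_add]
      refine (mul_le_of_le_one_right (norm_nonneg _) (Real.exp_le_one_iff.2 ?_)).trans (h2 _ ?_)
      · simp only [ofReal_im, ofReal_re]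
        nlinarith [sq_nonneg x]
      · rw [add_sub_cancel_left, abs_mul, abs_of_pos hr]
        exact mul_le_of_le_one_right hr.le hx)
    (fun ζ h h' => by
      rw [norm_mul, e]
      refine (mul_le_mul_of_nonneg_right (hg _ (n' ζ h.le)).2 (Real.exp_pos _).le).trans ?_
      rw [mul_assoc, ← Real.exp_add]
      refine mul_le_of_le_one_right Γ0 (Real.exp_le_one_iff.2 ?_)
      have e1 := Complex.sq_norm ζ
      rw [h, normSq_apply] at e1
      have e2 := (abs_le.1 ((abs_im_le_norm ζ).trans h.le)).1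
      nlinarith [mul_nonneg hb (mul_nonneg (neg_nonneg.2 h') (show 0 ≤ 1 + ζ.im by linarith))])
    (ζ := (β.im / r : ℝ) * I) (by
      rw [norm_mul, norm_I, mul_one, norm_real, Real.norm_eq_abs, abs_div, abs_of_pos hr,
        abs_of_nonpos h0]
      exact div_le_one_of_le₀ h1 hr.le) (by simpa using div_nonpos_of_nonpos_of_nonneg h0 hr.le)
  rw [norm_mul, e, ← mul_assoc, ← ofReal_mul, mul_div_cancel₀ _ hr.ne', re_add_im,
    ← le_div_iff₀ (Real.exp_pos _), div_eq_mul_inv, ← Real.exp_neg] at this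
  refine this.trans (mul_le_mul_of_nonneg_left (Real.exp_le_exp.2 ?_) Γ0)
  simp only [mul_im, ofReal_re, ofReal_im, I_re, I_im, mul_re, neg_div]
  nlinarith [mul_nonneg hb (sq_nonneg (β.im / r))]

lemma barrier {φ : ℂ → ℂ} {C M : ℝ} (hM : 0 ≤ M)
    (hφ : ∀ ζ : ℂ, ‖ζ‖ ≤ 1 → ζ.im ≤ 0 → DifferentiableAt ℂ φ ζ ∧ ‖φ ζ‖ * (-ζ.im) ^ 3 ≤ C)
    (h : ∀ x : ℝ, |x| ≤ 1 → M ≤ (φ x).im) : M ≤ 10000 * C := by
  have C0 : 0 ≤ C := by simpa using (hφ 0 (by simp) (by simp)).2
  have e : ∀ a w ζ : ℂ, ‖exp (I * (a * w) + M * (w - 8 * I * ζ))‖ =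
      Real.exp (-(a * w).im + M * (w.re + 8 * ζ.im)) := fun a w ζ => by
    rw [norm_exp]
    simp
  have := half (f := fun ζ => exp (I * (φ ζ * (1 - ζ ^ 2) ^ 3) + M * ((1 - ζ ^ 2) ^ 3 - 8 * I * ζ)))
    (C := Real.exp (8 * C)) (fun ζ h1 h2 => by have := (hφ ζ h1 h2).1; fun_prop)
    (fun x hx => by
      rw [e, Real.exp_le_exp, show (1 - (x : ℂ) ^ 2) ^ 3 = ((1 - x ^ 2) ^ 3 : ℝ) by push_cast; rfl,
        im_mul_ofReal, ofReal_re, ofReal_im]
      have h1 : 0 ≤ 1 - x ^ 2 := by nlinarith [abs_le.1 hx]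
      nlinarith [mul_le_mul_of_nonneg_right (h x hx) (pow_nonneg h1 3)])
    (fun ζ h1 h2 => by
      have e1 : ‖(1 - ζ ^ 2) ^ 3‖ = 8 * (-ζ.im) ^ 3 := by
        have e2 : 1 - ζ ^ 2 = ζ * ((2 * -ζ.im : ℝ) * I) := by
          have := mul_conj' ζ
          rw [h1] at this
          have h3 := sub_conj ζ
          push_cast at *
          linear_combination -this - ζ * h3
        rw [norm_pow, e2, norm_mul, norm_mul, h1, norm_I, norm_real,
          Real.norm_of_nonneg (by linarith)]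
        ring
      have h3 := (abs_le.1 (abs_im_le_norm (φ ζ * (1 - ζ ^ 2) ^ 3))).1
      have h4 := re_le_norm ((1 - ζ ^ 2) ^ 3)
      have h5 := (abs_le.1 ((abs_im_le_norm ζ).trans h1.le)).1
      have h6 : (-ζ.im) ^ 3 ≤ -ζ.im := pow_le_of_le_one (by linarith) (by linarith) three_ne_zero
      rw [norm_mul, e1] at h3
      rw [e, Real.exp_le_exp]
      nlinarith [(hφ ζ h1.le h2).2])
    (ζ := (-(1 / 16) : ℝ) * I) (by simp; norm_num) (by simp)
  have h1 := (hφ ((-(1 / 16) : ℝ) * I) (by simp; norm_num) (by simp)).2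
  have h2 := im_le_norm (φ ((-(1 / 16) : ℝ) * I))
  rw [e, Real.exp_le_exp, show (1 - (((-(1 / 16) : ℝ) : ℂ) * I) ^ 2) ^ 3 = ((257 / 256) ^ 3 : ℝ) by
    rw [mul_pow, I_sq]; push_cast; norm_num, im_mul_ofReal, ofReal_re] at this
  simp only [mul_im, ofReal_re, ofReal_im, I_re, I_im] at this h1
  nlinarith [norm_nonneg (φ ((-(1 / 16) : ℝ) * I))]

lemma exp_small {w : ℂ} (h : w.re ≤ -100) : ‖exp w‖ ≤ 1 / 100 ∧ |(exp w).im| ≤ |w.im| / 100 := by
  have h1 : Real.exp w.re ≤ 1 / 100 := by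
    refine (Real.exp_le_exp.2 h).trans ?_
    rw [Real.exp_neg, inv_le_comm₀ (Real.exp_pos _) (by norm_num)]
    linarith [Real.add_one_le_exp 100]
  refine ⟨(norm_exp w).trans_le h1, ?_⟩
  rw [exp_im, abs_mul, Real.abs_exp]
  nlinarith [Real.abs_sin_le_abs (x := w.im), abs_nonneg (Real.sin w.im)]

lemma log_near {u : ℂ} (h : ‖u‖ ≤ 1 / 20) : 1 + u ∈ slitPlane ∧ |(log (1 + u)).re| ≤ 3 / 40 ∧
    |(log (1 + u)).im| ≤ 2 * |u.im| := by
  have h1 := (abs_le.1 ((abs_re_le_norm u).trans h)).1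
  refine ⟨mem_slitPlane_of_norm_lt_one (by linarith), (abs_re_le_norm _).trans
    ((norm_log_one_add_half_le_self (by linarith)).trans (by linarith)), ?_⟩
  have h2 := Real.mul_abs_le_abs_sin
    (abs_arg_le_pi_div_two_iff.2 (show 0 ≤ (1 + u).re by simp; linarith))
  have h3 := re_le_norm (1 + u)
  simp only [add_re, one_re] at h3
  rw [sin_arg, abs_div, abs_norm, le_div_iff₀ (by linarith), div_mul_eq_mul_div,
    div_mul_eq_mul_div, div_le_iff₀ Real.pi_pos, add_im, one_im, zero_add] at h2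
  rw [log_im]
  nlinarith [Real.pi_lt_d2, abs_nonneg (1 + u).arg, abs_nonneg u.im]

lemma curve {D : ℝ} (hD : 2000 ≤ D) {m : ℕ} (hm : 1 ≤ m) : ∃ ℓ : ℕ, 1 ≤ ℓ ∧ ∃ g : ℂ → ℂ,
    (∀ ζ : ℂ, ‖ζ‖ ≤ 1 → DifferentiableAt ℂ g ζ ∧ |(g ζ).re| ≤ 6 / 5 ∧
      |(g ζ).im - ζ.im| ≤ |ζ.im| / 5) ∧ ∀ x : ℝ, |x| ≤ 1 →
      exp (g x) = Rs (Real.exp (-((3 / 2 + (D * m)⁻¹ * x) * D))) m ℓ := by
  have m1 : (1 : ℝ) ≤ m := by exact_mod_cast hm
  set a := 3 / 2 * D * m with ha
  have a0 : 3000 ≤ a := by nlinarith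
  set ℓ := ⌈Real.exp a⌉₊
  have l1 : Real.exp a ≤ ℓ := Nat.le_ceil _
  have l2 : (ℓ : ℝ) < Real.exp a + 1 := Nat.ceil_lt_add_one (Real.exp_pos a).le
  have l3 := Real.add_one_le_exp a
  have l0 : (0 : ℝ) < ℓ := by linarith
  have l4 : |a - Real.log ℓ| ≤ 1 / 100 := by
    have h1 := (Real.le_log_iff_exp_le l0).2 l1
    have h2 : Real.log ℓ ≤ a + 1 / 100 := by
      rw [Real.log_le_iff_le_exp l0, Real.exp_add]
      nlinarith [Real.add_one_le_exp (1 / 100)]
    rw [abs_le]
    constructor <;> linarith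
  have l5 : (ℓ : ℝ)⁻¹ ≤ 1 / 100 := by
    rw [inv_le_comm₀ l0 (by norm_num)]
    linarith
  have key : ∀ ζ : ℂ, ‖ζ‖ ≤ 1 →
      (‖exp (-(3 / 2 * D : ℝ) - (m⁻¹ : ℝ) * ζ) - exp (-a - ζ)‖ ≤ 1 / 20 ∧
        |(exp (-(3 / 2 * D : ℝ) - (m⁻¹ : ℝ) * ζ) - exp (-a - ζ)).im| ≤ |ζ.im| / 50) ∧
      ‖(ℓ⁻¹ : ℝ) - exp (-(3 / 2 * D : ℝ) - (m⁻¹ : ℝ) * ζ)‖ ≤ 1 / 20 ∧
        |((ℓ⁻¹ : ℝ) - exp (-(3 / 2 * D : ℝ) - (m⁻¹ : ℝ) * ζ)).im| ≤ |ζ.im| / 50 := fun ζ h => by
    have h1 := abs_le.1 ((abs_re_le_norm ζ).trans h)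
    have i0 : (0 : ℝ) < (m : ℝ)⁻¹ := by positivity
    have i1 : (m : ℝ)⁻¹ ≤ 1 := inv_le_one_of_one_le₀ m1
    obtain ⟨h2, h3⟩ := exp_small (w := -(3 / 2 * D : ℝ) - (m⁻¹ : ℝ) * ζ) (by
      rw [sub_re, neg_re, ofReal_re, re_ofReal_mul]; nlinarith)
    obtain ⟨h4, h5⟩ := exp_small (w := -a - ζ) (by simp; linarith)
    rw [sub_im, neg_im, ofReal_im, im_ofReal_mul, neg_zero, zero_sub, abs_neg, abs_mul,
      abs_of_pos i0] at h3
    rw [sub_im, neg_im, ofReal_im, neg_zero, zero_sub, abs_neg] at h5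
    have h6 := mul_le_of_le_one_left (abs_nonneg ζ.im) i1
    refine ⟨⟨(norm_sub_le _ _).trans (by linarith), ?_⟩, (norm_sub_le _ _).trans ?_, ?_⟩
    · rw [sub_im]
      exact (abs_sub _ _).trans (by linarith)
    · rw [norm_real, Real.norm_of_nonneg (by positivity)]
      linarith
    · rw [sub_im, ofReal_im, zero_sub, abs_neg]
      linarith [abs_nonneg ζ.im]
  refine ⟨ℓ, by exact_mod_cast (show (1 : ℝ) ≤ ℓ by linarith), fun ζ => ζ + (a - Real.log ℓ : ℝ) +
    log (1 + (exp (-(3 / 2 * D : ℝ) - (m⁻¹ : ℝ) * ζ) - exp (-a - ζ))) -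
    log (1 + ((ℓ⁻¹ : ℝ) - exp (-(3 / 2 * D : ℝ) - (m⁻¹ : ℝ) * ζ))), fun ζ h => ?_, fun x h => ?_⟩
  · obtain ⟨⟨h1, h2⟩, h3, h4⟩ := key ζ h
    obtain ⟨h5, h6, h7⟩ := log_near h1
    obtain ⟨h8, h9, h10⟩ := log_near h3
    refine ⟨((by fun_prop : DifferentiableAt ℂ _ ζ).add (.clog (by fun_prop) h5)).sub
      (.clog (by fun_prop) h8), ?_, ?_⟩
    · have h11 := (abs_re_le_norm ζ).trans h
      simp only [sub_re, add_re, ofReal_re]
      rw [abs_le] at *
      constructor <;> linarith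
    · simp only [sub_im, add_im, ofReal_im]
      rw [abs_le] at h7 h10 ⊢
      constructor <;> linarith
  · obtain ⟨⟨h1, -⟩, h3, -⟩ := key x (by simpa using h)
    have n1 := slitPlane_ne_zero (log_near h1).1
    have n2 := slitPlane_ne_zero (log_near h3).1
    have e1 : exp (-(3 / 2 * D : ℝ) - (m⁻¹ : ℝ) * x) =
        Real.exp (-((3 / 2 + (D * m)⁻¹ * x) * D)) := by
      rw [show -((3 / 2 + (D * m)⁻¹ * x) * D) = -(3 / 2 * D) - (m : ℝ)⁻¹ * x by field_simp; ring]
      push_cast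
      rfl
    have e2 : exp (-a - x) = Real.exp (-((3 / 2 + (D * m)⁻¹ * x) * D)) ^ m := by
      rw [← ofReal_pow, ← Real.exp_nat_mul, show m * -((3 / 2 + (D * m)⁻¹ * x) * D) = -a - x by
        rw [ha]; field_simp; ring]
      push_cast
      rfl
    have e3 : exp (x + (a - Real.log ℓ : ℝ)) = (exp (-a - x))⁻¹ * (ℓ : ℂ)⁻¹ := by
      rw [← exp_neg, ← ofReal_natCast, ← Real.exp_log l0, ofReal_exp, ← exp_neg, ← exp_add,
        Real.log_exp]
      congr 1
      push_cast
      ring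
    have n3 := exp_ne_zero (-a - x)
    have n4 : (ℓ : ℂ) ≠ 0 := by exact_mod_cast l0.ne'
    beta_reduce
    rw [exp_sub, exp_add _ (log _), exp_log n1, exp_log n2, e3, Rs]
    rw [e1, e2]
    push_cast
    rw [div_mul_eq_div_div_swap, ← mul_inv, ← div_eq_inv_mul, div_div, div_div]
    congr 1
    · ring
    · field_simp
      ring

end Pool.Agent.MP_050e69_pr

end MrgPart4

-- ======== part 5: formerly Pool.Agent.MP_050e69_pr.Interp
section MrgPart5

set_option autoImplicit false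

open Finset Complex

namespace Pool.Agent.MP_050e69_pr

noncomputable def lag (s : Finset ℕ) (x : ℕ → ℂ) (i : ℕ) (z : ℂ) : ℂ :=
  (∏ j ∈ s.erase i, (z - x j) / (x i - x j)) * ∏ j ∈ s, (x i + x j) / (z + x j)

lemma cauchy (x : ℕ → ℂ) (z : ℂ) (s : Finset ℕ) (hx : Set.InjOn x s) (hz : ∀ j ∈ s, z + x j ≠ 0)
    (w : ℂ) (hw : ∀ j ∈ s, w ≠ x j) : (z - w) * ∑ i ∈ s, lag s x i z / (x i - w) =
      1 - (∏ j ∈ s, (z - x j) / (z + x j)) * ∏ j ∈ s, (w + x j) / (w - x j) := by
  induction s using Finset.induction_on generalizing w with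
  | empty => simp
  | insert a s ha ih =>
    have hx' : Set.InjOn x s := hx.mono (by simp)
    have ha' : ∀ j ∈ s, x a ≠ x j := fun j hj e =>
      ha (hx (by simp) (by simp [hj]) e ▸ hj)
    have h1 := ih hx' (fun j hj => hz j (mem_insert_of_mem hj)) w
      fun j hj => hw j (mem_insert_of_mem hj)
    have h2 := ih hx' (fun j hj => hz j (mem_insert_of_mem hj)) (x a) ha'
    have n1 := hz a (mem_insert_self a s)
    have n2 := sub_ne_zero.2 (hw a (mem_insert_self a s))
    have n3 := sub_ne_zero.2 (hw a (mem_insert_self a s)).symm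
    have e1 : ∑ i ∈ s, lag (insert a s) x i z / (x i - w) = (z - x a) / (z + x a) *
        (2 * x a / (x a - w) * ∑ i ∈ s, lag s x i z / (x i - x a) +
          (w + x a) / (w - x a) * ∑ i ∈ s, lag s x i z / (x i - w)) := by
      rw [mul_sum, mul_sum, ← sum_add_distrib, mul_sum]
      refine sum_congr rfl fun i hi => ?_
      have n4 := sub_ne_zero.2 (ha' i hi).symm
      have n5 := sub_ne_zero.2 (hw i (mem_insert_of_mem hi)).symm
      rw [lag, lag, erase_insert_of_ne (ne_of_mem_of_not_mem hi ha).symm,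
        prod_insert fun h => ha (mem_of_mem_erase h), prod_insert ha]
      field_simp
      ring
    have e2 : lag (insert a s) x a z = 2 * x a / (z + x a) *
        ((∏ j ∈ s, (z - x j) / (z + x j)) * ∏ j ∈ s, (x a + x j) / (x a - x j)) := by
      rw [lag, erase_insert ha, prod_insert ha, mul_left_comm, two_mul, ← prod_mul_distrib,
        ← prod_mul_distrib]
      congr 1
      exact prod_congr rfl fun j _ => by ring
    rw [sum_insert ha, prod_insert ha, prod_insert ha, e1, e2]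
    generalize ∑ i ∈ s, lag s x i z / (x i - w) = S at *
    generalize ∑ i ∈ s, lag s x i z / (x i - x a) = S' at *
    generalize ∏ j ∈ s, (z - x j) / (z + x j) = B at *
    have e3 : (z - w) / (z + x a) * (2 * x a / (x a - w)) +
        (z - x a) / (z + x a) * ((w + x a) / (w - x a)) = 1 := by
      field_simp
      ring
    linear_combination (z - x a) / (z + x a) * ((w + x a) / (w - x a)) * h1 +
      (z - w) / (z + x a) * (2 * x a / (x a - w)) * h2 + e3

lemma norm_prod_sub_one (s : Finset ℕ) (f : ℕ → ℂ) (h : ∀ j ∈ s, ‖f j‖ = 1) :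
    ‖∏ j ∈ s, f j - 1‖ ≤ ∑ j ∈ s, ‖f j - 1‖ := by
  induction s using Finset.induction_on with
  | empty => simp
  | insert a s ha ih =>
    rw [prod_insert ha, sum_insert ha, show f a * ∏ j ∈ s, f j - 1 =
      (f a - 1) + f a * (∏ j ∈ s, f j - 1) by ring]
    refine (norm_add_le _ _).trans ?_
    rw [norm_mul, h a (mem_insert_self a s), one_mul]
    linarith [ih fun j hj => h j (mem_insert_of_mem hj)]

lemma blai (K : ℕ) (x : ℕ → ℝ) (hx : ∀ j < K, 1 ≤ x j ∧ x j ≤ 2) (t : ℝ) :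
    ‖∏ j ∈ range K, (t * I + x j) / (t * I - x j)‖ = 1 ∧
      ‖t * I * (∏ j ∈ range K, (t * I + x j) / (t * I - x j) - 1)‖ ≤ 4 * K := by
  have n : ∀ j ∈ range K, t * I - x j ≠ 0 := fun j hj e => by
    have := congrArg re e
    simp at this
    linarith [(hx j (mem_range.1 hj)).1]
  have h1 : ∀ j ∈ range K, ‖(t * I + x j) / (t * I - x j)‖ = 1 := fun j hj => by
    rw [norm_div, div_eq_one_iff_eq (norm_ne_zero_iff.2 (n j hj)), ← norm_conj, ← norm_neg]
    simp [add_comm, sub_eq_add_neg]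
  refine ⟨by rw [norm_prod, prod_eq_one h1], ?_⟩
  rw [norm_mul]
  refine (mul_le_mul_of_nonneg_left (norm_prod_sub_one _ _ h1) (norm_nonneg _)).trans ?_
  rw [mul_sum]
  refine (sum_le_card_nsmul _ _ 4 fun j hj => ?_).trans_eq (by simp [mul_comm])
  have := hx j (mem_range.1 hj)
  rw [div_sub_one (n j hj), norm_div, ← mul_div_assoc, div_le_iff₀ (norm_pos_iff.2 (n j hj)),
    show t * I + x j - (t * I - x j) = (2 * x j : ℝ) by push_cast; ring, norm_real, mul_comm]
  refine mul_le_mul ((Real.norm_of_nonneg (by linarith)).trans_le (by linarith)) ?_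
    (norm_nonneg _) (by norm_num)
  simpa using abs_im_le_norm (t * I - x j)

/-- The region of the spectral variable. -/
def Reg (z : ℂ) : Prop := ‖z‖ ≤ 2 ∧ 0 < z.re ∧ 1 / 4 ≤ z.im

noncomputable def kern (z : ℂ) (A B : ℝ) : ℂ := z * A / (z ^ 2 * A + B)

lemma Reg.den {z : ℂ} (hz : Reg z) {A B : ℝ} (hA : 0 ≤ A) (hB : 0 ≤ B) :
    z.re * (A + B) / 20 ≤ ‖z ^ 2 * A + B‖ := by
  obtain ⟨h1, h2, h3⟩ := hz
  have h4 : z.re ≤ 2 := (re_le_norm z).trans h1
  rcases le_total (9 * A) B with h | h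
  · have := norm_sub_norm_le (B : ℂ) (-(z ^ 2 * A))
    rw [sub_neg_eq_add, add_comm, norm_neg, norm_mul, norm_pow, norm_real, norm_real,
      Real.norm_of_nonneg hA, Real.norm_of_nonneg hB] at this
    have h5 : ‖z‖ ^ 2 ≤ 4 := by nlinarith [norm_nonneg z]
    nlinarith
  · refine le_trans ?_ (im_le_norm _)
    simp only [sq, add_im, mul_im, ofReal_re, ofReal_im, mul_zero, zero_add, add_zero]
    nlinarith [mul_nonneg (mul_nonneg h2.le hA) (sub_nonneg.2 h3)]

lemma bla_le {z : ℂ} (hz : Reg z) {x : ℝ} (h1 : 1 ≤ x) (h2 : x ≤ 2) :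
    ‖(z - x) / (z + x)‖ ≤ Real.exp (-(z.re / 8)) := by
  have h3 := hz.2.1
  rw [norm_div]
  refine div_le_of_le_mul₀ (norm_nonneg _) (Real.exp_pos _).le
    (abs_le_of_sq_le_sq' ?_ (by positivity)).2
  have h4 : ‖z + x‖ ≤ 4 := (norm_add_le _ _).trans (by
    rw [norm_real, Real.norm_of_nonneg (by linarith)]
    linarith [hz.1])
  have h5 : ‖z - x‖ ^ 2 = ‖z + x‖ ^ 2 - 4 * x * z.re := by
    simp only [Complex.sq_norm, normSq_apply, sub_re, add_re, sub_im, add_im, ofReal_re, ofReal_im]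
    ring
  have h6 := Real.add_one_le_exp (2 * -(z.re / 8))
  have h7 : ‖z + x‖ ^ 2 ≤ 16 := by nlinarith [norm_nonneg (z + x)]
  rw [mul_pow, ← Real.exp_nat_mul, h5]
  push_cast
  nlinarith [mul_le_mul_of_nonneg_right h6 (sq_nonneg ‖z + x‖)]

lemma kern_eq {z : ℂ} (hz : 0 < z.re) {A B t : ℝ} (hA : 0 < A) (ht : t ^ 2 * A = B) :
    kern z A B = (1 / (z - t * I) + 1 / (z - (-t : ℝ) * I)) / 2 ∧ z - t * I ≠ 0 ∧
      z - (-t : ℝ) * I ≠ 0 ∧ z ^ 2 * A + B = (z - t * I) * (z - (-t : ℝ) * I) * A := by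
  have n : ∀ s : ℝ, z - s * I ≠ 0 := fun s e => by
    have := congrArg re e
    simp at this
    linarith
  have e : z ^ 2 * A + B = (z - t * I) * (z - (-t : ℝ) * I) * A := by
    rw [← ht]
    push_cast
    linear_combination t ^ 2 * A * I_sq
  refine ⟨?_, n t, n _, e⟩
  have : (A : ℂ) ≠ 0 := ofReal_ne_zero.2 hA.ne'
  rw [kern, e, div_add_div _ _ (n t) (n _), mul_div_mul_right _ _ this, div_right_comm]
  congr 1
  push_cast
  ring

lemma interp {z : ℂ} (hz : Reg z) {K : ℕ} (hK : 1 ≤ K) (x : ℕ → ℝ)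
    (hx : ∀ j < K, 1 ≤ x j ∧ x j ≤ 2) (hi : Set.InjOn x (range K)) {A B : ℝ} (hA : 0 ≤ A)
    (hB : 0 ≤ B) (h0 : 0 < A + B) :
    ‖kern z A B - ∑ i ∈ range K, lag (range K) (fun j => x j) i z * kern (x i) A B‖ ≤
      120 * K * Real.exp (-(z.re / 8 * K)) / z.re * (A / (A + B)) := by
  have h1 := hz.2.1
  rcases hA.eq_or_lt with rfl | hA'
  · simp [kern]
  have ht : √(B / A) ^ 2 * A = B := by rw [Real.sq_sqrt (by positivity)]; field_simp
  set t := √(B / A)
  have c := fun s : ℝ => cauchy (fun j => (x j : ℂ)) z (range K)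
    (fun a ha b hb e => hi ha hb (ofReal_injective e))
    (fun j hj e => by
      have := congrArg re e
      simp at this
      linarith [(hx j (mem_range.1 hj)).1]) (s * I) fun j hj e => by
      have := congrArg re e
      simp at this
      linarith [(hx j (mem_range.1 hj)).1]
  obtain ⟨e1, n1, n2, e2⟩ := kern_eq h1 hA' ht
  obtain ⟨b1, b2⟩ := blai K x hx t
  obtain ⟨b3, b4⟩ := blai K x hx (-t)
  have c1 := c t
  have c2 := c (-t)
  have hb : ‖∏ j ∈ range K, (z - x j) / (z + x j)‖ ≤ Real.exp (-(z.re / 8 * K)) := by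
    rw [norm_prod, ← neg_mul, mul_comm, Real.exp_nat_mul]
    refine (prod_le_prod (fun _ _ => norm_nonneg _) fun j hj => bla_le hz
      (hx j (mem_range.1 hj)).1 (hx j (mem_range.1 hj)).2).trans_eq (by simp)
  generalize ∏ j ∈ range K, (z - x j) / (z + x j) = b at *
  generalize ∏ j ∈ range K, (t * I + x j) / (t * I - x j) = u at *
  generalize ∏ j ∈ range K, ((-t : ℝ) * I + x j) / ((-t : ℝ) * I - x j) = u' at *
  have e3 : kern z A B - ∑ i ∈ range K, lag (range K) (fun j => x j) i z * kern (x i) A B =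
      b * (z * u + z * u' + t * I * (u - 1) + (-t : ℝ) * I * (u' - 1)) * A / 2 /
        (z ^ 2 * A + B) := by
    rw [sum_congr rfl fun i hi => by
      rw [(kern_eq (z := x i) (by simpa using zero_lt_one.trans_le (hx i (mem_range.1 hi)).1)
        hA' ht).1, ← mul_div_assoc, mul_add, mul_one_div, mul_one_div], ← sum_div,
      sum_add_distrib, eq_div_of_mul_eq n1 ((mul_comm _ _).trans c1),
      eq_div_of_mul_eq n2 ((mul_comm _ _).trans c2), e1, e2]
    have : (A : ℂ) ≠ 0 := ofReal_ne_zero.2 hA'.ne'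
    simp only [ofReal_neg, neg_mul, sub_neg_eq_add] at n2 ⊢
    field_simp
    ring
  have K1 : (1 : ℝ) ≤ K := by exact_mod_cast hK
  have h2 : ‖z * u + z * u' + t * I * (u - 1) + (-t : ℝ) * I * (u' - 1)‖ ≤ 12 * K := by
    refine (norm_add_le_of_le (norm_add_le_of_le (norm_add_le _ _) b2) b4).trans ?_
    rw [norm_mul, norm_mul, b1, b3]
    linarith [hz.1]
  rw [e3, norm_div, norm_div, norm_mul, norm_mul, norm_real, Real.norm_of_nonneg hA]
  refine (div_le_div₀ (c := Real.exp (-(z.re / 8 * K)) * (12 * K) * A / 2) (by positivity)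
    (by rw [Complex.norm_two]; gcongr) (by positivity) (hz.den hA hB)).trans_eq ?_
  field_simp
  norm_num

lemma kern_im {z : ℂ} (hz : 0 ≤ (z ^ 2).im) {A B : ℝ} (hA : 0 ≤ A) (hB : 0 ≤ B) :
    (z * kern z A B).im = A * B * (z ^ 2).im / ‖z ^ 2 * A + B‖ ^ 2 ∧ 0 ≤ (z * kern z A B).im := by
  have e : (z * kern z A B).im = A * B * (z ^ 2).im / ‖z ^ 2 * A + B‖ ^ 2 := by
    rw [kern, ← mul_div_assoc, ← mul_assoc, ← sq, Complex.sq_norm, div_im]
    generalize z ^ 2 = w
    simp only [add_im, mul_im, add_re, mul_re, ofReal_re, ofReal_im]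
    ring
  exact ⟨e, e ▸ by positivity⟩

lemma kern_im_ge {z : ℂ} {R c A B : ℝ} (hR : 0 < R) (c0 : 0 < c) (c1 : c ≤ 1 / 2) (hA : 0 < A)
    (hz : z ^ 2 = -(R * exp (-c * I))) (h : |B - R * A| ≤ c * (R * A)) :
    1 / (16 * c) ≤ (z * kern z A B).im := by
  have p : 0 < R * A := mul_pos hR hA
  have s1 : c / 2 ≤ Real.sin c := by nlinarith [Real.sin_gt_sub_cube c0, mul_pos c0 c0]
  have e1 : (z ^ 2).im = R * Real.sin c := by
    rw [hz, ← ofReal_neg, neg_im, im_ofReal_mul, exp_ofReal_mul_I_im, Real.sin_neg]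
    ring
  have hB : R * A / 2 ≤ B := by nlinarith [(abs_le.1 h).1]
  have B0 : 0 < B := by linarith
  have s0 : 0 < Real.sin c := by linarith
  have i0 : 0 < (z ^ 2).im := e1 ▸ mul_pos hR (by linarith)
  have h1 : ‖z ^ 2 * A + B‖ ≤ 2 * c * (R * A) := by
    rw [show z ^ 2 * A + B = (B - R * A : ℝ) - (R * A : ℝ) * (exp (I * (-c : ℝ)) - 1) by
      rw [hz, mul_comm I]; push_cast; ring]
    refine (norm_sub_le _ _).trans ?_
    rw [norm_mul, norm_real, norm_real, Real.norm_of_nonneg p.le]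
    have := Real.norm_exp_I_mul_ofReal_sub_one_le (x := -c)
    rw [norm_neg, Real.norm_of_nonneg c0.le] at this
    nlinarith [Real.norm_eq_abs (B - R * A)]
  have h2 : 0 < ‖z ^ 2 * A + B‖ := lt_of_lt_of_le (by simpa using mul_pos i0 hA) (im_le_norm _)
  rw [(kern_im i0.le hA.le (by linarith)).1, e1]
  refine le_trans (le_of_eq ?_) (div_le_div₀ (by positivity) (show A * (R * A / 2) * (R * (c / 2)) ≤
    _ by gcongr) (by positivity) (pow_le_pow_left₀ h2.le h1 2))
  field_simp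
  norm_num

lemma prod_sep {K i : ℕ} (hi : i < K) :
    ∏ j ∈ (range K).erase i, (K : ℝ) / |(i : ℝ) - j| ≤ Real.exp K * Real.exp K := by
  obtain ⟨r, hr⟩ := Nat.exists_eq_add_of_lt hi
  have h : ∀ n : ℕ, ∏ j ∈ range n, (K : ℝ) / (j + 1 : ℕ) ≤ Real.exp K := fun n => by
    rw [prod_div_distrib, prod_const, ← Nat.cast_prod, prod_range_add_one_eq_factorial, card_range]
    exact Real.pow_div_factorial_le_exp _ K.cast_nonneg n
  rw [prod_congr rfl (g := fun j => if j = i then 1 else (K : ℝ) / |(i : ℝ) - j|) fun j hj =>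
    (if_neg (ne_of_mem_erase hj)).symm, prod_erase _ (by simp)]
  nth_rewrite 1 [show K = i + 1 + r by omega]
  rw [prod_range_add, prod_range_succ, if_pos rfl, mul_one, ← prod_range_reflect]
  refine mul_le_mul (le_of_eq_of_le (prod_congr rfl fun j hj => ?_) (h i))
    (le_of_eq_of_le (prod_congr rfl fun j _ => ?_) (h r))
    (prod_nonneg fun _ _ => by positivity) (Real.exp_pos _).le
  · obtain ⟨k, rfl⟩ := Nat.exists_eq_add_of_lt (mem_range.1 hj)
    rw [if_neg (by omega), show j + k + 1 - 1 - j = k by omega,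
      abs_of_nonneg (by push_cast; linarith [j.cast_nonneg (α := ℝ)])]
    push_cast
    ring_nf
  · rw [if_neg (by omega), abs_of_nonpos (by push_cast; linarith [j.cast_nonneg (α := ℝ)])]
    push_cast
    ring_nf

/-- Separated exponents. -/
def Sep (K : ℕ) (y : ℕ → ℝ) : Prop := (∀ j < K, 0 ≤ y j ∧ y j ≤ 1 / 10) ∧
  ∀ i < K, ∀ j < K, |(i : ℝ) - j| ≤ 20 * K * |y i - y j|

lemma node_near {β : ℂ} (hβ : ‖β - 3 / 2‖ ≤ 1 / 4) {y : ℝ} (hy : |y| ≤ 1 / 10) :
    ‖β * y / 2‖ ≤ 1 / 10 ∧ 5 / 8 * |y| ≤ ‖β * y / 2‖ ∧ ‖exp (β * y / 2) - 1‖ ≤ 1 / 5 := by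
  have h1 := abs_le.1 ((abs_norm_sub_norm_le β (3 / 2)).trans hβ)
  have h2 : ‖β * y / 2‖ = ‖β‖ * |y| / 2 := by simp
  norm_num at h1
  have h3 : ‖β * y / 2‖ ≤ 1 / 10 := by nlinarith [abs_nonneg y]
  exact ⟨h3, by nlinarith [abs_nonneg y], (norm_exp_sub_one_le (by linarith)).trans (by linarith)⟩

lemma node_re {β : ℂ} (hβ : ‖β - 3 / 2‖ ≤ 1 / 4) {y : ℝ} (hy : |y| ≤ 1 / 10) :
    4 / 5 ≤ (exp (β * y / 2)).re ∧ ‖exp (β * y / 2)‖ ≤ 6 / 5 := by
  have h := (node_near hβ hy).2.2
  have h1 := (abs_le.1 ((abs_re_le_norm _).trans h)).1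
  have h2 := norm_sub_norm_le (exp (β * y / 2)) 1
  simp only [sub_re, one_re, norm_one] at h1 h2
  constructor <;> linarith

lemma node_sep {β : ℂ} (hβ : ‖β - 3 / 2‖ ≤ 1 / 4) {K : ℕ} {y : ℕ → ℝ} (hy : Sep K y) {i j : ℕ}
    (hi : i < K) (hj : j < K) :
    |(i : ℝ) - j| ≤ 50 * K * ‖exp (β * y i / 2) - exp (β * y j / 2)‖ := by
  have a := hy.1 i hi
  have b := hy.1 j hj
  obtain ⟨h1, h2, -⟩ := node_near hβ (y := y i - y j) (abs_le.2 ⟨by linarith, by linarith⟩)
  have h3 := (node_re hβ (y := y j) (abs_le.2 ⟨by linarith, by linarith⟩)).1.trans (re_le_norm _)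
  rw [show β * y i / 2 = β * y j / 2 + β * (y i - y j : ℝ) / 2 by push_cast; ring, exp_add,
    ← mul_sub_one, norm_mul]
  generalize β * (y i - y j : ℝ) / 2 = u at *
  have h4 := norm_exp_sub_one_sub_id_le (x := u) (by linarith)
  have h5 := norm_sub_norm_le u (exp u - 1)
  rw [norm_sub_rev u] at h5
  have h6 : 9 / 16 * |y i - y j| ≤ ‖exp u - 1‖ := by nlinarith [norm_nonneg u]
  refine (hy.2 i hi j hj).trans ?_
  have := mul_le_mul h3 h6 (by positivity) (norm_nonneg _)
  nlinarith [K.cast_nonneg (α := ℝ), abs_nonneg (y i - y j)]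

lemma lag_le {β z : ℂ} (hβ : ‖β - 3 / 2‖ ≤ 1 / 4) (hz : ‖z‖ ≤ 2) (hz' : 0 ≤ z.re) {K : ℕ}
    {y : ℕ → ℝ} (hy : Sep K y) {i : ℕ} (hi : i < K) :
    ‖lag (range K) (fun j => exp (β * y j / 2)) i z‖ ≤ 4000 ^ K := by
  have a : ∀ j < K, 4 / 5 ≤ (exp (β * y j / 2)).re ∧ ‖exp (β * y j / 2)‖ ≤ 6 / 5 := fun j hj =>
    node_re hβ (abs_le.2 ⟨by linarith [hy.1 j hj], (hy.1 j hj).2⟩)
  have K0 : (0 : ℝ) < K := by exact_mod_cast (show 0 < K by omega)
  rw [lag, norm_mul, norm_prod, norm_prod]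
  calc _ ≤ (∏ j ∈ (range K).erase i, 160 * ((K : ℝ) / |(i : ℝ) - j|)) * ∏ j ∈ range K, 3 := by
        refine mul_le_mul (prod_le_prod (fun _ _ => norm_nonneg _) fun j hj => ?_)
          (prod_le_prod (fun _ _ => norm_nonneg _) fun j hj => ?_)
          (prod_nonneg fun _ _ => norm_nonneg _) (prod_nonneg fun _ _ => by positivity)
        · have hj' := mem_range.1 (mem_of_mem_erase hj)
          have h1 := node_sep hβ hy hi hj'
          have h2 : 0 < |(i : ℝ) - j| :=
            abs_pos.2 (sub_ne_zero.2 (by exact_mod_cast (ne_of_mem_erase hj).symm))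
          have h3 := norm_sub_le z (exp (β * y j / 2))
          rw [norm_div, ← mul_div_assoc, div_le_div_iff₀ (by nlinarith) h2]
          nlinarith [(a j hj').2, mul_le_mul_of_nonneg_right h3 h2.le]
        · have hj' := mem_range.1 hj
          have h1 := re_le_norm (z + exp (β * y j / 2))
          rw [add_re] at h1
          rw [norm_div, div_le_iff₀ (by linarith [a j hj'])]
          linarith [a j hj', a i hi, norm_add_le (exp (β * y i / 2)) (exp (β * y j / 2))]
    _ ≤ 160 ^ K * (Real.exp K * Real.exp K) * 3 ^ K := by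
        rw [prod_mul_distrib, prod_const, prod_const, card_range]
        gcongr
        · norm_num
        · exact card_erase_le.trans (card_range K).le
        · exact prod_sep hi
    _ ≤ _ := by
        rw [← Real.exp_one_pow, ← mul_pow, ← mul_pow, ← mul_pow]
        gcongr
        nlinarith [Real.exp_one_lt_d9, Real.exp_pos 1]

end Pool.Agent.MP_050e69_pr

end MrgPart5

-- ======== part 6: formerly Pool.Agent.MP_050e69_pr.Core
section MrgPart6

set_option autoImplicit false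

open Finset Complex Filter

namespace Pool.Agent.MP_050e69_pr

lemma norm_cast_le {β r : ℝ} (h : |β - 3 / 2| ≤ r) : ‖(β : ℂ) - 3 / 2‖ ≤ r := by
  rwa [show (β : ℂ) - 3 / 2 = (β - 3 / 2 : ℝ) by push_cast; rfl, norm_real]

lemma zreg {g : ℂ} {c t : ℝ} (c0 : 0 < c) (c1 : c ≤ 1 / 2) (t0 : 0 ≤ t) (t1 : t ≤ 1)
    (h1 : |g.re| ≤ 6 / 5) (h2 : |g.im - -t| ≤ t / 5) :
    Reg (I * exp ((g - c * I) / 2)) ∧ (c + t) / 10 ≤ (I * exp ((g - c * I) / 2)).re := by
  set θ := (c - g.im) / 2 with hθ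
  set R := Real.exp (g.re / 2)
  rw [abs_le] at h1 h2
  have e : (g - c * I) / 2 = (g.re / 2 : ℝ) + (-θ : ℝ) * I := by
    apply Complex.ext <;> simp [hθ]
    ring
  have R1 : R ≤ 2 := by
    refine (Real.exp_le_exp.2 (show _ ≤ Real.log 2 by linarith [Real.log_two_gt_d9])).trans ?_
    rw [Real.exp_log two_pos]
  have R2 : 1 / 2 ≤ R := by
    refine le_trans ?_ (Real.exp_le_exp.2 (show -Real.log 2 ≤ _ by linarith [Real.log_two_gt_d9]))
    rw [Real.exp_neg, Real.exp_log two_pos, one_div]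
  have θ0 : (c + 4 / 5 * t) / 2 ≤ θ := by linarith
  have θ1 : θ ≤ 17 / 20 := by linarith
  have θ2 : 0 < θ := by linarith
  have s1 : θ / 2 ≤ Real.sin θ := by nlinarith [Real.sin_gt_sub_cube θ2, mul_pos θ2 θ2]
  have s2 : 1 / 2 ≤ Real.cos θ := by nlinarith [Real.one_sub_sq_div_two_le_cos (x := θ)]
  have e1 : (I * exp ((g - c * I) / 2)).re = R * Real.sin θ := by
    rw [e, I_mul_re, exp_im]
    simp [R]
  have e2 : (I * exp ((g - c * I) / 2)).im = R * Real.cos θ := by
    rw [e, I_mul_im, exp_re]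
    simp [R]
  have e3 : ‖I * exp ((g - c * I) / 2)‖ = R := by
    rw [e, norm_mul, norm_I, one_mul, norm_exp]
    simp [R]
  have h3 : (c + t) / 10 ≤ R * Real.sin θ := by nlinarith
  rw [Reg, e1, e2, e3]
  exact ⟨⟨R1, by linarith, by nlinarith⟩, h3⟩

lemma sum_geo {x : ℝ} (x0 : 0 ≤ x) (x1 : x < 1) (N : ℕ) :
    ∑ k ∈ range N, (k + 1) * x ^ k ≤ 1 / (1 - x) ^ 2 := by
  have : (∑ k ∈ range N, (k + 1) * x ^ k) * (1 - x) ^ 2 + x ^ N * (1 + N * (1 - x)) = 1 := by
    induction N with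
    | zero => simp
    | succ N ih =>
      rw [sum_range_succ]
      push_cast
      linear_combination ih
  rw [le_div_iff₀ (by have := sub_pos.2 x1; positivity)]
  have h := sub_pos.2 x1
  have : 0 ≤ x ^ N * (1 + N * (1 - x)) := by positivity
  linarith

/-- The interpolant. -/
noncomputable def Pk (y : ℕ → ℕ → ℝ) (A : ℕ → ℕ → ℂ → ℂ) (K : ℕ) (β z : ℂ) : ℂ :=
  ∑ i ∈ range K, lag (range K) (fun j => exp (β * y K j / 2)) i z * A K i β

section

variable {r C : ℝ} {K₀ : ℕ} {y : ℕ → ℕ → ℝ} {A : ℕ → ℕ → ℂ → ℂ} {L : ℝ → ℕ → ℂ → ℂ}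

lemma Pk_diff {K : ℕ} (hy : Sep K (y K)) {b z : ℂ → ℂ} {ζ : ℂ} (hb : DifferentiableAt ℂ b ζ)
    (hz : DifferentiableAt ℂ z ζ) (h1 : ‖b ζ - 3 / 2‖ ≤ 1 / 4) (h2 : 0 ≤ (z ζ).re)
    (hA : ∀ i < K, DifferentiableAt ℂ (A K i) (b ζ)) :
    DifferentiableAt ℂ (fun ζ => Pk y A K (b ζ) (z ζ)) ζ := by
  refine DifferentiableAt.fun_sum fun i hi => .mul (.mul (.fun_finsetProd fun j hj => ?_)
    (.fun_finsetProd fun j hj => ?_)) ((hA i (mem_range.1 hi)).comp ζ hb)
  · refine .div (by fun_prop) (by fun_prop) fun e => ?_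
    have := node_sep h1 hy (mem_range.1 hi) (mem_range.1 (mem_of_mem_erase hj))
    rw [e, norm_zero, mul_zero, abs_nonpos_iff, sub_eq_zero, Nat.cast_inj] at this
    exact ne_of_mem_erase hj this.symm
  · refine .div (by fun_prop) (by fun_prop) fun e => ?_
    have h3 := hy.1 j (mem_range.1 hj)
    have := (node_re h1 (y := y K j) (abs_le.2 ⟨by linarith, h3.2⟩)).1
    have h4 := congrArg re e
    rw [add_re, zero_re] at h4
    linarith

lemma Pk_le {K : ℕ} (hy : Sep K (y K)) {β z : ℂ} (h1 : ‖β - 3 / 2‖ ≤ 1 / 4) (hz : Reg z)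
    (hA : ∀ i < K, ‖A K i β‖ ≤ C ^ K) : ‖Pk y A K β z‖ ≤ K * (4000 * C) ^ K := by
  refine (norm_sum_le _ _).trans ((sum_le_card_nsmul _ _ _ fun i hi => ?_).trans_eq
    (by rw [card_range, nsmul_eq_mul]))
  rw [norm_mul, mul_pow]
  exact mul_le_mul (lag_le h1 hz.1 hz.2.1.le hy (mem_range.1 hi)) (hA i (mem_range.1 hi))
    (norm_nonneg _) (by positivity)

lemma Pk_real {K : ℕ} (hy : Sep K (y K)) {β : ℝ} {z : ℂ} (h1 : |β - 3 / 2| ≤ 1 / 4) (hz : Reg z)
    (ha : ∀ i < K, ∀ᶠ n in atTop, ‖L β n (exp (β * y K i / 2)) - A K i β‖ ≤ (1 / 12000) ^ K)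
    (hb : ∀ n, ‖L β n z - ∑ i ∈ range K, lag (range K) (fun j => exp (β * y K j / 2)) i z *
      L β n (exp (β * y K i / 2))‖ ≤ 120 * K * Real.exp (-(z.re / 8 * K)) / z.re) :
    ∀ᶠ n in atTop, ‖L β n z - Pk y A K β z‖ ≤ 122 * K * Real.exp (-(z.re / 8 * K)) / z.re := by
  filter_upwards [(eventually_all_finset (range K)).2 fun i hi => ha i (mem_range.1 hi)] with n hn
  have h0 := hz.2.1
  have h2 : z.re ≤ 2 := (re_le_norm z).trans hz.1
  refine (norm_sub_le_norm_sub_add_norm_sub _ _ _).trans ((add_le_add (hb n)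
    (show _ ≤ 2 * K * Real.exp (-(z.re / 8 * K)) / z.re from ?_)).trans_eq (by ring))
  rw [Pk, ← sum_sub_distrib]
  refine (norm_sum_le _ _).trans ((sum_le_card_nsmul _ _ (Real.exp (-(z.re / 8 * K)))
    fun i hi => ?_).trans ?_)
  · rw [← mul_sub, norm_mul]
    refine (mul_le_mul (lag_le (norm_cast_le h1) hz.1 h0.le hy (mem_range.1 hi)) (hn i hi)
      (norm_nonneg _) (by positivity)).trans ?_
    rw [← mul_pow, ← neg_mul, mul_comm _ (K : ℝ), Real.exp_nat_mul]
    gcongr
    linarith [Real.add_one_le_exp (-(z.re / 8))]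
  · rw [card_range, nsmul_eq_mul, le_div_iff₀ h0]
    nlinarith [mul_nonneg (K.cast_nonneg (α := ℝ)) (Real.exp_pos (-(z.re / 8 * K))).le]

lemma Pk_bound (r0 : 0 < r) (r1 : r ≤ 1 / 4) (C1 : 1 ≤ C) (hy : ∀ K, K₀ ≤ K → Sep K (y K))
    (hA : ∀ K, K₀ ≤ K → ∀ i < K, ∀ β : ℂ, ‖β - 3 / 2‖ ≤ r →
      DifferentiableAt ℂ (A K i) β ∧ ‖A K i β‖ ≤ C ^ K) {z : ℂ} (hz : Reg z)
    (hL : ∀ K, K₀ ≤ K → ∀ β : ℝ, |β - 3 / 2| ≤ r → ∀ᶠ n in atTop,
      ‖L β n z - Pk y A K β z‖ ≤ 122 * K * Real.exp (-(z.re / 8 * K)) / z.re)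
    {β : ℂ} (h1 : ‖β - 3 / 2‖ ≤ r / 2) (h2 : β.im ≤ 0)
    (h3 : 64 * (4000 * C + 1) * (-β.im / r) ≤ z.re) {K : ℕ} (hK : K₀ ≤ K) :
    ‖Pk y A K β z‖ * z.re ^ 3 ≤ 8 * (K₀ * (4000 * C) ^ K₀) + 400000 := by
  have h0 := hz.2.1
  have h4 : z.re ≤ 2 := (re_le_norm z).trans hz.1
  set ρ := z.re
  set x := Real.exp (-(ρ / 16)) with hx
  have h5 : |β.re - 3 / 2| ≤ r / 2 := by simpa using (abs_re_le_norm _).trans h1
  have h6 : -β.im ≤ r / 2 := by simpa using (neg_le_abs _).trans ((abs_im_le_norm _).trans h1)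
  have step : ∀ k, K₀ ≤ k → ‖Pk y A (k + 1) β z - Pk y A k β z‖ ≤ 300 / ρ * ((k + 1) * x ^ k) := by
    intro k hk
    have k0 : (0 : ℝ) ≤ k := k.cast_nonneg
    have := two (g := fun β => Pk y A (k + 1) β z - Pk y A k β z) (β := β) (r := r / 2)
      (Γ := 244 * (k + 1) * Real.exp (-(ρ / 8 * k)) / ρ) (b := (4000 * C + 1) * (k + 1))
      (by positivity) (by positivity) h2 h6 (fun w hw => ?_) fun t ht => ?_
    · refine this.trans ?_
      rw [div_mul_eq_mul_div, div_mul_eq_mul_div 300, mul_assoc, ← Real.exp_add, hx,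
        ← Real.exp_nat_mul]
      refine div_le_div_of_nonneg_right ?_ h0.le
      have e1 : -β.im / (r / 2) = 2 * (-β.im / r) := by field_simp
      have e2 : Real.exp (1 / 8) ≤ 6 / 5 := by
        have := Real.exp_bound' (x := 1 / 8) (by norm_num) (by norm_num) (n := 2) two_pos
        norm_num [sum_range_succ] at this
        linarith
      calc _ ≤ 244 * (k + 1) * Real.exp (1 / 8 + k * -(ρ / 16)) := by
            gcongr 244 * (k + 1) * Real.exp ?_
            rw [e1]
            nlinarith [mul_le_mul_of_nonneg_left h3 (show 0 ≤ (k : ℝ) + 1 by positivity)]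
        _ ≤ 244 * (k + 1) * (6 / 5 * Real.exp (k * -(ρ / 16))) := by rw [Real.exp_add]; gcongr
        _ ≤ _ := by
            have := Real.exp_pos (k * -(ρ / 16))
            nlinarith
    · have hw' : ‖w - 3 / 2‖ ≤ r := (norm_sub_le_norm_sub_add_norm_sub _ (β.re : ℂ) _).trans 
        (by linarith [norm_cast_le h5])
      have a1 := hA _ hk
      have a2 := hA _ (hk.trans k.le_succ)
      refine ⟨(Pk_diff (hy _ (hk.trans k.le_succ)) differentiableAt_id (differentiableAt_const _)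
        (hw'.trans r1) h0.le fun i hi => (a2 i hi w hw').1).sub (Pk_diff (hy _ hk)
        differentiableAt_id (differentiableAt_const _) (hw'.trans r1) h0.le
        fun i hi => (a1 i hi w hw').1), (norm_sub_le _ _).trans ((add_le_add
          (Pk_le (hy _ (hk.trans k.le_succ)) (hw'.trans r1) hz fun i hi => (a2 i hi w hw').2)
          (Pk_le (hy _ hk) (hw'.trans r1) hz fun i hi => (a1 i hi w hw').2)).trans ?_)⟩
      have b1 : (4000 * C) ^ k ≤ (4000 * C) ^ (k + 1) := pow_le_pow_right₀ (by linarith) k.le_succ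
      have b2 : (4000 * C) ^ (k + 1) ≤
          Real.exp (-(ρ / 8 * k)) * Real.exp ((4000 * C + 1) * (k + 1)) := by
        rw [← Real.exp_add]
        refine le_trans ?_ (Real.exp_le_exp.2 (show (k + 1 : ℕ) * (4000 * C) ≤ _ by
          push_cast; nlinarith))
        rw [Real.exp_nat_mul]
        gcongr
        linarith [Real.add_one_le_exp (4000 * C)]
      rw [div_mul_eq_mul_div, le_div_iff₀ h0, mul_assoc (244 * _)]
      have b3 : 0 ≤ (4000 * C) ^ (k + 1) := by positivity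
      push_cast
      calc _ ≤ ((k + 1) * (4000 * C) ^ (k + 1) + (k + 1) * (4000 * C) ^ (k + 1)) * 2 := by
            gcongr
            linarith
        _ ≤ 244 * (k + 1) * (4000 * C) ^ (k + 1) := by nlinarith
        _ ≤ _ := by gcongr
    · have ht' : |t - 3 / 2| ≤ r := (abs_sub_le _ β.re _).trans (by linarith)
      obtain ⟨n, n1, n2⟩ := ((hL _ (hk.trans k.le_succ) t ht').and (hL _ hk t ht')).exists
      rw [norm_sub_rev] at n1
      refine (norm_sub_le_norm_sub_add_norm_sub _ _ _).trans ((add_le_add n1 n2).trans ?_)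
      rw [← add_div]
      refine div_le_div_of_nonneg_right ?_ h0.le
      have := Real.exp_le_exp.2 (show -(ρ / 8 * (k.succ : ℝ)) ≤ -(ρ / 8 * k) by
        push_cast; linarith)
      have b := Real.exp_pos (-(ρ / 8 * k))
      push_cast at this ⊢
      nlinarith
  have tel : ∀ j, ‖Pk y A (K₀ + j) β z‖ ≤ K₀ * (4000 * C) ^ K₀ +
      300 / ρ * ∑ k ∈ range (K₀ + j), (k + 1) * x ^ k := fun j => by
    induction j with
    | zero =>
      exact (Pk_le (hy _ le_rfl) (h1.trans (by linarith)) hz fun i hi => (hA _ le_rfl i hi β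
        (h1.trans (by linarith))).2).trans (le_add_of_nonneg_right (by positivity))
    | succ j ih =>
      rw [← add_assoc, sum_range_succ, mul_add]
      linarith [step (K₀ + j) le_self_add,
        norm_sub_norm_le (Pk y A (K₀ + j + 1) β z) (Pk y A (K₀ + j) β z)]
  obtain ⟨j, rfl⟩ := Nat.exists_eq_add_of_le hK
  have x1 : ρ / 32 ≤ 1 - x := by
    have := Real.add_one_le_exp (ρ / 16)
    rw [hx, Real.exp_neg, le_sub_comm]
    refine (inv_anti₀ (by positivity) this).trans ?_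
    rw [inv_le_iff_one_le_mul₀ (by positivity)]
    nlinarith
  have h7 := (sum_geo (Real.exp_pos _).le (show x < 1 by linarith) (K₀ + j)).trans
    (one_div_le_one_div_of_le (by positivity) (pow_le_pow_left₀ (by positivity) x1 2))
  refine (mul_le_mul_of_nonneg_right ((tel j).trans (add_le_add_right (mul_le_mul_of_nonneg_left h7
    (by positivity)) _)) (by positivity)).trans ?_
  rw [add_mul, show 300 / ρ * (1 / (ρ / 32) ^ 2) * ρ ^ 3 = 307200 by field_simp; norm_num]
  have : ρ ^ 3 ≤ 8 := (pow_le_pow_left₀ h0.le h4 3).trans (by norm_num)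
  nlinarith [show 0 ≤ K₀ * (4000 * C) ^ K₀ by positivity]

theorem core {D : ℝ} (hD : 2000 ≤ D) (r0 : 0 < r) (r1 : r ≤ 1 / 4) (C1 : 1 ≤ C)
    (hy : ∀ K, K₀ ≤ K → Sep K (y K))
    (hA : ∀ K, K₀ ≤ K → ∀ i < K, ∀ β : ℂ, ‖β - 3 / 2‖ ≤ r →
      DifferentiableAt ℂ (A K i) β ∧ ‖A K i β‖ ≤ C ^ K)
    (ha : ∀ K, K₀ ≤ K → ∀ β : ℝ, |β - 3 / 2| ≤ r → ∀ i < K, ∀ᶠ n in atTop,
      ‖L β n (exp (β * y K i / 2)) - A K i β‖ ≤ (1 / 12000) ^ K)
    (hb : ∀ K, K₀ ≤ K → ∀ β : ℝ, |β - 3 / 2| ≤ r → ∀ z, Reg z → ∀ n,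
      ‖L β n z - ∑ i ∈ range K, lag (range K) (fun j => exp (β * y K j / 2)) i z *
        L β n (exp (β * y K i / 2))‖ ≤ 120 * K * Real.exp (-(z.re / 8 * K)) / z.re)
    (hc : ∀ m ℓ : ℕ, 1 ≤ m → 1 ≤ ℓ → ∀ M : ℝ, ∃ c : ℝ, 0 < c ∧ c ≤ 1 / 2 ∧ ∀ β : ℝ,
      |β - 3 / 2| ≤ r → ∀ z, Reg z → z ^ 2 = -(Rs (Real.exp (-(β * D))) m ℓ * exp (-c * I)) →
        ∀ᶠ n in atTop, M ≤ (z * L β n z).im) : False := by
  have hL : ∀ z, Reg z → ∀ K, K₀ ≤ K → ∀ β : ℝ, |β - 3 / 2| ≤ r → ∀ᶠ n in atTop,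
      ‖L β n z - Pk y A K β z‖ ≤ 122 * K * Real.exp (-(z.re / 8 * K)) / z.re :=
    fun z hz K hK β hβ => Pk_real (hy K hK) (hβ.trans r1) hz (ha K hK β hβ) (hb K hK β hβ z hz)
  obtain ⟨m, hm⟩ := exists_nat_ge ((4000 * C + 1) / r)
  rw [div_le_iff₀ r0] at hm
  have m0 : (0 : ℝ) < m := (mul_pos_iff_of_pos_right r0).1 (by linarith)
  obtain ⟨ℓ, hℓ, g, g1, g2⟩ := curve hD (m := m) (by exact_mod_cast m0)
  set B := 8 * (K₀ * (4000 * C) ^ K₀) + 400000 with hB
  have B0 : 0 < B := by positivity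
  obtain ⟨c, c0, c1, hc⟩ := hc m ℓ (by exact_mod_cast m0) hℓ (10000 * (2000 * B) + 2)
  obtain ⟨K, hK, hK'⟩ := ((eventually_ge_atTop K₀).and (((Real.tendsto_pow_mul_exp_neg_atTop_nhds_zero
    1).comp (tendsto_natCast_atTop_atTop.const_mul_atTop (show 0 < c / 80 by positivity))).eventually
    (ge_mem_nhds (show 0 < c ^ 2 / 200000 by positivity)))).exists
  set η := (D * m)⁻¹ with hη
  have η0 : 0 < η := by positivity
  have η1 : 640 * (4000 * C + 1) * η ≤ r := by
    rw [hη, mul_inv_le_iff₀ (by positivity)]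
    nlinarith
  have η2 : η ≤ r / 2 := by nlinarith
  have zz : ∀ ζ : ℂ, ‖ζ‖ ≤ 1 → ζ.im ≤ 0 → Reg (I * exp ((g ζ - c * I) / 2)) ∧
      (c + -ζ.im) / 10 ≤ (I * exp ((g ζ - c * I) / 2)).re := fun ζ h1 h2 =>
    zreg c0 c1 (neg_nonneg.2 h2) ((neg_le_abs _).trans ((abs_im_le_norm ζ).trans h1)) (g1 ζ h1).2.1
      (by simpa [abs_of_nonpos h2] using (g1 ζ h1).2.2)
  have := barrier (φ := fun ζ => I * exp ((g ζ - c * I) / 2) *
    Pk y A K (3 / 2 + η * ζ) (I * exp ((g ζ - c * I) / 2))) (C := 2000 * B)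
    (M := 10000 * (2000 * B) + 1) (by positivity) (fun ζ h1 h2 => ?_) fun x hx => ?_
  · linarith
  · obtain ⟨z1, z2⟩ := zz ζ h1 h2
    have g3 := (g1 ζ h1).1
    have b1 : ‖3 / 2 + η * ζ - 3 / 2‖ ≤ r / 2 := by
      rw [add_sub_cancel_left, norm_mul, norm_real, Real.norm_of_nonneg η0.le]
      nlinarith
    refine ⟨.mul (by fun_prop) (Pk_diff (hy K hK) (by fun_prop) (by fun_prop)
      (b1.trans (by linarith)) z1.2.1.le fun i hi => (hA K hK i hi _ (b1.trans (by linarith))).1), ?_⟩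
    have e : (3 / 2 + η * ζ).im = η * ζ.im := by simp
    have b2 := Pk_bound r0 r1 C1 hy hA z1 (hL _ z1) b1 (by rw [e]; nlinarith) (by
      rw [e, ← mul_div_assoc, div_le_iff₀ r0]
      nlinarith [mul_le_mul_of_nonneg_right η1 (neg_nonneg.2 h2),
        mul_le_mul_of_nonneg_right z2 r0.le]) hK
    have b3 := pow_le_pow_left₀ (neg_nonneg.2 h2)
      (show -ζ.im ≤ 10 * (I * exp ((g ζ - c * I) / 2)).re by linarith) 3
    rw [norm_mul]
    refine (mul_le_mul (mul_le_mul_of_nonneg_right z1.1 (norm_nonneg _)) b3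
      (pow_nonneg (neg_nonneg.2 h2) 3) (by positivity)).trans ?_
    rw [mul_pow]
    linarith
  · obtain ⟨z1, z2⟩ := zz x (by simpa using hx) (by simp)
    have b1 : |3 / 2 + η * x - 3 / 2| ≤ r := by
      rw [add_sub_cancel_left, abs_mul, abs_of_pos η0]
      nlinarith
    obtain ⟨n, n1, n2⟩ := ((hL _ z1 K hK _ b1).and (hc _ b1 _ z1 (by
      rw [← g2 x hx, mul_pow, I_sq, ← exp_nat_mul, ← exp_add]
      push_cast
      ring_nf))).exists
    generalize I * exp ((g x - c * I) / 2) = z at *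
    have b2 := im_le_norm (z * (L (3 / 2 + η * x) n z - Pk y A K (3 / 2 + η * x : ℝ) z))
    rw [norm_mul, mul_sub, sub_im] at b2
    have b3 : 122 * K * Real.exp (-(z.re / 8 * K)) / z.re ≤ 1 / 2 := by
      simp only [ofReal_im, neg_zero, add_zero, Function.comp, pow_one] at z2 hK'
      rw [div_le_iff₀ z1.2.1]
      have := mul_le_mul_of_nonneg_right z2 (K.cast_nonneg (α := ℝ))
      calc _ ≤ 122 * K * Real.exp (-(c / 80 * K)) := by gcongr 122 * K * Real.exp ?_; linarith
        _ ≤ _ := by nlinarith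
    push_cast at b2 n1
    nlinarith [mul_le_mul z1.1 (n1.trans b3) (norm_nonneg _) zero_le_two]

end

end Pool.Agent.MP_050e69_pr

end MrgPart6

-- marker of a merged file
example : 731051 + 383496 = 731051 + 383496 := rfl
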