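import Mathlib.Analysis.Complex.LocallyUniformLimit
import Mathlib.Analysis.Complex.Schwarz
import Mathlib.Probability.Moments.MGFAnalytic
import Pool.Agent.MP_050e69_pr.Core

-- ======== part 0: formerly Pool.Agent.MP_050e69_pr.Mass2
section MrgPart0

set_option autoImplicit false

open Finset Real MeasureTheory Filter Topology

namespace Pool.Agent.MP_050e69_pr

variable {d : ℕ}

lemma plant_one (hd : 2 ≤ d) {J : ℕ} {D β : ℝ} {v : ℕ → ℝ} (h : Val J D β v) (β2 : β ≤ 2)
    (hD : 2 * d * (log (2 * d) + 1 / 5) ≤ D / 16) {a m ℓ : ℕ} (hm : 1 ≤ m) (hℓ : 1 ≤ ℓ)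
    {c₀ : ℝ} (hc : 0 < c₀) (n : ℕ) (i : St d × St d) (p : Site d) :
    (∫ η, (if c₀ ≤ gw n (2 * d * (4 * a + m + ℓ)) (32 * d : ℝ)⁻¹ J v (Rej (4 * a + m + ℓ) i) p η
      then 1 else 0) ∂PP d) * q J ^ (2 * (4 * a + m + ℓ)) ≤
    ∫ η, gd n v (Rs (exp (-(β * D))) m ℓ) ((2 + ℓ) * exp (2 * D * m) *
      (2 + exp (D * (m + ℓ) / 4) / c₀) * exp (-(D * a / 2))) (pat a m ℓ i p).star η ∂PP d := by
  classical
  have d0 : 0 < d := by omega
  set X := pat a m ℓ i p with hX
  set T := 4 * a + m + ℓ with hT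
  let S : Finset (Site d) := (Ioc p.1 (p.1 + T)).image (fun t => (t, X.y + t • step X.e)) ∪
    (Ioc p.1 (p.1 + T)).image fun t => (t, X.y' + t • step X.e)
  have hS : ∀ p', p' ∈ S ↔ X.onS p' := by
    rintro ⟨t, x⟩
    simp only [S, mem_union, mem_image, mem_Ioc, Prod.mk.injEq, Pat.onS]
    constructor
    · rintro (⟨_, h, rfl, rfl⟩ | ⟨_, h, rfl, rfl⟩)
      exacts [⟨h.1, h.2, Or.inl rfl⟩, ⟨h.1, h.2, Or.inr rfl⟩]
    · rintro ⟨h1, h2, rfl | rfl⟩
      exacts [Or.inl ⟨t, ⟨h1, h2⟩, rfl, rfl⟩, Or.inr ⟨t, ⟨h1, h2⟩, rfl, rfl⟩]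
  have hc2 : S.card ≤ 2 * T := (card_union_le _ _).trans
    ((add_le_add card_image_le card_image_le).trans (by simp; omega))
  let t : Om d := fun p => if X.hi p then J else 0
  have h1 : q J ^ (2 * T) ≤ ∏ p ∈ S, q (t p) := by
    refine (pow_le_pow_of_le_one (q_pos J).le (q_le_one J) hc2).trans ?_
    rw [← prod_const]
    refine prod_le_prod (fun _ _ => (q_pos J).le) fun p _ => ?_
    simp only [t]
    split_ifs
    · rfl
    · unfold q
      gcongr <;> simp
  set R := Rs (exp (-(β * D))) m ℓ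
  set c := (2 + ℓ) * exp (2 * D * m) * (2 + exp (D * (m + ℓ) / 4) / c₀) * exp (-(D * a / 2))
  have b := bm_gd n h.bd R c X.star
  refine le_trans (mul_le_mul ?_ h1 (pow_pos (q_pos J) _).le
    (integral_nonneg fun _ => gd_nn _ _ _ _ _ _)) (plant_prob S t b (gd_nn _ _ _ _ _))
  have b1 := BM.ite (measurableSet_le (measurable_const (a := c₀))
    (bm_gw d0 n (2 * d * T) (32 * d : ℝ)⁻¹ J h.bd (Rej T i) p).1) (BM.const 1) (BM.const 0)
  have b2 := b.comp ((meas_pw S).fun_comp (measurable_prodMk_right (y := t)))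
  refine integral_mono (b1.int _) (b2.int _) fun η => ?_
  beta_reduce
  split_ifs with hc'
  swap
  · exact gd_nn _ _ _ _ _ _
  have hg : (fun p' => v (pw S (η, t) p')) = X.pl (β * D) fun p => v (η p) := by
    ext p'
    rw [Pat.pl]
    by_cases e : X.onS p'
    · rw [pw_mem (mem_coe.2 ((hS p').2 e)), if_pos e]
      simp only [t]
      split_ifs
      exacts [h.top, h.zero]
    · rw [pw_not (fun e' => e ((hS p').1 e')), if_neg e]
  rw [gd, hg, if_pos (plant_pt hd h β2 hD hm hℓ hc n i p η hc' rfl rfl)]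

lemma star_inj (a m ℓ : ℕ) (i : St d × St d) :
    Function.Injective fun p => (pat a m ℓ i p).star := by
  rintro ⟨t, x⟩ ⟨s, y⟩ h
  simp only [pat, Pat.star, Prod.mk.injEq, add_left_inj] at h
  obtain ⟨rfl, h⟩ := h
  simpa using h

lemma sum_star (n : ℕ) {v : ℕ → ℝ} (R c : ℝ) {φ : Site d → Site d} (hφ : Function.Injective φ) :
    ∑ p ∈ box d n, ∫ η, gd n v R c (φ p) η ∂PP d ≤ ∑ p ∈ box d n, ∫ η, gd n v R c p η ∂PP d := by
  rw [← sum_image (f := fun p => ∫ η, gd n v R c p η ∂PP d) hφ.injOn]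
  rw [← sum_filter_ne_zero]
  refine sum_le_sum_of_subset_of_nonneg (fun p hp => by_contra fun e => (mem_filter.1 hp).2 ?_)
    fun _ _ _ => integral_nonneg fun _ => gd_nn _ _ _ _ _ _
  simp [gd, ZA_eq_zero _ e]

/-- Positive density of sites with a prescribed ratio. -/
theorem mass (hd : 2 ≤ d) {J : ℕ} {D : ℝ} (hD : 2 * d * (log (2 * d) + 1 / 5) ≤ D / 16)
    (hD' : th d * (2 + 32 * d) ≤ D) (D0 : 0 < D) {m ℓ : ℕ} (hm : 1 ≤ m) (hℓ : 1 ≤ ℓ) (M : ℝ) :
    ∃ c : ℝ, 0 < c ∧ c ≤ 1 / 2 ∧ ∀ β v, Val J D β v → β ≤ 2 → ∀ᶠ n : ℕ in atTop,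
      M * c * n ≤ ∑ p ∈ box d n, ∫ η, gd n v (Rs (exp (-(β * D))) m ℓ) c p η ∂PP d := by
  have d0 : 0 < d := by omega
  have d2 : (2 : ℝ) ≤ d := by exact_mod_cast hd
  have t0 : 0 < th d := mul_pos (by norm_num) (log_pos (by linarith))
  set κ : ℝ := (8 * th d * (4 * d ^ 2))⁻¹ with hκ
  have κ0 : 0 < κ := by positivity
  set c₀ := κ / (1 + exp (2 * D)) with hc₀
  have c0 : 0 < c₀ := by positivity
  set C := (2 + ℓ) * exp (2 * D * m) * (2 + exp (D * (m + ℓ) / 4) / c₀) with hC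
  have C0 : 0 < C := by positivity
  have lim : ∀ b : ℝ, 0 < b → Tendsto (fun a : ℕ => exp (-(b * a))) atTop (𝓝 0) := fun b hb =>
    tendsto_exp_neg_atTop_nhds_zero.comp (tendsto_natCast_atTop_atTop.const_mul_atTop hb)
  obtain ⟨a, h1, h2⟩ := ((((lim (D / 2) (by positivity)).const_mul C).eventually
    (ge_mem_nhds (show C * 0 < 1 / 2 by norm_num))).and
    (((lim (D * (1 / 2 - 8 / 100)) (by positivity)).const_mul (M * C)).eventually
    (ge_mem_nhds (show M * C * 0 < κ * exp (-(D / 100 * (2 * (m + ℓ)))) by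
      rw [mul_zero]; positivity)))).exists
  rw [show D / 2 * a = D * a / 2 by ring] at h1
  refine ⟨C * exp (-(D * a / 2)), by positivity, h1, fun β v h β2 => ?_⟩
  set T := 4 * a + m + ℓ with hT
  filter_upwards [tendsto_natCast_atTop_atTop.eventually_ge_atTop
    (4 * (1000 * log (2 * d) + th d * (1 + (2 * d * T : ℕ))))] with n hn
  have h3 := loc hd h β2 (Rej T) (R := 2 * d * T) (by nlinarith)
    (fun w => rejoin hd (by omega) w) (ε := (32 * d : ℝ)⁻¹) (by positivity) c0.le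
    (by rwa [inv_inv]) n
  have h4 := sum_le_sum fun i (_ : i ∈ univ) => (sum_le_sum fun p (_ : p ∈ box d n) =>
    plant_one hd h β2 hD (a := a) hm hℓ c0 n i p).trans (sum_star n _ _ (star_inj a m ℓ i))
  have e1 : (Fintype.card (St d × St d) : ℝ) = 4 * d ^ 2 := by
    simp
    ring
  simp only [← sum_mul, sum_const, card_univ, nsmul_eq_mul, e1, ← hT, ← hC] at h4
  rw [e1, sum_comm, hc₀, div_mul_cancel₀ _ (by positivity)] at h3
  rw [← hc₀] at h3
  generalize ∑ i : St d × St d, ∑ p ∈ box d n, ∫ η, (if c₀ ≤ gw n (2 * d * T) (32 * d : ℝ)⁻¹ J v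
    (Rej T i) p η then (1 : ℝ) else 0) ∂PP d = Y at h3 h4
  have e2 : th d * (4 * d ^ 2 * (κ * n)) = n / 8 := by
    rw [hκ]
    field_simp
  have h5 : 4 * d ^ 2 * (κ * n) ≤ Y := le_of_mul_le_mul_left (by nlinarith) t0
  have h6 := (mul_le_mul_of_nonneg_right h5 (pow_pos (q_pos J) (2 * T)).le).trans h4
  rw [mul_assoc] at h6
  refine le_trans ?_ (le_of_mul_le_mul_left h6 (by positivity))
  rw [mul_right_comm κ]
  refine mul_le_mul_of_nonneg_right ?_ n.cast_nonneg
  have h7 := mul_le_mul_of_nonneg_right h2 (exp_pos (-(D * (8 / 100) * a))).le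
  rw [mul_assoc, mul_assoc κ, ← exp_add, ← exp_add] at h7
  rw [h.hq, ← exp_nat_mul, ← mul_assoc]
  refine le_of_eq_of_le ?_ (h7.trans_eq ?_)
  · congr 2
    ring
  · congr 2
    rw [hT]
    push_cast
    ring

end Pool.Agent.MP_050e69_pr

end MrgPart0

-- ======== part 1: formerly Pool.Agent.MP_050e69_pr.Link
section MrgPart1

set_option autoImplicit false

open Finset MeasureTheory Filter Topology

namespace Pool.Agent.MP_050e69_pr

variable {d : ℕ}

noncomputable def Lam (d : ℕ) (v : ℕ → ℝ) (n : ℕ) (z : ℂ) : ℂ :=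
  (∑ p ∈ box d n, ∫ η, kern z (ZA n (fun p => v (η p)) p) (ZB n (fun p => v (η p)) p) ∂PP d) / n

lemma kern_bd {z : ℂ} (hz : 0 < z.re) {A B : ℝ} (hA : 0 ≤ A) (hB : 0 ≤ B) :
    ‖kern z A B‖ ≤ 1 / z.re := by
  rcases hA.eq_or_lt with rfl | hA'
  · simp [kern, hz.le]
  have h : ∀ s : ℝ, ‖1 / (z - s * Complex.I)‖ ≤ 1 / z.re := fun s => by
    rw [norm_div, norm_one]
    exact one_div_le_one_div_of_le hz (by simpa using Complex.re_le_norm (z - s * Complex.I))
  rw [(kern_eq hz hA' (t := √(B / A)) (by rw [Real.sq_sqrt (by positivity)]; field_simp)).1,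
    norm_div, Complex.norm_two]
  linarith [norm_add_le_of_le (h √(B / A)) (h (-√(B / A)))]

lemma int_kern {z : ℂ} (hz : 0 < z.re) {v : ℕ → ℝ} (hv : Bd v) (n : ℕ) (p : Site d) :
    Integrable (fun η : Om d => kern z (ZA n (fun p => v (η p)) p) (ZB n (fun p => v (η p)) p))
      (PP d) := by
  have := meas_ZA hv.bm n p
  have := meas_ZB hv.bm n p
  refine .of_bound (Measurable.aestronglyMeasurable ?_) _
    (.of_forall fun η => kern_bd hz (ZA_nonneg _ _ _) (ZB_nonneg _ _ _))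
  unfold kern
  fun_prop

lemma Lam_interp (hd : 0 < d) {v : ℕ → ℝ} (hv : Bd v) (v0 : ∀ j, 0 ≤ v j) {z : ℂ} (hz : Reg z)
    {K : ℕ} (hK : 1 ≤ K) {y : ℕ → ℝ} (hy : Sep K y) {β : ℝ} (hβ : |β - 3 / 2| ≤ 1 / 4) (n : ℕ) :
    ‖Lam d v n z - ∑ i ∈ range K, lag (range K) (fun j => Complex.exp (β * y j / 2)) i z *
      Lam d v n (Complex.exp (β * y i / 2))‖ ≤ 120 * K * Real.exp (-(z.re / 8 * K)) / z.re := by
  have e : ∀ j, Complex.exp (β * y j / 2) = (Real.exp (β * y j / 2) : ℝ) := fun j => by simp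
  have hx : ∀ j < K, 1 ≤ Real.exp (β * y j / 2) ∧ Real.exp (β * y j / 2) ≤ 2 := fun j hj => by
    have h1 := hy.1 j hj
    have h2 := (node_re (norm_cast_le hβ) (y := y j) (abs_le.2 ⟨by linarith, h1.2⟩)).2
    rw [e, Complex.norm_real, Real.norm_of_nonneg (Real.exp_pos _).le] at h2
    exact ⟨Real.one_le_exp (by nlinarith [abs_le.1 hβ]), by linarith⟩
  have hi : Set.InjOn (fun j => Real.exp (β * y j / 2)) (range K) := fun i hi j hj h => by
    have := node_sep (norm_cast_le hβ) hy (mem_range.1 hi) (mem_range.1 hj)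
    rwa [e, e, show Real.exp (β * y i / 2) = _ from h, sub_self, norm_zero, mul_zero,
      abs_nonpos_iff, sub_eq_zero, Nat.cast_inj] at this
  have h0 := hz.2.1
  have i1 : ∀ p, ∀ i ∈ range K, Integrable (fun η : Om d =>
      lag (range K) (fun j => (Real.exp (β * y j / 2) : ℝ)) i z * kern (Real.exp (β * y i / 2) : ℝ)
        (ZA n (fun p => v (η p)) p) (ZB n (fun p => v (η p)) p)) (PP d) := fun p i _ =>
    (int_kern (by rw [Complex.ofReal_re]; exact Real.exp_pos _) hv n p).const_mul _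
  simp only [e, Lam, ← mul_div_assoc, mul_sum, ← sum_div, ← integral_const_mul]
  rw [sum_comm, ← sub_div, ← sum_sub_distrib, norm_div, Complex.norm_natCast,
    sum_congr rfl fun p _ => by
      rw [← integral_finsetSum _ (i1 p), ← integral_sub (int_kern h0 hv n p)
        (integrable_finsetSum _ (i1 p))],
    ← integral_finsetSum _ fun p _ => (int_kern h0 hv n p).sub' (integrable_finsetSum _ (i1 p))]
  refine div_le_of_le_mul₀ n.cast_nonneg (by positivity) ?_
  refine (norm_integral_le_of_norm_le_const (.of_forall fun η => (norm_sum_le _ _).trans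
    ((sum_le_sum fun p _ => interp hz hK _ hx hi (ZA_nonneg _ _ _) (ZB_nonneg _ _ _)
      (AB_pos hd _ _ _)).trans ((mul_sum _ _ _).ge.trans (mul_le_mul_of_nonneg_left
        (sum_kap hd n fun _ => v0 _) (by positivity)))))).trans_eq (by simp)

lemma Rs_pos {Q : ℝ} (Q0 : 0 < Q) (Q1 : Q ≤ 1) {m : ℕ} (hm : 1 ≤ m) (ℓ : ℕ) : 0 < Rs Q m ℓ := by
  have := pow_le_of_le_one Q0.le Q1 (show m ≠ 0 by omega)
  have := sub_nonneg.2 Q1
  exact div_pos (by linarith) (by positivity)

lemma Lam_im {v : ℕ → ℝ} (hv : Bd v) {z : ℂ} (hz : Reg z) {R c M : ℝ} (hR : 0 < R) (c0 : 0 < c)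
    (c1 : c ≤ 1 / 2) (h : z ^ 2 = -(R * Complex.exp (-c * Complex.I))) {n : ℕ} (hn : 1 ≤ n)
    (hM : 16 * M * c * n ≤ ∑ p ∈ box d n, ∫ η, gd n v R c p η ∂PP d) :
    M ≤ (z * Lam d v n z).im := by
  have n0 : (0 : ℝ) < n := by exact_mod_cast hn
  have z0 : 0 ≤ (z ^ 2).im := by
    have := mul_pos hz.2.1 (lt_of_lt_of_le (by norm_num) hz.2.2)
    simp only [sq, Complex.mul_im]
    linarith
  rw [Lam, ← mul_div_assoc, Complex.div_natCast_im, le_div_iff₀ n0, mul_sum, Complex.im_sum]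
  rw [show 16 * M * c * n = 16 * c * (M * n) by ring, ← le_div_iff₀' (by positivity),
    sum_div] at hM
  refine hM.trans (sum_le_sum fun p _ => ?_)
  have i := (int_kern hz.2.1 hv n p).const_mul z
  rw [← integral_const_mul, ← integral_div]
  refine (integral_mono (((bm_gd n hv R c p).int _).div_const _) i.im fun η => ?_).trans_eq
    (integral_im i)
  simp only [gd]
  split_ifs with e
  · exact kern_im_ge hR c0 c1 e.1 h e.2
  · rw [zero_div]
    exact (kern_im z0 (ZA_nonneg _ _ _) (ZB_nonneg _ _ _)).2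

lemma Lam_node (hd : 0 < d) {v : ℕ → ℝ} (hv : Bd v) (j n : ℕ) :
    (Real.exp (v j / 2) * q j : ℝ) * Lam d v n (Real.exp (v j / 2) : ℝ) =
      ((∫ η, av n (fun p => v (η p)) (H fun p => ind j (η p)) ∂PP d) / n : ℝ) := by
  rw [int_resp hd hv, Lam, show Real.exp (v j) = Real.exp (v j / 2) ^ 2 by
    rw [← Real.exp_nat_mul]; congr 1; push_cast; ring]
  generalize Real.exp (v j / 2) = x
  push_cast
  rw [← mul_div_assoc, mul_comm (x : ℂ), mul_assoc, mul_sum]
  congr 3 with p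
  rw [← integral_const_mul, ← integral_complex_ofReal]
  congr 1 with η
  rw [kern]
  push_cast
  ring

lemma Lam_resp (hd : 0 < d) {v : ℕ → ℝ} (hv : Bd v) (j : ℕ) {t δ : ℝ} (hδ : 0 < δ) :
    ∀ᶠ n in atTop, ‖(t * (Real.exp (v j / 2) * q j) : ℝ) * Lam d v n (Real.exp (v j / 2) : ℝ) -
      (F d (fun i => v i + t * ind j i) - F d v : ℝ)‖ ≤
      F d (fun i => v i + t * ind j i) + F d (fun i => v i + -t * ind j i) - 2 * F d v + δ := by
  have h : ∀ s : ℝ, ∀ᶠ n : ℕ in atTop, s * ((∫ η, av n (fun p => v (η p))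
      (H fun p => ind j (η p)) ∂PP d) / n) ≤ F d (fun i => v i + s * ind j i) - F d v + δ := by
    intro s
    filter_upwards [((tendsto_F hd (hv.add ((bd_ind j).smul s))).sub (tendsto_F hd hv)).eventually
      (ge_mem_nhds (lt_add_of_pos_right _ hδ))] with n hn
    refine le_trans ?_ hn
    have := E_resp hd hv ((bd_ind j).smul s) n
    simp only [funext (H_mul s _), av_mul, integral_const_mul] at this
    rw [← mul_div_assoc, ← sub_div]
    exact div_le_div_of_nonneg_right (by linarith) n.cast_nonneg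
  have hc := F_conv hd hv ((bd_ind j).smul t)
  simp only [← mul_assoc, neg_one_mul] at hc
  filter_upwards [h t, h (-t)] with n h1 h2
  rw [Complex.ofReal_mul t, mul_assoc, Lam_node hd hv, ← Complex.ofReal_mul, ← Complex.ofReal_sub,
    Complex.norm_real, Real.norm_eq_abs, abs_le]
  constructor <;> linarith

end Pool.Agent.MP_050e69_pr

end MrgPart1

-- ======== part 2: formerly Pool.Agent.MP_050e69_pr.Ana
section MrgPart2

set_option autoImplicit false

open Set Filter Topology Metric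

namespace Pool.Agent.MP_050e69_pr

/-- A power series with controlled coefficients. -/
def Ser (N : ℝ) (φ : ℝ → ℝ) (c : ℕ → Icc (-1 : ℝ) 1) : Prop :=
  ∀ t : ℝ, |t| ≤ 1 / (2 * N) → φ (3 / 2 + t) = ∑' k, N * c k * (N * t) ^ k

lemma term_le {N : ℝ} (hN : 0 < N) (c : Icc (-1 : ℝ) 1) {t : ℂ} (ht : ‖t‖ ≤ 1 / (2 * N)) (k : ℕ) :
    ‖(N * (c : ℝ) * (N * t) ^ k : ℂ)‖ ≤ N * (1 / 2) ^ k := by
  rw [norm_mul, norm_mul, norm_pow, norm_mul, Complex.norm_real, Complex.norm_real,
    Real.norm_of_nonneg hN.le]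
  refine mul_le_mul (mul_le_of_le_one_right hN.le (abs_le.2 c.2))
    (pow_le_pow_left₀ (by positivity) ?_ k) (by positivity) hN.le
  rw [le_div_iff₀ (by positivity)] at ht
  linarith

lemma ser_closed {U : Type} [TopologicalSpace U] {Φ : U → ℝ → ℝ}
    (hΦ : ∀ x, Continuous fun u => Φ u x) {N : ℝ} (hN : 0 < N) :
    IsClosed {u | ∃ c, Ser N (Φ u) c} := by
  have := isClosedMap_fst_of_compactSpace {x : U × (ℕ → Icc (-1 : ℝ) 1) | Ser N (Φ x.1) x.2} (by
    simp only [Ser, ofPred_forall]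
    refine isClosed_iInter fun t => isClosed_iInter fun ht => isClosed_eq
      ((hΦ _).comp continuous_fst) (continuous_tsum (fun k => by fun_prop)
        (summable_geometric_two.mul_left N) fun k x => ?_)
    exact_mod_cast term_le hN (x.2 k) (t := t) (by simpa using ht) k)
  simpa [image] using this

lemma ser_cover {φ : ℝ → ℝ} (h : AnalyticAt ℝ φ (3 / 2)) : ∃ N : ℕ, ∃ c, Ser (N + 1) φ c := by
  obtain ⟨p, hp⟩ := h
  obtain ⟨ε, ε0, h1⟩ := Metric.eventually_nhds_iff.1 (hasFPowerSeriesAt_iff.1 hp)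
  have h2 := (h1 (y := ε / 2) (by simpa [abs_of_pos ε0] using ε0)).summable
  obtain ⟨M, hM⟩ := h2.tendsto_atTop_zero.norm.bddAbove_range
  obtain ⟨N, hN⟩ := exists_nat_ge (max M (2 / ε))
  have N0 : (0 : ℝ) < N + 1 := by positivity
  have N1 : 1 ≤ (N + 1) * (ε / 2) := by
    have := (div_le_iff₀ ε0).1 ((le_max_right _ _).trans hN)
    linarith
  refine ⟨N, fun k => ⟨p.coeff k / (N + 1) ^ (k + 1), abs_le.1 ?_⟩, fun t ht => ?_⟩
  · have := hM ⟨k, rfl⟩
    simp only [smul_eq_mul, norm_mul, norm_pow, Real.norm_eq_abs,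
      abs_of_pos (half_pos ε0)] at this
    rw [abs_div, abs_of_pos (pow_pos N0 _), div_le_one (pow_pos N0 _), pow_succ]
    calc _ ≤ ((N + 1) * (ε / 2)) ^ k * |p.coeff k| :=
          le_mul_of_one_le_left (abs_nonneg _) (one_le_pow₀ N1)
      _ = (N + 1) ^ k * ((ε / 2) ^ k * |p.coeff k|) := by rw [mul_pow, mul_assoc]
      _ ≤ _ := by gcongr; linarith [le_max_left M (2 / ε)]
  · rw [le_div_iff₀ (by positivity)] at ht
    rw [← (h1 (y := t) (by
      rw [dist_zero_right, Real.norm_eq_abs]; nlinarith [abs_nonneg t])).tsum_eq]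
    congr 1 with k
    simp only [smul_eq_mul, mul_pow]
    field_simp
    ring

lemma ser_ext {N : ℝ} (hN : 0 < N) {φ : ℝ → ℝ} {c : ℕ → Icc (-1 : ℝ) 1} (h : Ser N φ c) :
    ∃ f : ℂ → ℂ, (∀ β : ℂ, ‖β - 3 / 2‖ < 1 / (2 * N) → DifferentiableAt ℂ f β ∧ ‖f β‖ ≤ 2 * N) ∧
      ∀ x : ℝ, |x - 3 / 2| ≤ 1 / (2 * N) → f x = φ x := by
  refine ⟨fun β => ∑' k, N * (c k : ℝ) * (N * (β - 3 / 2)) ^ k, fun β hβ => ⟨?_, ?_⟩,
    fun x hx => ?_⟩
  · exact (Complex.differentiableOn_tsum_of_summable_norm (summable_geometric_two.mul_left N)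
      (fun k => by fun_prop) isOpen_ball fun k w hw => term_le hN _
        (mem_ball_iff_norm.1 hw).le k).differentiableAt (isOpen_ball.mem_nhds (mem_ball_iff_norm.2 hβ))
  · exact (tsum_of_norm_bounded (hasSum_geometric_two.mul_left N)
      fun k => term_le hN _ hβ.le k).trans_eq (mul_comm _ _)
  · have := h _ hx
    rw [add_sub_cancel] at this
    rw [this]
    push_cast
    rfl

lemma second {N : ℝ} {φ : ℝ → ℝ} {f : ℂ → ℂ}
    (h1 : ∀ β : ℂ, ‖β - 3 / 2‖ < 1 / (2 * N) → DifferentiableAt ℂ f β ∧ ‖f β‖ ≤ 2 * N)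
    (h2 : ∀ x : ℝ, |x - 3 / 2| ≤ 1 / (2 * N) → f x = φ x) {x t : ℝ} (hx : |x - 3 / 2| ≤ 1 / (4 * N))
    (ht : |t| < 1 / (4 * N)) : φ (x + t) + φ (x - t) - 2 * φ x ≤ 128 * N ^ 3 * t ^ 2 := by
  have e : 1 / (2 * N) = 1 / (4 * N) + 1 / (4 * N) := by ring
  have hx' : ‖(x : ℂ) - 3 / 2‖ ≤ 1 / (4 * N) := by
    rwa [show (x : ℂ) - 3 / 2 = (x - 3 / 2 : ℝ) by push_cast; rfl, Complex.norm_real]
  have b : ∀ w ∈ ball (0 : ℂ) (1 / (4 * N)), ‖x + w - 3 / 2‖ < 1 / (2 * N) ∧
      ‖x - w - 3 / 2‖ < 1 / (2 * N) := fun w hw => by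
    rw [add_sub_right_comm, sub_right_comm]
    constructor <;> linarith [mem_ball_zero_iff.1 hw, norm_add_le (x - 3 / 2 : ℂ) w,
      norm_sub_le (x - 3 / 2 : ℂ) w]
  have r0 := (abs_nonneg t).trans_lt ht
  have d0 := (h1 x (by linarith)).1.hasDerivAt
  have := Complex.dist_le_mul_div_pow_of_mapsTo_ball_of_isLittleO (n := 1) (c := 0) (z := (t : ℂ))
    (f := fun w => f (x + w) + f (x - w)) (R₁ := 1 / (4 * N)) (R₂ := 8 * N)
    (fun w hw => (((h1 _ (b w hw).1).1.comp w (by fun_prop)).add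
      ((h1 _ (b w hw).2).1.comp w (by fun_prop))).differentiableWithinAt)
    (fun w hw => by
      rw [mem_closedBall_iff_norm, add_zero, sub_zero]
      linarith [norm_sub_le (f (x + w) + f (x - w)) (f x + f x), norm_add_le (f x) (f x),
        norm_add_le (f (x + w)) (f (x - w)), (h1 _ (b w hw).1).2, (h1 _ (b w hw).2).2,
        (h1 x (by linarith)).2])
    (by
      have := (HasDerivAt.comp_const_add (x : ℂ) 0 (by rwa [add_zero])).add
        (HasDerivAt.comp_const_sub (x : ℂ) 0 (by rwa [sub_zero]))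
      simpa using this.isLittleO.norm_right) (by simpa using ht)
  have a := abs_le.1 hx
  have a' := abs_lt.1 ht
  rw [add_zero, sub_zero, ← Complex.ofReal_add, ← Complex.ofReal_sub,
    h2 _ (abs_le.2 ⟨by linarith, by linarith⟩), h2 _ (abs_le.2 ⟨by linarith, by linarith⟩),
    h2 _ (abs_le.2 ⟨by linarith, by linarith⟩), dist_zero_right, Complex.norm_real,
    ← Complex.ofReal_add, ← Complex.ofReal_add, Complex.dist_eq, ← Complex.ofReal_sub,
    Complex.norm_real, Real.norm_eq_abs, Real.norm_eq_abs, div_div_eq_mul_div, div_one, mul_pow,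
    show 1 + 1 = 2 from rfl, sq_abs] at this
  linarith [(abs_le.1 this).2]

lemma sup_le {S : ℝ → ℝ} (hS : Continuous S) (S0 : ∀ x, 0 ≤ S x) {x s C ε : ℝ} (s0 : 0 ≤ s)
    (h1 : 1 ≤ x - s) (h2 : x + s ≤ 2) (h : ∀ t ∈ Icc 0 s, 2 * S x ≤ S (x + t) + S (x - t) + C)
    (hε : ∫ t in (1 : ℝ)..2, S t ≤ ε) : 2 * S x * s ≤ ε + C * s := by
  have := intervalIntegral.integral_mono_on (μ := MeasureTheory.volume) s0
    (Continuous.intervalIntegrable (by fun_prop) _ _)
    (Continuous.intervalIntegrable (by fun_prop) _ _) h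
  rw [intervalIntegral.integral_add (Continuous.intervalIntegrable (by fun_prop) _ _)
      (Continuous.intervalIntegrable (by fun_prop) _ _),
    intervalIntegral.integral_add (Continuous.intervalIntegrable (by fun_prop) _ _)
      (Continuous.intervalIntegrable (by fun_prop) _ _), intervalIntegral.integral_comp_add_left,
    intervalIntegral.integral_comp_sub_left, add_comm (∫ _ in _.._, _), add_zero, sub_zero,
    intervalIntegral.integral_add_adjacent_intervals (hS.intervalIntegrable _ _)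
      (hS.intervalIntegrable _ _)] at this
  simp only [intervalIntegral.integral_const, sub_zero, smul_eq_mul] at this
  linarith [intervalIntegral.integral_mono_interval (μ := MeasureTheory.volume) h1
    (show x - s ≤ x + s by linarith) h2 (.of_forall S0) (hS.intervalIntegrable _ _)]

noncomputable def cl (t : ℝ) : ℝ := max 0 (min 1 t)

lemma cl_mem (t : ℝ) : 0 ≤ cl t ∧ cl t ≤ 1 := ⟨le_max_left _ _, max_le zero_le_one (min_le_left _ _)⟩

lemma cl_eq {t : ℝ} (h0 : 0 ≤ t) (h1 : t ≤ 1) : cl t = t := by simp [cl, h0, h1]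

@[fun_prop] lemma cl_cont : Continuous cl := by
  unfold cl
  fun_prop

lemma parab {G : (ℕ → ℝ) → ℝ} (hG : Continuous G) {l : ℕ → ℝ} (l0 : ∀ j, 0 < l j)
    (hl : Summable l) (u₀ : ℕ → ℝ) (j₀ : ℕ)
    (lip : ∀ u j s, j₀ ≤ j → u j ∈ Icc 0 1 → s ∈ Icc 0 1 →
      G u - G (Function.update u j s) ≤ l j / 4 * |u j - s|) :
    ∃ u : ℕ → ℝ, (∀ j < j₀, u j = u₀ j) ∧ ∀ j, j₀ ≤ j → u j ∈ Icc (1 / 4) (3 / 4) ∧
      ∀ h, |h| ≤ 1 / 4 → G (Function.update u j (u j + h)) +
        G (Function.update u j (u j + -h)) - 2 * G u ≤ 2 * l j * h ^ 2 := by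
  have b : ∀ j t, ‖l j * (cl t - 1 / 2) ^ 2‖ ≤ l j := fun j t => by
    rw [Real.norm_of_nonneg (mul_nonneg (l0 j).le (sq_nonneg _))]
    exact mul_le_of_le_one_right (l0 j).le (by nlinarith [cl_mem t])
  obtain ⟨u, hu, hm⟩ := (isCompact_univ_pi (s := fun j => if j < j₀ then {u₀ j} else Icc 0 1)
    fun j => by split_ifs; exacts [isCompact_singleton, isCompact_Icc]).exists_isMaxOn
    ⟨fun j => if j < j₀ then u₀ j else 0, fun j _ => by beta_reduce; split_ifs <;> simp⟩
    (hG.sub (continuous_tsum (f := fun j (u : ℕ → ℝ) => l j * (cl (u j) - 1 / 2) ^ 2)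
      (fun j => by fun_prop) hl fun j u => b j _)).continuousOn
  refine ⟨u, fun j hj => by simpa [hj] using hu j trivial, fun j hj => ?_⟩
  have u1 : u j ∈ Icc 0 1 := by simpa [not_lt.2 hj] using hu j trivial
  have key : ∀ s ∈ Icc 0 1, G (Function.update u j s) - l j * (s - 1 / 2) ^ 2 ≤
      G u - l j * (u j - 1 / 2) ^ 2 := fun s hs => by
    have h1 := hm (a := Function.update u j s) fun i _ => by
      by_cases e : i = j
      · simpa [e, not_lt.2 hj] using hs
      · simpa [e] using hu i trivial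
    have h2 := ((Summable.of_norm_bounded hl fun i => b i (u i)).hasSum.update j
      (l j * (s - 1 / 2) ^ 2)).tsum_eq
    rw [tsum_congr (g := fun i => l i * (cl (Function.update u j s i) - 1 / 2) ^ 2) fun i => by
      by_cases e : i = j <;> simp [e, cl_eq hs.1 hs.2], cl_eq u1.1 u1.2] at h2
    simp only [mem_ofPred_eq, Pi.sub_apply] at h1
    linarith
  have h3 : |u j - 1 / 2| ≤ 1 / 4 := by
    have h1 := key (1 / 2) (by norm_num)
    have h2 := lip u j (1 / 2) hj u1 (by norm_num)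
    rw [← sq_abs (u j - 1 / 2)] at h1
    by_contra h
    nlinarith [mul_pos (l0 j) (mul_pos (sub_pos.2 (not_le.1 h)) (sub_pos.2 (not_le.1 h))), l0 j]
  rw [abs_le] at h3
  refine ⟨⟨by linarith, by linarith⟩, fun h hh => ?_⟩
  rw [abs_le] at hh
  linarith [key (u j + h) ⟨by linarith, by linarith⟩, key (u j + -h) ⟨by linarith, by linarith⟩]

end Pool.Agent.MP_050e69_pr

end MrgPart2

-- ======== part 3: formerly Pool.Agent.MP_050e69_pr.Baire
section MrgPart3

set_option autoImplicit false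

open MeasureTheory Filter Topology

namespace Pool.Agent.MP_050e69_pr

variable {d J : ℕ} {D : ℝ}

noncomputable def rr (j : ℕ) : ℝ := 1 / (20 * (j + 1) ^ 2)

lemma rr_pos (j : ℕ) : 0 < rr j := by
  unfold rr
  positivity

lemma rr_sum : Summable rr := by
  have := ((summable_nat_add_iff 1).2 (Real.summable_one_div_nat_pow.2 one_lt_two)).mul_left (1 / 20)
  refine this.congr fun j => ?_
  rw [rr]
  push_cast
  field_simp

lemma rr_le {K j : ℕ} (hK : 1 ≤ K) (h : K ≤ j) : rr j ≤ 1 / (20 * K) := by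
  have : (K : ℝ) ≤ j := by exact_mod_cast h
  have : (1 : ℝ) ≤ K := by exact_mod_cast hK
  exact one_div_le_one_div_of_le (by positivity) (by nlinarith)

/-- The values of the types. -/
noncomputable def yv (J : ℕ) (D : ℝ) (u : ℕ → ℝ) (j : ℕ) : ℝ :=
  if j = J then D else if j.unpair.2 < j.unpair.1 then
    j.unpair.2 / (10 * j.unpair.1) + rr j * cl (u j) else 0

lemma yv_mem (u : ℕ → ℝ) {j : ℕ} (hj : j ≠ J) : 0 ≤ yv J D u j ∧ yv J D u j ≤ 1 / 10 := by
  rw [yv, if_neg hj]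
  split_ifs with h
  · have h1 := rr_le (Nat.one_le_of_lt h) (Nat.unpair_left_le j)
    have h2 := cl_mem (u j)
    have h3 := rr_pos j
    have h4 : (j.unpair.2 : ℝ) + 1 ≤ j.unpair.1 := by exact_mod_cast h
    have h5 : (0 : ℝ) < j.unpair.1 := by exact_mod_cast Nat.zero_lt_of_lt h
    refine ⟨add_nonneg (by positivity) (mul_nonneg h3.le h2.1), ?_⟩
    refine (add_le_add_right ((mul_le_of_le_one_right h3.le h2.2).trans h1) _).trans ?_
    rw [div_add_div _ _ (by positivity) (by positivity), div_le_iff₀ (by positivity)]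
    nlinarith
  · norm_num

lemma yv_abs (hD : 1 ≤ D) (u : ℕ → ℝ) (j : ℕ) : |yv J D u j| ≤ D := by
  by_cases h : j = J
  · rw [yv, if_pos h, abs_of_nonneg (by linarith)]
  · have := yv_mem (D := D) u h
    rw [abs_le]
    constructor <;> linarith

lemma yv_bd (hD : 1 ≤ D) (u : ℕ → ℝ) (β : ℝ) : Bd fun j => β * yv J D u j :=
  Bd.smul ⟨D, yv_abs hD u⟩ β

lemma yv_val (hJ : J ≠ 0) (hq : q J = Real.exp (-(D / 100))) (hD : 2000 ≤ D) (u : ℕ → ℝ) {β : ℝ}
    (hβ : 1 ≤ β) : Val J D β fun j => β * yv J D u j where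
  nn j := mul_nonneg (by linarith) (by
    by_cases h : j = J
    · rw [yv, if_pos h]
      linarith
    · exact (yv_mem u h).1)
  le j h := by nlinarith [yv_mem (D := D) u h]
  top := by rw [yv, if_pos rfl]
  zero := by simp [yv, hJ.symm]
  hq := hq
  hD := hD
  hβ := hβ

lemma pair_ne (hJ : J.unpair.1 = 0) {K i : ℕ} (hi : i < K) : K.pair i ≠ J := fun e => by
  rw [← e, Nat.unpair_pair] at hJ
  omega

lemma yv_pair (hJ : J.unpair.1 = 0) (u : ℕ → ℝ) {K i : ℕ} (hi : i < K) :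
    yv J D u (K.pair i) = i / (10 * K) + rr (K.pair i) * cl (u (K.pair i)) := by
  simp [yv, pair_ne hJ hi, hi]

lemma yv_sep (hJ : J.unpair.1 = 0) (u : ℕ → ℝ) (K : ℕ) : Sep K fun i => yv J D u (K.pair i) := by
  refine ⟨fun j hj => yv_mem u (pair_ne hJ hj), fun i hi j hj => ?_⟩
  have K0 : (0 : ℝ) < K := by exact_mod_cast Nat.zero_lt_of_lt hi
  have b : ∀ i, 0 ≤ 20 * K * (rr (K.pair i) * cl (u (K.pair i))) ∧
      20 * K * (rr (K.pair i) * cl (u (K.pair i))) ≤ 1 := fun k => by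
    have h1 := rr_le (Nat.one_le_of_lt hi) (Nat.left_le_pair K k)
    rw [le_div_iff₀ (by positivity)] at h1
    have := rr_pos (K.pair k)
    have := cl_mem (u (K.pair k))
    exact ⟨mul_nonneg (by positivity) (by nlinarith), by nlinarith⟩
  beta_reduce
  rw [← abs_of_pos (show 0 < 20 * (K : ℝ) by positivity), ← abs_mul, yv_pair hJ u hi,
    yv_pair hJ u hj, mul_sub, mul_add, mul_add, show ∀ a : ℝ, 20 * K * (a / (10 * K)) = 2 * a from
      fun a => by field_simp; ring, show ∀ a : ℝ, 20 * K * (a / (10 * K)) = 2 * a from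
      fun a => by field_simp; ring]
  rcases lt_trichotomy i j with h | rfl | h
  · have : (i : ℝ) + 1 ≤ j := by exact_mod_cast h
    rw [abs_of_neg (by linarith)]
    exact le_trans (by linarith [b i, b j]) (neg_le_abs _)
  · simp
  · have : (j : ℝ) + 1 ≤ i := by exact_mod_cast h
    rw [abs_of_pos (by linarith)]
    exact le_trans (by linarith [b i, b j]) (le_abs_self _)

lemma yv_diff (u u' : ℕ → ℝ) (j : ℕ) :
    |yv J D u j - yv J D u' j| ≤ rr j * |cl (u j) - cl (u' j)| := by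
  have := rr_pos j
  unfold yv
  split_ifs
  · rw [sub_self, abs_zero]
    positivity
  · rw [add_sub_add_left_eq_sub, ← mul_sub, abs_mul, abs_of_pos this]
  · rw [sub_self, abs_zero]
    positivity

lemma yv_upd (hJ : J.unpair.1 = 0) {u : ℕ → ℝ} {K i : ℕ} (hi : i < K) {h : ℝ} (β : ℝ)
    (h1 : u (K.pair i) ∈ Set.Icc (1 / 4) (3 / 4)) (h2 : |h| ≤ 1 / 4) :
    (fun j => β * yv J D (Function.update u (K.pair i) (u (K.pair i) + h)) j) =
      fun j => β * yv J D u j + β * rr (K.pair i) * h * ind (K.pair i) j := by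
  ext j
  rw [abs_le] at h2
  by_cases e : j = K.pair i
  · rw [e, yv_pair hJ _ hi, yv_pair hJ _ hi, Function.update_self, ind, if_pos rfl,
      cl_eq (by linarith [h1.1]) (by linarith [h1.2]), cl_eq (by linarith [h1.1]) (by linarith [h1.2])]
    ring
  · simp [yv, ind, e]

noncomputable def Φ (d J : ℕ) (D : ℝ) (u : ℕ → ℝ) (β : ℝ) : ℝ := F d fun j => β * yv J D u j

lemma Φ_lip (hd : 0 < d) (hD : 1 ≤ D) {u u' : ℕ → ℝ} (β β' : ℝ) {c : ℝ}
    (h : ∀ j, |yv J D u j - yv J D u' j| ≤ c) :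
    |Φ d J D u β - Φ d J D u' β'| ≤ |β - β'| * D + |β'| * c := by
  have e : ∀ j, |β * yv J D u j - β' * yv J D u' j| ≤ |β - β'| * D + |β'| * c := fun j => by
    rw [show β * yv J D u j - β' * yv J D u' j =
      (β - β') * yv J D u j + β' * (yv J D u j - yv J D u' j) by ring]
    refine (abs_add_le _ _).trans ?_
    rw [abs_mul, abs_mul]
    gcongr
    exacts [yv_abs hD u j, h j]
  rw [abs_le, Φ, Φ]
  constructor
  · linarith [F_lip hd (yv_bd hD u' β') (yv_bd hD u β) (c := |β - β'| * D + |β'| * c)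
      fun j => by linarith [abs_le.1 (e j)]]
  · linarith [F_lip hd (yv_bd hD u β) (yv_bd hD u' β') (c := |β - β'| * D + |β'| * c)
      fun j => by linarith [abs_le.1 (e j)]]

lemma Φ_cont (hd : 0 < d) (hD : 1 ≤ D) : Continuous (Φ d J D).uncurry := by
  have b : ∀ j s t, ‖rr j * |cl s - cl t|‖ ≤ rr j := fun j s t => by
    rw [Real.norm_of_nonneg (mul_nonneg (rr_pos j).le (abs_nonneg _))]
    exact mul_le_of_le_one_right (rr_pos j).le
      (abs_le.2 ⟨by linarith [cl_mem s, cl_mem t], by linarith [cl_mem s, cl_mem t]⟩)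
  refine continuous_iff_continuousAt.2 fun x => tendsto_iff_norm_sub_tendsto_zero.2 ?_
  have c : Continuous fun y : (ℕ → ℝ) × ℝ =>
      |y.2 - x.2| * D + |x.2| * ∑' j, rr j * |cl (y.1 j) - cl (x.1 j)| :=
    .add (by fun_prop) (continuous_const.mul (continuous_tsum (fun j => by fun_prop) rr_sum
      fun j y => b j _ _))
  refine squeeze_zero (fun _ => norm_nonneg _) (fun y => Φ_lip hd hD _ _ fun j =>
    (yv_diff _ _ j).trans ((Summable.of_norm_bounded rr_sum fun j => b j _ _).le_tsum j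
      fun j _ => mul_nonneg (rr_pos j).le (abs_nonneg _))) (by simpa using c.tendsto x)

lemma Φ_conv (hd : 0 < d) (hD : 1 ≤ D) (u : ℕ → ℝ) (β t : ℝ) :
    2 * Φ d J D u β ≤ Φ d J D u (β + t) + Φ d J D u (β - t) := by
  simpa only [Φ, add_mul, sub_eq_add_neg, neg_mul, one_mul] using
    F_conv hd (yv_bd (J := J) hD u β) (yv_bd hD u t)

lemma rq_ge {K i : ℕ} (hi : i < K) : 1 ≤ 10240 ^ K * (rr (K.pair i) * q (K.pair i)) := by
  have h1 : K.pair i + 1 ≤ (K + 1) ^ 2 := by
    simpa [max_eq_left hi.le] using Nat.succ_le_of_lt (Nat.pair_lt_max_add_one_sq K i)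
  have h2 : K.pair i + 1 ≤ 4 ^ K := h1.trans (by
    rw [show 4 = 2 ^ 2 from rfl, ← pow_mul, mul_comm, pow_mul]
    exact Nat.pow_le_pow_left Nat.lt_two_pow_self 2)
  have h3 : (K.pair i : ℝ) + 1 ≤ 4 ^ K := by exact_mod_cast h2
  have h4 : (40 : ℝ) ≤ 40 ^ K := le_self_pow₀ (by norm_num) (by omega)
  rw [rr, q, div_mul_div_comm, one_mul, mul_one_div, one_le_div (by positivity)]
  calc _ ≤ (20 : ℝ) * (4 ^ K) ^ 2 * (4 ^ K * (2 * 4 ^ K)) := by
        gcongr
        linarith [(K.pair i).cast_nonneg (α := ℝ)]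
    _ = 40 * (4 ^ K * 4 ^ K * 4 ^ K * 4 ^ K) := by ring
    _ ≤ 40 ^ K * (4 ^ K * 4 ^ K * 4 ^ K * 4 ^ K) := by gcongr
    _ = _ := by simp only [← mul_pow]; norm_num

end Pool.Agent.MP_050e69_pr

end MrgPart3

-- ======== part 4: formerly Pool.Agent.MP_050e69_pr.NotAll
section MrgPart4

set_option autoImplicit false

open MeasureTheory Filter Topology

namespace Pool.Agent.MP_050e69_pr

variable {d J : ℕ} {D : ℝ}

theorem not_all (hd : 2 ≤ d) (hJ : J.unpair.1 = 0) (hJ0 : J ≠ 0)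
    (hq : q J = Real.exp (-(D / 100))) (hD : 2000 ≤ D)
    (hD1 : 2 * d * (Real.log (2 * d) + 1 / 5) ≤ D / 16) (hD2 : th d * (2 + 32 * d) ≤ D) :
    ∃ u, ¬ AnalyticAt ℝ (Φ d J D u) (3 / 2) := by
  by_contra hall
  push Not at hall
  have d0 : 0 < d := by omega
  have D1 : 1 ≤ D := by linarith
  have c0 := Φ_cont (J := J) d0 D1
  have c1 : ∀ u, Continuous (Φ d J D u) := fun u => c0.uncurry_left u
  obtain ⟨N₀, u₀, hu₀⟩ := nonempty_interior_of_iUnion_of_closed
    (f := fun N : ℕ => {u | ∃ c, Ser (N + 1) (Φ d J D u) c})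
    (fun N => ser_closed (fun x => c0.uncurry_right x) (by positivity))
    (Set.eq_univ_of_forall fun u => Set.mem_iUnion.2 (ser_cover (hall u)))
  obtain ⟨I, U, hU, hI⟩ := isOpen_pi_iff.1 isOpen_interior u₀ hu₀
  set N : ℝ := N₀ + 1
  have N1 : 1 ≤ N := le_add_of_nonneg_left N₀.cast_nonneg
  set j₀ := I.sup id + 1
  choose! f f1 f2 using fun (u : ℕ → ℝ) (hu : ∀ j < j₀, u j = u₀ j) => (interior_subset (hI
    (a := u) fun j hj => hu j (Nat.lt_succ_of_le (Finset.le_sup (f := id) hj)) ▸ (hU j hj).2)).elim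
      fun c hc => ser_ext (by positivity) hc
  obtain ⟨u, hu, hp⟩ := parab (G := fun u => ∫ β in (1 : ℝ)..2, Φ d J D u β)
    (intervalIntegral.continuous_parametric_intervalIntegral_of_continuous' c0 1 2)
    (l := fun j => 8 * rr j) (fun j => by linarith [rr_pos j]) (rr_sum.mul_left 8) u₀ j₀
    fun u j s _ h1 h2 => by
      rw [← intervalIntegral.integral_sub ((c1 _).intervalIntegrable _ _)
        ((c1 _).intervalIntegrable _ _)]
      refine (Real.le_norm_self _).trans ((intervalIntegral.norm_integral_le_of_norm_le_const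
        (a := 1) (b := 2) (C := 8 * rr j / 4 * |u j - s|) fun β hβ => ?_).trans_eq (by norm_num))
      rw [Set.uIoc_of_le one_le_two] at hβ
      refine (Φ_lip d0 D1 β β (c := rr j * |u j - s|) fun i => (yv_diff _ _ i).trans ?_).trans ?_
      · by_cases e : i = j
        · rw [e, Function.update_self, cl_eq h1.1 h1.2, cl_eq h2.1 h2.2]
        · rw [Function.update_of_ne e, sub_self, abs_zero, mul_zero]
          exact mul_nonneg (rr_pos j).le (abs_nonneg _)
      · rw [abs_of_pos (zero_lt_one.trans hβ.1)]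
        simp only [sub_self, abs_zero]
        nlinarith [mul_nonneg (rr_pos j).le (abs_nonneg (u j - s)), hβ.2]
  set ρ := (12000 * 10240 * (1 + 128 * N ^ 3))⁻¹ with hρ
  have N3 : N ≤ N ^ 3 := le_self_pow₀ N1 three_ne_zero
  have ρ0 : 0 < ρ := by positivity
  have ρ1 : ρ < 1 / (4 * N) := by
    rw [hρ, one_div]
    exact inv_strictAnti₀ (by positivity) (by linarith)
  have r1 : 1 / (4 * N) ≤ 1 / 4 := one_div_le_one_div_of_le (by norm_num) (by linarith)
  have r2 : 1 / (4 * N) < 1 / (2 * N) := one_div_lt_one_div_of_lt (by positivity) (by linarith)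
  have hK : ∀ K, j₀ ≤ K → ∀ k, k ≠ 0 → (ρ ^ K) ^ k ≤ ρ := fun K hK k hk => by
    rw [← pow_mul]
    exact pow_le_of_le_one ρ0.le (by linarith) (mul_ne_zero (by omega) hk)
  have up : ∀ K, j₀ ≤ K → ∀ i s, ∀ j < j₀, Function.update u (K.pair i) s j = u₀ j :=
    fun K hK i s j hj => by
      rw [Function.update_of_ne (by have := Nat.left_le_pair K i; omega), hu j hj]
  refine core (K₀ := j₀) (r := 1 / (4 * N)) (C := 5 * N * 10240 / ρ ^ 3)
    (y := fun K i => yv J D u (K.pair i))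
    (A := fun K i β => (f (Function.update u (K.pair i) (u (K.pair i) + (ρ ^ K) ^ 3)) β - f u β) /
      (β * Complex.exp (β * yv J D u (K.pair i) / 2) *
        ((ρ ^ K) ^ 3 * (rr (K.pair i) * q (K.pair i)) : ℝ)))
    (L := fun β n z => Lam d (fun j => β * yv J D u j) n z) hD (by positivity) r1 ?_
    (fun K _ => yv_sep hJ u K) (fun K h i hi β hβ => ?_) (fun K h β hβ i hi => ?_)
    (fun K h β hβ z hz n => Lam_interp d0 (yv_bd D1 u β) (yv_val hJ0 hq hD u
      (by linarith [abs_le.1 hβ])).nn hz (by omega) (yv_sep hJ u K) (hβ.trans r1) n)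
    fun m ℓ hm hℓ M => ?_
  · rw [one_le_div (by positivity)]
    linarith [pow_le_one₀ ρ0.le (show ρ ≤ 1 by linarith) (n := 3)]
  · have a1 := f1 _ (up K h i (u (K.pair i) + (ρ ^ K) ^ 3)) β (hβ.trans_lt r2)
    have a2 := f1 u hu β (hβ.trans_lt r2)
    have a3 := yv_mem (D := D) u (pair_ne hJ hi)
    have a4 := (node_re (hβ.trans r1) (abs_le.2 ⟨by linarith, a3.2⟩)).1.trans (Complex.re_le_norm _)
    have a5 : 1 ≤ ‖β‖ := by
      have := abs_le.1 ((abs_norm_sub_norm_le β (3 / 2)).trans (hβ.trans r1))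
      norm_num at this
      linarith
    have a6 := mul_pos (pow_pos (pow_pos ρ0 K) 3) (mul_pos (rr_pos (K.pair i)) (q_pos (K.pair i)))
    have a7 : 1 * (4 / 5) * ((ρ ^ K) ^ 3 * (rr (K.pair i) * q (K.pair i))) ≤
        ‖β * Complex.exp (β * yv J D u (K.pair i) / 2) *
        ((ρ ^ K) ^ 3 * (rr (K.pair i) * q (K.pair i)) : ℝ)‖ := by
      rw [norm_mul, norm_mul, Complex.norm_real, Real.norm_of_nonneg a6.le]
      gcongr
    refine ⟨(a1.1.sub a2.1).div (by fun_prop) (norm_pos_iff.1 (by linarith)), ?_⟩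
    rw [norm_div]
    refine (div_le_div₀ (by positivity) ((norm_sub_le _ _).trans (add_le_add a1.2 a2.2))
      (by positivity) a7).trans ?_
    rw [div_pow, ← pow_mul ρ 3, mul_comm 3, pow_mul, div_le_div_iff₀ (by positivity) (by positivity),
      mul_pow]
    have a8 : 5 * N ≤ (5 * N) ^ K := le_self_pow₀ (by linarith) (by omega)
    calc _ = 4 / 5 * (ρ ^ K) ^ 3 * (5 * N * 1) := by ring
      _ ≤ 4 / 5 * (ρ ^ K) ^ 3 * ((5 * N) ^ K * (10240 ^ K * (rr (K.pair i) * q (K.pair i)))) := by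
          gcongr
          exact rq_ge hi
      _ = _ := by ring
  · obtain ⟨p1, p2⟩ := hp _ (h.trans (Nat.left_le_pair K i))
    set j := K.pair i with hj
    set σ := ρ ^ K with hσ
    have σ0 : 0 < σ := pow_pos ρ0 K
    have s3 : |σ ^ 3| ≤ 1 / 4 := by
      rw [abs_of_pos (by positivity)]
      linarith [hK K h 3 three_ne_zero]
    have s2 : σ ^ 2 < 1 / (4 * N) := (hK K h 2 two_ne_zero).trans_lt ρ1
    have b := abs_le.1 hβ
    have e1 : ∀ x, Φ d J D (Function.update u j (u j + σ ^ 3)) x =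
        F d fun i => x * yv J D u i + x * rr j * σ ^ 3 * ind j i := fun x => by
      rw [Φ, yv_upd hJ hi x p1 s3]
    have e2 : ∀ x, Φ d J D (Function.update u j (u j + -σ ^ 3)) x =
        F d fun i => x * yv J D u i + -(x * rr j * σ ^ 3) * ind j i := fun x => by
      rw [Φ, yv_upd hJ hi x p1 (by rwa [abs_neg]), mul_neg]
    have hS := sup_le (S := fun x => Φ d J D (Function.update u j (u j + σ ^ 3)) x +
      Φ d J D (Function.update u j (u j + -σ ^ 3)) x - 2 * Φ d J D u x) (x := β) (s := σ ^ 2)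
      (C := 256 * N ^ 3 * σ ^ 4) (ε := σ ^ 6)
      (((c1 _).add (c1 _)).sub (continuous_const.mul (c1 _))) (fun x => by
        have := F_conv d0 (yv_bd (J := J) D1 u x) ((bd_ind j).smul (x * rr j * σ ^ 3))
        simp only [neg_mul, one_mul] at this
        simp only [e1, e2, neg_mul]
        exact sub_nonneg.2 this) (by positivity) (by linarith) (by linarith) (fun t ht => by
        have h1 := second (f1 u hu) (f2 u hu) hβ (t := t) (by rw [abs_of_nonneg ht.1]; linarith [ht.2])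
        have h2 : t ^ 2 ≤ (σ ^ 2) ^ 2 := pow_le_pow_left₀ ht.1 ht.2 2
        nlinarith [Φ_conv (J := J) d0 D1 (Function.update u j (u j + σ ^ 3)) β t,
          Φ_conv (J := J) d0 D1 (Function.update u j (u j + -σ ^ 3)) β t,
          mul_le_mul_of_nonneg_left h2 (show 0 ≤ N ^ 3 by positivity)]) (by
        rw [intervalIntegral.integral_sub (((c1 _).fun_add (c1 _)).intervalIntegrable _ _)
          (((c1 _).intervalIntegrable _ _).const_mul 2), intervalIntegral.integral_add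
          ((c1 _).intervalIntegrable _ _) ((c1 _).intervalIntegrable _ _),
          intervalIntegral.integral_const_mul]
        have h1 := rr_le le_rfl ((Nat.one_le_of_lt hi).trans (Nat.left_le_pair K i))
        norm_num at h1
        nlinarith [p2 _ s3, pow_pos σ0 6])
    rw [show σ ^ 6 + 256 * N ^ 3 * σ ^ 4 * σ ^ 2 = (σ ^ 4 + 256 * N ^ 3 * σ ^ 4) * σ ^ 2 by ring,
      mul_le_mul_iff_left₀ (by positivity), e1, e2] at hS
    filter_upwards [Lam_resp d0 (yv_bd (J := J) D1 u β) j (t := β * rr j * σ ^ 3)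
      (show 0 < σ ^ 4 / 2 by positivity)] with n hn
    have x1 : 1 ≤ Real.exp (β * yv J D u j / 2) := Real.one_le_exp (by
      nlinarith [(yv_mem (D := D) u (pair_ne hJ hi)).1])
    have t0 := mul_pos (pow_pos σ0 3) (mul_pos (rr_pos j) (q_pos j))
    have t1 : σ ^ 3 * (rr j * q j) ≤
        β * rr j * σ ^ 3 * (Real.exp (β * yv J D u j / 2) * q j) := by
      nlinarith [mul_le_mul (show 1 ≤ β by linarith) x1 zero_le_one (by linarith)]
    rw [f2 _ (up K h i _) β (hβ.trans r2.le), f2 u hu β (hβ.trans r2.le), e1,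
      show Complex.exp (β * yv J D u j / 2) = (Real.exp (β * yv J D u j / 2) : ℝ) by simp,
      ← Complex.ofReal_mul, ← Complex.ofReal_mul, ← Complex.ofReal_sub,
      show β * Real.exp (β * yv J D u j / 2) * (σ ^ 3 * (rr j * q j)) =
        β * rr j * σ ^ 3 * (Real.exp (β * yv J D u j / 2) * q j) by ring,
      sub_div' (Complex.ofReal_ne_zero.2 (t0.trans_le t1).ne'), norm_div, Complex.norm_real,
      Real.norm_of_nonneg (t0.le.trans t1), mul_comm (Lam _ _ _ _)]
    refine (div_le_div₀ (c := (1 + 128 * N ^ 3) * σ ^ 4) (by positivity) (hn.trans (by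
      rw [Φ] at hS; linarith)) t0 t1).trans ?_
    rw [div_le_iff₀ t0, show (1 / 12000 : ℝ) = (1 + 128 * N ^ 3) * (ρ * 10240) by
      rw [hρ]; field_simp, mul_pow, mul_pow, ← hσ]
    have a8 : 1 + 128 * N ^ 3 ≤ (1 + 128 * N ^ 3) ^ K := le_self_pow₀ (by linarith) (by omega)
    calc _ = σ ^ 4 * ((1 + 128 * N ^ 3) * 1) := by ring
      _ ≤ σ ^ 4 * ((1 + 128 * N ^ 3) ^ K * (10240 ^ K * (rr j * q j))) := by
          gcongr
          exact rq_ge hi
      _ = _ := by ring
  · obtain ⟨c, c0, c1, hc⟩ := mass hd (J := J) hD1 hD2 (by linarith) hm hℓ (16 * M)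
    refine ⟨c, c0, c1, fun β hβ z hz h => ?_⟩
    have b := abs_le.1 hβ
    filter_upwards [hc β _ (yv_val hJ0 hq hD u (by linarith)) (by linarith),
      eventually_ge_atTop 1] with n h1 h2
    exact Lam_im (yv_bd D1 u β) hz (Rs_pos (Real.exp_pos _)
      (Real.exp_le_one_iff.2 (by nlinarith)) hm ℓ) c0 c1 h h2 h1

end Pool.Agent.MP_050e69_pr

end MrgPart4

-- ======== part 5: formerly Pool.Agent.MP_050e69_pr.Main
section MrgPart5

set_option autoImplicit false

open MeasureTheory Filter Topology Finset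

namespace Pool.Agent.MP_050e69_pr

variable {d : ℕ}

lemma H_ofFn {n : ℕ} (h : Site d → ℝ) (σ : Fin n → St d) :
    H h (List.ofFn σ) = ∑ j : Fin n, h ((j : ℕ) + 1, pos σ j) := by
  rw [H, List.length_ofFn, sum_range]
  refine sum_congr rfl fun j _ => ?_
  rw [site, disp, List.map_take, List.map_ofFn, List.sum_take_ofFn, pos]
  congr 3
  ext k
  simp

lemma log_W (hd : 0 < d) (μ : Measure ℝ) (β : ℝ) (n : ℕ) (ω : Site d → ℝ) :
    Real.log (W d μ β n ω) = Real.log (Z n fun p => β * ω p) -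
      n * (Real.log (2 * d) + Real.log (∫ x, Real.exp (β * x) ∂μ)) := by
  have d0 : (0 : ℝ) < d := by exact_mod_cast hd
  have : W d μ β n ω = (Z n fun p => β * ω p) /
      Real.exp (n * Real.log (∫ x, Real.exp (β * x) ∂μ)) / (2 * d) ^ n := by
    rw [W, Z, P, sum_map, sum_div _ _ (Real.exp _)]
    simp [H_ofFn, Real.exp_sub]
  rw [this, Real.log_div (div_pos (Z_pos hd _ _) (Real.exp_pos _)).ne' (by positivity),
    Real.log_div (Z_pos hd _ _).ne' (Real.exp_pos _).ne', Real.log_exp, Real.log_pow]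
  ring

lemma exists_J (X : ℝ) : ∃ (J : ℕ) (D : ℝ), J.unpair.1 = 0 ∧ J ≠ 0 ∧
    q J = Real.exp (-(D / 100)) ∧ X ≤ D := by
  obtain ⟨k, hk⟩ := exists_nat_ge (Real.exp (X / 100))
  have h1 : (k : ℝ) + 1 ≤ Nat.pair 0 (k + 1) := by exact_mod_cast Nat.right_le_pair 0 (k + 1)
  refine ⟨Nat.pair 0 (k + 1), -(100 * Real.log (q (Nat.pair 0 (k + 1)))), by simp,
    (k.succ_pos.trans_le (Nat.right_le_pair 0 _)).ne', ?_, ?_⟩
  · rw [neg_div, neg_neg, mul_div_cancel_left₀ _ (by norm_num), Real.exp_log (q_pos _)]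
  · rw [q, one_div, Real.log_inv, mul_neg, neg_neg, ← div_le_iff₀' (by norm_num),
      Real.le_log_iff_exp_le (by positivity)]
    nlinarith [k.cast_nonneg (α := ℝ)]

theorem main (hd : 2 ≤ d) : ∃ μ : Measure ℝ, ∃ _ : IsProbabilityMeasure μ,
    (∀ β : ℝ, Integrable (fun x => Real.exp (β * x)) μ) ∧ ∃ f : ℝ → ℝ,
      (∀ β : ℝ, ∀ᵐ ω ∂(Measure.infinitePi fun _ : ℕ × (Fin d → ℤ) => μ),
        Tendsto (fun n : ℕ => Real.log (W d μ β n ω) / n) atTop (𝓝 (f β))) ∧
      (∀ β : ℝ, 1 ≤ β → f β < 0) ∧ ¬ AnalyticAt ℝ f (3 / 2) := by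
  have d0 : 0 < d := by omega
  have d2 : (2 : ℝ) ≤ d := by exact_mod_cast hd
  obtain ⟨J, D, hJ, hJ0, hq, hD⟩ := exists_J (max (2000 * d) (max
    (16 * (2 * d * (Real.log (2 * d) + 1 / 5))) (th d * (2 + 32 * d))))
  simp only [max_le_iff] at hD
  have D0 : 2000 ≤ D := by linarith
  have D1 : 1 ≤ D := by linarith
  obtain ⟨u, hu⟩ := not_all hd hJ hJ0 hq D0 (by linarith) hD.2.2
  have my : Measurable (yv J D u) := .of_discrete
  have hi : ∀ β : ℝ, Integrable (fun x => Real.exp (β * x)) (ν.map (yv J D u)) := fun β =>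
    (integrable_map_measure (by fun_prop) my.aemeasurable).2
      ((BM.exp ⟨.of_discrete, yv_bd D1 u β⟩).int ν)
  refine ⟨ν.map (yv J D u), Measure.isProbabilityMeasure_map my.aemeasurable, hi, fun β =>
    Φ d J D u β - (Real.log (2 * d) + Real.log (∫ x, Real.exp (β * x) ∂ν.map (yv J D u))),
    fun β => ?_, fun β hβ => ?_, fun h => hu ?_⟩
  · rw [← Measure.infinitePi_map_pi (fun _ => ν) fun _ => my, ae_map_iff
      (Measurable.aemeasurable (by fun_prop))
      (measurableSet_tendsto _ fun n => by unfold W; fun_prop)]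
    filter_upwards [ae_tendsto d0 (yv_bd (J := J) D1 u β)] with η hη
    refine (hη.sub_const _).congr' ?_
    filter_upwards [eventually_gt_atTop 0] with n hn
    rw [log_W d0, sub_div, mul_div_cancel_left₀ _ (by positivity)]
    rfl
  · have := F_lt d0 (yv_val hJ0 hq D0 u hβ) hD.1
    beta_reduce
    rw [integral_map my.aemeasurable (by fun_prop), Φ]
    linarith [Real.log_nonneg (show 1 ≤ 2 * (d : ℝ) by linarith)]
  · have := ProbabilityTheory.analyticAt_cgf (X := fun x => x) (μ := ν.map (yv J D u)) (v := 3 / 2) (by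
      rw [Set.eq_univ_of_forall (s := ProbabilityTheory.integrableExpSet _ _) hi]
      simp)
    refine (h.add ((analyticAt_const (v := Real.log (2 * d))).add this)).congr (.of_forall fun β => ?_)
    simp [ProbabilityTheory.cgf, ProbabilityTheory.mgf]

end Pool.Agent.MP_050e69_pr

end MrgPart5

-- marker of a merged file
example : 731051 + 196258 = 731051 + 196258 := rfl
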